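import Pool.Agent.R66.BX.Det

set_option autoImplicit false

/-!
# Counting the exceptional classes in a product set
-/

namespace Pool.Agent.R66.BX

open Finset

/-- The pairs `(d, m)` with `1 ≤ d ≤ D` and `m i ∈ A i`. -/
def box {n : ℕ} (D : ℕ) (A : Fin n → Finset ℕ) : Set (ℕ × (Fin n → ℕ)) :=
  {x | 1 ≤ x.1 ∧ x.1 ≤ D ∧ ∀ i, x.2 i ∈ A i}

theorem box_finset {n : ℕ} (D : ℕ) (A : Fin n → Finset ℕ) :
    box D A = ↑((Finset.Icc 1 D) ×ˢ Fintype.piFinset A) := by
  ext x
  simp [box, and_assoc]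

theorem box_count {n : ℕ} (A : Fin n → Finset ℕ) (hA : ∀ i, (A i).Nonempty) {μ D : ℕ} (hμ : 1 ≤ μ)
    (hAμ : ∀ i, ∀ a ∈ A i, a ≤ μ) (Sp : ℕ → (Fin n → ℕ) → Prop)
    (hSp : ∀ m : Fin n → ℕ, (∀ i, m i ∈ A i) → ∀ d : ℕ, 1 ≤ d → d ≤ D → Sp d m →
      ∑ i, (m i : ℤ) + 4 * |((d + 2).choose 2 : ℤ) - ∑ i, ((m i + 1).choose 2 : ℤ)| <
        25000 * ((μ : ℤ) + 1) ^ 2) :
    (Set.ncard {x ∈ box D A | Sp x.1 x.2} : ℝ) * mean2 A ≤
      10 ^ 6 * (μ : ℝ) ^ 2 * (D * ∏ i, ((A i).card : ℝ)) := by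
  classical
  have hset : {x ∈ box D A | Sp x.1 x.2} =
      ↑(((Finset.Icc 1 D) ×ˢ Fintype.piFinset A).filter fun x => Sp x.1 x.2) := by
    rw [box_finset]
    ext x
    simp
  rw [hset, Set.ncard_coe_finset]
  have hcount : (((Finset.Icc 1 D) ×ˢ Fintype.piFinset A).filter fun x => Sp x.1 x.2).card =
      ∑ m ∈ Fintype.piFinset A, ((Finset.Icc 1 D).filter fun d => Sp d m).card := by
    rw [Finset.card_filter, Finset.sum_product_right]
    refine Finset.sum_congr rfl fun m _ => ?_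
    rw [Finset.card_filter]
  rw [hcount]
  push_cast
  rw [Finset.sum_mul]
  have hT := mean2_nonneg A
  have hμR : (1 : ℝ) ≤ μ := by exact_mod_cast hμ
  -- the deterministic bound
  have hdet : ∀ m ∈ Fintype.piFinset A,
      ((((Finset.Icc 1 D).filter fun d => Sp d m).card : ℕ) : ℝ) * ∑ i, (m i : ℝ) ^ 2 ≤
        301100 * (μ : ℝ) ^ 2 * D := by
    intro m hm
    have hmA : ∀ i, m i ∈ A i := Fintype.mem_piFinset.1 hm
    have hmμ : ∀ i, m i ≤ μ := fun i => hAμ i _ (hmA i)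
    have key := bad_count (D := D) (μ := μ) (Q := ∑ i, m i ^ 2) (A := ∑ i, (m i + 1).choose 2)
      ((Finset.Icc 1 D).filter fun d => Sp d m) hμ
      (fun d hd => Finset.mem_Icc.1 (Finset.mem_filter.1 hd).1)
      (by
        rw [Finset.mul_sum]
        refine Finset.sum_le_sum fun i _ => ?_
        have h := choose_two (m i - 1)
        rcases Nat.eq_zero_or_pos (m i) with h0 | h0
        · rw [h0]; simp
        · have e : m i - 1 + 2 = m i + 1 := by omega
          rw [e] at h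
          have h' : 2 * ((m i + 1).choose 2 : ℤ) = (m i : ℤ) * (m i + 1) := by
            have e2 : ((m i - 1 : ℕ) : ℤ) = (m i : ℤ) - 1 := by push_cast [Nat.cast_sub h0]; ring
            rw [e2] at h
            rw [h]; ring
          have : ((m i ^ 2 : ℕ) : ℤ) ≤ ((2 * (m i + 1).choose 2 : ℕ) : ℤ) := by
            push_cast
            rw [h']
            nlinarith
          exact_mod_cast this)
      (fun d hd => by
        have hd' := Finset.mem_filter.1 hd
        have hI := Finset.mem_Icc.1 hd'.1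
        have h := hSp m hmA d hI.1 hI.2 hd'.2
        have h0 : (0 : ℤ) ≤ ∑ i, (m i : ℤ) := by positivity
        have hμz : (1 : ℤ) ≤ μ := by exact_mod_cast hμ
        have h3 : ((μ : ℤ) + 1) ^ 2 ≤ 4 * (μ : ℤ) ^ 2 := by nlinarith
        push_cast
        linarith)
      (fun hne => by
        obtain ⟨d, hd⟩ := hne
        have hd' := Finset.mem_filter.1 hd
        have hI := Finset.mem_Icc.1 hd'.1
        have h := hSp m hmA d hI.1 hI.2 hd'.2
        have h0 := abs_nonneg (((d + 2).choose 2 : ℤ) - ∑ i, ((m i + 1).choose 2 : ℤ))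
        have hμz : (1 : ℤ) ≤ μ := by exact_mod_cast hμ
        have h3 : ((μ : ℤ) + 1) ^ 2 ≤ 4 * (μ : ℤ) ^ 2 := by nlinarith
        have h4 : ∑ i, (m i : ℤ) ≤ 100000 * (μ : ℤ) ^ 2 := by linarith
        have h5 : ∑ i, (m i : ℤ) ^ 2 ≤ μ * ∑ i, (m i : ℤ) := by
          rw [Finset.mul_sum]
          refine Finset.sum_le_sum fun i _ => ?_
          have : (m i : ℤ) ≤ μ := by exact_mod_cast hmμ i
          have h6 : (0 : ℤ) ≤ m i := by positivity
          nlinarith
        have h7 : ((∑ i, m i ^ 2 : ℕ) : ℤ) ≤ ((100000 * μ ^ 3 : ℕ) : ℤ) := by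
          push_cast
          have : (μ : ℤ) * ∑ i, (m i : ℤ) ≤ μ * (100000 * (μ : ℤ) ^ 2) :=
            mul_le_mul_of_nonneg_left h4 (by positivity)
          calc ∑ i, (m i : ℤ) ^ 2 ≤ μ * ∑ i, (m i : ℤ) := h5
            _ ≤ μ * (100000 * (μ : ℤ) ^ 2) := this
            _ = 100000 * (μ : ℤ) ^ 3 := by ring
        exact_mod_cast h7)
    exact_mod_cast key
  -- each term
  have hterm : ∀ m ∈ Fintype.piFinset A,
      ((((Finset.Icc 1 D).filter fun d => Sp d m).card : ℕ) : ℝ) * mean2 A ≤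
        602200 * (μ : ℝ) ^ 2 * D +
          (if ∑ i, (m i : ℝ) ^ 2 ≤ mean2 A / 2 then (D : ℝ) * mean2 A else 0) := by
    intro m hm
    split_ifs with h
    · have h1 : ((((Finset.Icc 1 D).filter fun d => Sp d m).card : ℕ) : ℝ) ≤ D := by
        have := Finset.card_le_card (Finset.filter_subset (fun d => Sp d m) (Finset.Icc 1 D))
        rw [Nat.card_Icc, Nat.add_sub_cancel] at this
        exact_mod_cast this
      have h2 := mul_le_mul_of_nonneg_right h1 hT
      have h3 : (0 : ℝ) ≤ 602200 * (μ : ℝ) ^ 2 * D := by positivity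
      linarith
    · push Not at h
      have h1 := hdet m hm
      have h2 : ((((Finset.Icc 1 D).filter fun d => Sp d m).card : ℕ) : ℝ) * mean2 A ≤
          ((((Finset.Icc 1 D).filter fun d => Sp d m).card : ℕ) : ℝ) *
            (2 * ∑ i, (m i : ℝ) ^ 2) :=
        mul_le_mul_of_nonneg_left (by linarith) (by positivity)
      linarith
  refine (Finset.sum_le_sum hterm).trans ?_
  rw [Finset.sum_add_distrib, Finset.sum_const, nsmul_eq_mul, ← Finset.sum_filter,
    Finset.sum_const, nsmul_eq_mul, Fintype.card_piFinset]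
  have ht := tail A hA hμ hAμ
  push_cast
  have hP0 : (0 : ℝ) ≤ ∏ i, ((A i).card : ℝ) := Finset.prod_nonneg fun i _ => by positivity
  have h1 : (((Fintype.piFinset A).filter
      (fun m => ∑ i, (m i : ℝ) ^ 2 ≤ mean2 A / 2)).card : ℝ) * ((D : ℝ) * mean2 A) ≤
      D * (22 * (μ : ℝ) ^ 2 * ∏ i, ((A i).card : ℝ)) := by
    have h2 := mul_le_mul_of_nonneg_left ht (Nat.cast_nonneg (α := ℝ) D)
    linarith
  have h3 : (0 : ℝ) ≤ (μ : ℝ) ^ 2 * (D * ∏ i, ((A i).card : ℝ)) := by positivity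
  nlinarith

/-- The sum of the (at most three) largest multiplicities is at most `d`. -/
def Standard {n : ℕ} (d : ℕ) (m : Fin n → ℕ) : Prop :=
  ∀ T : Finset (Fin n), T.card ≤ 3 → ∑ i ∈ T, m i ≤ d

theorem standard_count {n : ℕ} (A : Fin n → Finset ℕ) {μ D : ℕ} (hD : 4 * μ ≤ D)
    (hAμ : ∀ i, ∀ a ∈ A i, a ≤ μ) :
    (D : ℝ) * ∏ i, ((A i).card : ℝ) ≤ 4 * (Set.ncard {x ∈ box D A | Standard x.1 x.2} : ℝ) := by
  classical
  have hset : {x ∈ box D A | Standard x.1 x.2} =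
      ↑(((Finset.Icc 1 D) ×ˢ Fintype.piFinset A).filter fun x => Standard x.1 x.2) := by
    rw [box_finset]
    ext x
    simp
  rw [hset, Set.ncard_coe_finset]
  have hsub : (Finset.Icc (3 * μ + 1) D) ×ˢ Fintype.piFinset A ⊆
      ((Finset.Icc 1 D) ×ˢ Fintype.piFinset A).filter fun x => Standard x.1 x.2 := by
    intro x hx
    rw [Finset.mem_product, Finset.mem_Icc, Fintype.mem_piFinset] at hx
    rw [Finset.mem_filter, Finset.mem_product, Finset.mem_Icc, Fintype.mem_piFinset]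
    refine ⟨⟨⟨by omega, hx.1.2⟩, hx.2⟩, fun T hT => ?_⟩
    calc ∑ i ∈ T, x.2 i ≤ ∑ _i ∈ T, μ := Finset.sum_le_sum fun i _ => hAμ i _ (hx.2 i)
      _ = T.card * μ := by rw [Finset.sum_const, smul_eq_mul]
      _ ≤ 3 * μ := Nat.mul_le_mul_right _ hT
      _ ≤ x.1 := by omega
  have h1 := Finset.card_le_card hsub
  rw [Finset.card_product, Nat.card_Icc, Fintype.card_piFinset] at h1
  have h2 : D ≤ 4 * (D + 1 - (3 * μ + 1)) := by omega
  have h3 : D * ∏ i, (A i).card ≤
      4 * (((Finset.Icc 1 D) ×ˢ Fintype.piFinset A).filter fun x => Standard x.1 x.2).card := by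
    calc D * ∏ i, (A i).card ≤ (4 * (D + 1 - (3 * μ + 1))) * ∏ i, (A i).card :=
          Nat.mul_le_mul_right _ h2
      _ = 4 * ((D + 1 - (3 * μ + 1)) * ∏ i, (A i).card) := by ring
      _ ≤ _ := Nat.mul_le_mul_left _ h1
  exact_mod_cast h3

end Pool.Agent.R66.BX
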