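import Pool.Agent.W611.FinH
import Pool.Agent.TH885.CO.Segre
import Pool.Agent.TH885.CO.Spread
import Pool.Agent.TH885.CO.Line

set_option autoImplicit false

/-!
# Five arbitrary multiplicities
-/

namespace Pool.Agent.R66.BX.Five

open MvPolynomial Pool.Agent.TH167 Pool.Agent.TH885.CO Pool.Agent.W609.CR

/-- The property holds outside of the zero set of a nonzero polynomial with rational coefficients. -/
def ForGeneral {n : ℕ} (p : (Fin n → Fin 2 → ℂ) → Prop) : Prop :=
  ∃ F : MvPolynomial (Fin n × Fin 2) ℚ, F ≠ 0 ∧ ∀ P : Fin n → Fin 2 → ℂ,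
    aeval (fun ij : Fin n × Fin 2 => P ij.1 ij.2) F ≠ 0 → p P

theorem ForGeneral.mono {n : ℕ} {p q : (Fin n → Fin 2 → ℂ) → Prop} (h : ForGeneral p)
    (hpq : ∀ P, p P → q P) : ForGeneral q := by
  obtain ⟨F, hF, h1⟩ := h
  exact ⟨F, hF, fun P hP => hpq P (h1 P hP)⟩

theorem ForGeneral.and {n : ℕ} {p q : (Fin n → Fin 2 → ℂ) → Prop} (h : ForGeneral p)
    (h' : ForGeneral q) : ForGeneral fun P => p P ∧ q P := by
  obtain ⟨F, hF, h1⟩ := h
  obtain ⟨G, hG, h2⟩ := h'
  refine ⟨F * G, mul_ne_zero hF hG, fun P hP => ?_⟩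
  rw [map_mul] at hP
  exact ⟨h1 P (left_ne_zero_of_mul hP), h2 P (right_ne_zero_of_mul hP)⟩

/-- The statement of Segre's conjecture at the points `P`. -/
def SegreAt {n : ℕ} (d : ℕ) (w : Fin n → ℕ) (P : Fin n → Fin 2 → ℂ) : Prop :=
  SHDefs.Special P d w → ∃ G : MvPolynomial (Fin 3) ℂ, 0 < G.totalDegree ∧
    ∀ f ∈ SHDefs.sys P d w, G ^ 2 ∣ f

theorem inj_gen (n : ℕ) :
    ForGeneral (n := n) fun P : Fin n → Fin 2 → ℂ => Function.Injective P := by
  classical
  refine ⟨∏ p ∈ (Finset.univ : Finset (Fin n)).offDiag, (X (p.1, 0) - X (p.2, 0)),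
    Finset.prod_ne_zero_iff.2 fun p hp => ?_, fun P hP => ?_⟩
  · rw [Finset.mem_offDiag] at hp
    rw [sub_ne_zero]
    intro h
    have := X_injective h
    exact hp.2.2 (congrArg Prod.fst this)
  · intro i j hij
    by_contra hne
    apply hP
    rw [map_prod]
    refine Finset.prod_eq_zero (i := (i, j)) (Finset.mem_offDiag.2
      ⟨Finset.mem_univ _, Finset.mem_univ _, hne⟩) ?_
    rw [map_sub, aeval_X, aeval_X, hij, sub_self]

theorem sq_gen {r d : ℕ} {w : Fin (r + 4) → ℕ} {e : ℕ} {u : Fin (r + 4) → ℕ}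
    (hex : ∃ (K : Type) (_ : Field K) (_ : CharZero K) (P : Fin (r + 4) → Fin 2 → K)
      (C : MvPolynomial (Fin 3) K),
      AlgebraicIndependent ℚ (fun ij : Fin (r + 4) × Fin 2 => P ij.1 ij.2) ∧ Exc P C e u)
    (h : ip d w e u ≤ -2) : ForGeneral (SegreAt d w) := by
  obtain ⟨F, hF, hF'⟩ := exc_spread e u hex
  have h1 : ForGeneral (n := r + 4) fun P : Fin (r + 4) → Fin 2 → ℂ => ∃ C, Exc P C e u :=
    ⟨F, hF, fun P hP => hF' ℂ P hP⟩
  refine (h1.and (inj_gen (r + 4))).mono fun P hP _ => ?_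
  obtain ⟨⟨C, hC⟩, hinj⟩ := hP
  refine ⟨C, ?_, fun f hf => ?_⟩
  · rw [hC.hom.totalDegree hC.irr.ne_zero]
    exact deg_pos hC.irr hC.hom
  · rw [sys_eq] at hf
    exact exc_pow_dvd hinj hC 2 d w h f hf

theorem line_gen {r d : ℕ} {w : Fin (r + 4) → ℕ} {i j : Fin (r + 4)} (hij : i ≠ j)
    (h : d + 2 ≤ w i + w j) : ForGeneral (SegreAt d w) := by
  classical
  obtain ⟨K, i1, i2, P, hP⟩ := exists_generic (r + 4)
  refine sq_gen (e := 1) (u := fun l => if l = i ∨ l = j then 1 else 0)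
    ⟨K, i1, i2, P, _, hP, exc_line hP hij⟩ ?_
  unfold ip
  have h1 : ∑ l, (w l : ℤ) * ((if l = i ∨ l = j then 1 else 0 : ℕ) : ℤ) = w i + w j := by
    have h2 : ∀ l, (w l : ℤ) * ((if l = i ∨ l = j then 1 else 0 : ℕ) : ℤ) =
        (if l = i then (w l : ℤ) else 0) + (if l = j then (w l : ℤ) else 0) := by
      intro l
      by_cases h1 : l = i
      · subst h1
        simp [hij]
      · by_cases h2 : l = j
        · subst h2
          simp [h1]
        · simp [h1, h2]
    rw [Finset.sum_congr rfl fun l _ => h2 l, Finset.sum_add_distrib,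
      Finset.sum_ite_eq' Finset.univ i, Finset.sum_ite_eq' Finset.univ j]
    simp
  rw [h1]
  push_cast
  have : ((d + 2 : ℕ) : ℤ) ≤ ((w i + w j : ℕ) : ℤ) := by exact_mod_cast h
  push_cast at this
  linarith

theorem sq_genN {n d : ℕ} (hn : ∃ q, n = q + 4) {w : Fin n → ℕ} {e : ℕ} {u : Fin n → ℕ}
    (hex : ∃ (K : Type) (_ : Field K) (_ : CharZero K) (P : Fin n → Fin 2 → K)
      (C : MvPolynomial (Fin 3) K),
      AlgebraicIndependent ℚ (fun ij : Fin n × Fin 2 => P ij.1 ij.2) ∧ Exc P C e u)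
    (h : ip d w e u ≤ -2) : ForGeneral (SegreAt d w) := by
  obtain ⟨q, rfl⟩ := hn
  exact sq_gen hex h

theorem line_genN {n d : ℕ} (hn : ∃ q, n = q + 4) {w : Fin n → ℕ} {i j : Fin n} (hij : i ≠ j)
    (h : d + 2 ≤ w i + w j) : ForGeneral (SegreAt d w) := by
  obtain ⟨q, rfl⟩ := hn
  exact line_gen hij h

/-- The class of the conic through the last five points. -/
def con (r : ℕ) : Fin (r + 5) → ℕ := Fin.append (fun _ : Fin r => 0) (fun _ : Fin 5 => 1)

theorem natAdd_ne {r : ℕ} {a b : Fin 5} (h : a ≠ b) : Fin.natAdd r a ≠ Fin.natAdd r b := by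
  intro h1
  apply h
  have := congrArg Fin.val h1
  simp only [Fin.val_natAdd] at this
  exact Fin.ext (by omega)

theorem conic_exc (r : ℕ) : ∃ (K : Type) (_ : Field K) (_ : CharZero K)
      (P : Fin (r + 5) → Fin 2 → K) (C : MvPolynomial (Fin 3) K),
      AlgebraicIndependent ℚ (fun ij : Fin (r + 5) × Fin 2 => P ij.1 ij.2) ∧
        Exc P C 2 (con r) := by
  classical
  obtain ⟨K, i1, i2, P, hP⟩ := exists_generic (r + 5)
  obtain ⟨i, hi⟩ : ∃ i : Fin 3 → Fin (r + 5),
    i = ![Fin.natAdd r (0 : Fin 5), Fin.natAdd r (1 : Fin 5), Fin.natAdd r (2 : Fin 5)] := ⟨_, rfl⟩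
  have e0 : i 0 = Fin.natAdd r (0 : Fin 5) := by rw [hi]; rfl
  have e1 : i 1 = Fin.natAdd r (1 : Fin 5) := by rw [hi]; rfl
  have e2 : i 2 = Fin.natAdd r (2 : Fin 5) := by rw [hi]; rfl
  have hinj : Function.Injective i := by
    rw [hi]
    exact inj_cons (natAdd_ne (by decide)) (natAdd_ne (by decide)) (natAdd_ne (by decide))
  obtain ⟨P', hP', hr⟩ := exists_crel hP hinj
  have h34 : Fin.natAdd r (3 : Fin 5) ≠ Fin.natAdd r (4 : Fin 5) := natAdd_ne (by decide)
  have hC := exc_line hP h34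
  obtain ⟨u, hu⟩ : ∃ u : Fin (r + 5) → ℕ,
    u = fun l => if l = Fin.natAdd r (3 : Fin 5) ∨ l = Fin.natAdd r (4 : Fin 5) then 1 else 0 :=
    ⟨_, rfl⟩
  have hval : ∀ k : Fin 5, u (Fin.natAdd r k) = if k = 3 ∨ k = 4 then 1 else 0 := by
    intro k
    rw [hu]
    have : ∀ a : Fin 5, Fin.natAdd r k = Fin.natAdd r a ↔ k = a := fun a =>
      ⟨fun h => by
        by_contra hne
        exact natAdd_ne hne h, fun h => by rw [h]⟩
    simp only [this]
  have u0 : u (i 0) = 0 := by rw [e0, hval]; decide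
  have u1 : u (i 1) = 0 := by rw [e1, hval]; decide
  have u2 : u (i 2) = 0 := by rw [e2, hval]; decide
  rw [← hu] at hC
  obtain ⟨C', hC'⟩ := hC.cr hr (⟨by omega, by omega, by omega⟩ : PS i 1 u)
  have hcd : cd i 1 u = 2 := by
    unfold cd
    rw [u0, u1, u2]
  have hw : wcr 1 i u = con r := by
    funext l
    unfold wcr con
    refine Fin.addCases (fun j => ?_) (fun k => ?_) l
    · rw [Fin.append_left]
      have hne : ∀ a : Fin 5, Fin.castAdd 5 j ≠ Fin.natAdd r a := by
        intro a h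
        have := congrArg Fin.val h
        simp only [Fin.val_castAdd, Fin.val_natAdd] at this
        have := j.2
        omega
      rw [if_neg (by rw [e0]; exact hne _), if_neg (by rw [e1]; exact hne _),
        if_neg (by rw [e2]; exact hne _), hu]
      simp only
      rw [if_neg]
      push Not
      exact ⟨hne _, hne _⟩
    · rw [Fin.append_right, u0, u1, u2, hval]
      have : ∀ a : Fin 5, Fin.natAdd r k = Fin.natAdd r a ↔ k = a := fun a =>
        ⟨fun h => by
          by_contra hne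
          exact natAdd_ne hne h, fun h => by rw [h]⟩
      rw [e0, e1, e2]
      simp only [this]
      fin_cases k <;> simp
  rw [hcd, hw] at hC'
  exact ⟨K, i1, i2, P', C', hP', hC'⟩

theorem conic_gen {r d : ℕ} {v : Fin r → ℕ} {a : Fin 5 → ℕ} (h : 2 * d + 2 ≤ ∑ i, a i) :
    ForGeneral (SegreAt d (Fin.append v a)) := by
  refine sq_genN ⟨r + 1, by omega⟩ (e := 2) (u := con r) (w := Fin.append v a) (conic_exc r) ?_
  unfold ip
  have h1 : ∑ l, ((Fin.append v a l : ℕ) : ℤ) * ((con r l : ℕ) : ℤ) = ∑ i, (a i : ℤ) := by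
    have h2 := Fin.sum_univ_add (a := r) (b := 5)
      (fun l => ((Fin.append v a l : ℕ) : ℤ) * ((con r l : ℕ) : ℤ))
    rw [h2]
    unfold con
    simp [Fin.append_left, Fin.append_right]
  rw [h1]
  have h4 : ((2 * d + 2 : ℕ) : ℤ) ≤ ((∑ i, a i : ℕ) : ℤ) := by exact_mod_cast h
  push_cast at h4 ⊢
  linarith

theorem nonspecial {r m d : ℕ} (hm : 1 ≤ m) {v : Fin r → ℕ} (hv : ∀ i, v i ≤ m) (a : Fin 5 → ℕ)
    (h2 : ∀ i j, i ≠ j → a i + a j + (2 * m ^ 2 + 3 * m + 2) ≤ d)
    (h5 : ∑ i, a i + (4 * m ^ 2 + 8 * m + 5) ≤ 2 * d) :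
    ForGeneral (SegreAt d (Fin.append v a)) := by
  have hf : Pool.Agent.W611.ff m = 2 * m ^ 2 + 3 * m + 2 := by
    unfold Pool.Agent.W611.ff
    ring
  have hC : Pool.Agent.W611.Cnd m d (Fin.append v a) := by
    refine ⟨?_, ?_, ?_, ?_⟩
    · have := h2 0 1 (by decide)
      rw [hf]
      omega
    · intro i
      refine Fin.addCases (fun j => ?_) (fun k => ?_) i
      · rw [Fin.append_left]
        intro h
        have := hv j
        omega
      · rw [Fin.append_right, hf]
        intro _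
        obtain ⟨l, hl⟩ : ∃ l : Fin 5, k ≠ l := by
          by_cases h0 : k = 0
          · exact ⟨1, by rw [h0]; decide⟩
          · exact ⟨0, h0⟩
        have := h2 k l hl
        omega
    · intro i j
      refine Fin.addCases (fun i' => ?_) (fun i' => ?_) i
      · rw [Fin.append_left]
        intro _ h
        have := hv i'
        omega
      · refine Fin.addCases (fun j' => ?_) (fun j' => ?_) j
        · rw [Fin.append_left]
          intro _ _ h
          have := hv j'
          omega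
        · rw [Fin.append_right, Fin.append_right, hf]
          intro hne _ _
          have h3 : i' ≠ j' := fun h => hne (by rw [h])
          exact h2 i' j' h3
    · right
      have hS : Pool.Agent.W611.Slg m (Fin.append v a) ≤ ∑ i, a i := by
        unfold Pool.Agent.W611.Slg
        rw [Fin.sum_univ_add]
        have h6 : ∑ i : Fin r, (if Fin.append v a (Fin.castAdd 5 i) ≤ m then 0
            else Fin.append v a (Fin.castAdd 5 i)) = 0 := by
          refine Finset.sum_eq_zero fun i _ => ?_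
          rw [Fin.append_left, if_pos (hv i)]
        rw [h6, zero_add]
        refine Finset.sum_le_sum fun i _ => ?_
        rw [Fin.append_right]
        split_ifs <;> omega
      rw [hf]
      omega
  obtain ⟨F, hF, hF'⟩ := Pool.Agent.W611.expH ℂ m (by omega) (Fin.append v a) d hC
  refine ⟨F, hF, fun P hP hs => ?_⟩
  exfalso
  apply hs
  have h1 := hF' P hP d (Or.inl le_rfl)
  unfold Pool.Agent.H932R3.ExpDim at h1
  unfold SHDefs.dimL SHDefs.sys SHDefs.pt SHDefs.virtdim
  rw [h1]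
  have e : ∑ i, ((Fin.append v a i + 1).choose 2 : ℤ) =
      ((∑ i, (Fin.append v a i + 1).choose 2 : ℕ) : ℤ) := by
    push_cast
    rfl
  rw [e]
  omega

/-- Outside of the windows Segre's conjecture holds. -/
theorem segre_of {r m d : ℕ} (hm : 1 ≤ m) {v : Fin r → ℕ} (hv : ∀ i, v i ≤ m) (a : Fin 5 → ℕ)
    (h2 : ∀ i j, i < j → a i + a j + (2 * m ^ 2 + 3 * m + 2) ≤ d ∨ d + 2 ≤ a i + a j)
    (h5 : ∑ i, a i + (4 * m ^ 2 + 8 * m + 5) ≤ 2 * d ∨ 2 * d + 2 ≤ ∑ i, a i) :
    ForGeneral (SegreAt d (Fin.append v a)) := by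
  by_cases hp : ∃ i j : Fin 5, i < j ∧ d + 2 ≤ a i + a j
  · obtain ⟨i, j, hij, h⟩ := hp
    refine line_genN ⟨r + 1, by omega⟩ (w := Fin.append v a) (i := Fin.natAdd r i)
      (j := Fin.natAdd r j) (natAdd_ne hij.ne) ?_
    have e1 : Fin.append v a (Fin.natAdd r i) = a i := Fin.append_right _ _ _
    have e2 : Fin.append v a (Fin.natAdd r j) = a j := Fin.append_right _ _ _
    calc d + 2 ≤ a i + a j := h
      _ = Fin.append v a (Fin.natAdd r i) + Fin.append v a (Fin.natAdd r j) := by rw [e1, e2]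
  · push Not at hp
    rcases h5 with h5 | h5
    · refine nonspecial hm hv a (fun i j hij => ?_) h5
      rcases lt_or_gt_of_ne hij with h | h
      · rcases h2 i j h with h3 | h3
        · exact h3
        · have := hp i j h
          omega
      · rcases h2 j i h with h3 | h3
        · omega
        · have := hp j i h
          omega
    · exact conic_gen h5

/-- Multiplication by a power of the line through two points. -/
theorem mul_line_le {s : ℕ} {P : Fin s → Fin 2 → ℂ} {i j : Fin s} (hP : P i ≠ P j) (k : ℕ)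
    {w : Fin s → ℕ} {d : ℕ} (h1 : k ≤ d) (hwi : k ≤ w i) (hwj : k ≤ w j) :
    Module.finrank ℂ ↥(VS (fun j => aff (P j)) (sb i j k w) (d - k)) ≤
      Module.finrank ℂ ↥(VS (fun j => aff (P j)) w d) := by
  classical
  have hfin := vs_fin (fun j => aff (P j)) w d
  have hL0 : ln (P i) (P j) ^ k ≠ 0 := pow_ne_zero _ (ln_irr hP).ne_zero
  have hinj : Function.Injective (LinearMap.mulLeft ℂ (ln (P i) (P j) ^ k)) := by
    intro a b hab
    rw [LinearMap.mulLeft_apply, LinearMap.mulLeft_apply] at hab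
    exact mul_left_cancel₀ hL0 hab
  have hle : Submodule.map (LinearMap.mulLeft ℂ (ln (P i) (P j) ^ k))
      (VS (fun j => aff (P j)) (sb i j k w) (d - k)) ≤ VS (fun j => aff (P j)) w d := by
    rintro f hf
    obtain ⟨g, hg, rfl⟩ := (Submodule.mem_map).1 hf
    rw [LinearMap.mulLeft_apply]
    rw [mem_VS] at hg ⊢
    constructor
    · have h2 := ((ln_hom (P i) (P j)).pow k).mul hg.1
      rwa [one_mul, Nat.add_sub_cancel' h1] at h2
    · intro l
      have h3 := hg.2 l
      unfold sb at h3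
      by_cases h : l = i ∨ l = j
      · rw [if_pos h] at h3
        have h4 : Van (aff (P l)) (k * 1) (ln (P i) (P j) ^ k) := by
          apply van_pow
          rcases h with h | h
          · rw [h]; exact ln_left _ _
          · rw [h]; exact ln_right _ _
        have h5 := van_mul h4 h3
        rwa [mul_one, Nat.add_sub_cancel' (by
          rcases h with h | h
          · rw [h]; exact hwi
          · rw [h]; exact hwj)] at h5
      · rw [if_neg h] at h3
        have h5 := van_mul (van_zero (aff (P l)) (ln (P i) (P j) ^ k)) h3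
        rwa [zero_add] at h5
  have h2 := Submodule.finrank_mono hle
  rwa [(LinearEquiv.finrank_eq (Submodule.equivMapOfInjective _ hinj _)).symm] at h2

/-- Special classes. -/
theorem special_gen {r : ℕ} {v : Fin r → ℕ} {x y k : ℕ} {a : Fin 5 → ℕ} (hk : 2 ≤ k)
    (ha0 : a 0 = y + k) (ha1 : a 1 = x + k)
    (h : (a 2 + 1).choose 2 + (a 3 + 1).choose 2 + (a 4 + 1).choose 2 +
      ∑ i, (v i + 1).choose 2 < (x + 1) * (y + 1)) :
    ForGeneral fun P => SHDefs.Special P (x + y + k) (Fin.append v a) := by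
  classical
  refine (inj_gen (r + 5)).mono fun P hP => ?_
  obtain ⟨i, hi⟩ : ∃ i : Fin (r + 5), i = Fin.natAdd r (0 : Fin 5) := ⟨_, rfl⟩
  obtain ⟨j, hj⟩ : ∃ j : Fin (r + 5), j = Fin.natAdd r (1 : Fin 5) := ⟨_, rfl⟩
  have hij : i ≠ j := by
    rw [hi, hj]
    exact natAdd_ne (by decide)
  have hwi : Fin.append v a i = y + k := by rw [hi, Fin.append_right, ha0]
  have hwj : Fin.append v a j = x + k := by rw [hj, Fin.append_right, ha1]
  have h1 := mul_line_le (P := P) (i := i) (j := j) (fun h => hij (hP h)) k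
    (w := Fin.append v a) (d := x + y + k) (by omega) (by omega) (by omega)
  have h2 := chi_le_dim P (x + y + k - k) (sb i j k (Fin.append v a))
  rw [Nat.add_sub_cancel] at h1 h2
  have c2 : ∀ n : ℕ, 2 * (((n + 1).choose 2 : ℕ) : ℤ) = (n : ℤ) * (n + 1) := by
    intro n
    have := two_choose1 n
    have h3 : ((2 * (n + 1).choose 2 : ℕ) : ℤ) = ((n * (n + 1) : ℕ) : ℤ) := by rw [this]
    push_cast at h3
    exact h3
  have hsb0 : sb i j k (Fin.append v a) (Fin.natAdd r (0 : Fin 5)) = y := by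
    unfold sb
    rw [if_pos (Or.inl hi.symm), Fin.append_right, ha0]
    omega
  have hsb1 : sb i j k (Fin.append v a) (Fin.natAdd r (1 : Fin 5)) = x := by
    unfold sb
    rw [if_pos (Or.inr hj.symm), Fin.append_right, ha1]
    omega
  have hsbn : ∀ l : Fin 5, l ≠ 0 → l ≠ 1 →
      sb i j k (Fin.append v a) (Fin.natAdd r l) = a l := by
    intro l h3 h4
    unfold sb
    rw [if_neg, Fin.append_right]
    rw [hi, hj]
    push Not
    exact ⟨natAdd_ne h3, natAdd_ne h4⟩
  have hsbl : ∀ l : Fin r, sb i j k (Fin.append v a) (Fin.castAdd 5 l) = v l := by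
    intro l
    unfold sb
    rw [if_neg, Fin.append_left]
    rw [hi, hj]
    have hne : ∀ a : Fin 5, Fin.castAdd 5 l ≠ Fin.natAdd r a := by
      intro a h
      have := congrArg Fin.val h
      simp only [Fin.val_castAdd, Fin.val_natAdd] at this
      have := l.2
      omega
    push Not
    exact ⟨hne _, hne _⟩
  have s1 : ∑ l, ((sb i j k (Fin.append v a) l + 1).choose 2 : ℤ) =
      ∑ l, ((v l + 1).choose 2 : ℤ) + (((y + 1).choose 2 : ℤ) + ((x + 1).choose 2 : ℤ) +
        ((a 2 + 1).choose 2 : ℤ) + ((a 3 + 1).choose 2 : ℤ) + ((a 4 + 1).choose 2 : ℤ)) := by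
    rw [Fin.sum_univ_add (a := r) (b := 5)
      (fun l => ((sb i j k (Fin.append v a) l + 1).choose 2 : ℤ))]
    rw [Fin.sum_univ_five, hsb0, hsb1, hsbn 2 (by decide) (by decide),
      hsbn 3 (by decide) (by decide), hsbn 4 (by decide) (by decide)]
    congr 1
    exact Finset.sum_congr rfl fun l _ => by rw [hsbl]
  have s2 : ∑ l, ((Fin.append v a l + 1).choose 2 : ℤ) =
      ∑ l, ((v l + 1).choose 2 : ℤ) + (((y + k + 1).choose 2 : ℤ) + ((x + k + 1).choose 2 : ℤ) +
        ((a 2 + 1).choose 2 : ℤ) + ((a 3 + 1).choose 2 : ℤ) + ((a 4 + 1).choose 2 : ℤ)) := by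
    rw [Fin.sum_univ_add (a := r) (b := 5) (fun l => ((Fin.append v a l + 1).choose 2 : ℤ))]
    rw [Fin.sum_univ_five, Fin.append_right, Fin.append_right, Fin.append_right,
      Fin.append_right, Fin.append_right, ha0, ha1]
    congr 1
    exact Finset.sum_congr rfl fun l _ => by rw [Fin.append_left]
  have hZ : ((a 2 + 1).choose 2 : ℤ) + ((a 3 + 1).choose 2 : ℤ) + ((a 4 + 1).choose 2 : ℤ) +
      ∑ l, ((v l + 1).choose 2 : ℤ) < ((x : ℤ) + 1) * (y + 1) := by
    exact_mod_cast h
  have t1 := c2 (x + y + 1)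
  have t2 := c2 x
  have t3 := c2 y
  have t4 := c2 (x + k)
  have t5 := c2 (y + k)
  have t6 := c2 (x + y + k + 1)
  push_cast at t1 t2 t3 t4 t5 t6
  have hk2 : (2 : ℤ) ≤ k := by exact_mod_cast hk
  have hchi1 : chi (x + y) (sb i j k (Fin.append v a)) =
      ((x : ℤ) + 1) * (y + 1) - (((a 2 + 1).choose 2 : ℤ) + ((a 3 + 1).choose 2 : ℤ) +
        ((a 4 + 1).choose 2 : ℤ) + ∑ l, ((v l + 1).choose 2 : ℤ)) := by
    unfold chi
    rw [s1]
    have e : x + y + 2 = x + y + 1 + 1 := rfl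
    rw [e]
    linarith [t1, t2, t3, (by ring : ((x : ℤ) + y + 1) * (x + y + 1 + 1) =
      2 * ((x + 1) * (y + 1)) + x * (x + 1) + y * (y + 1))]
  have hchi2 : 2 * chi (x + y + k) (Fin.append v a) + (k : ℤ) * (k - 1) =
      2 * chi (x + y) (sb i j k (Fin.append v a)) := by
    unfold chi
    rw [s1, s2]
    have e : x + y + 2 = x + y + 1 + 1 := rfl
    have e' : x + y + k + 2 = x + y + k + 1 + 1 := rfl
    rw [e, e']
    linarith [t1, t2, t3, t4, t5, t6, (by ring :
      ((x : ℤ) + y + k + 1) * (x + y + k + 1 + 1) - (y + k) * (y + k + 1) - (x + k) * (x + k + 1) +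
        k * (k - 1) = (x + y + 1) * (x + y + 1 + 1) - y * (y + 1) - x * (x + 1))]
  have hfr : ((Module.finrank ℂ ↥(VS (fun j => aff (P j)) (sb i j k (Fin.append v a))
      (x + y)) : ℕ) : ℤ) ≤
      ((Module.finrank ℂ ↥(VS (fun j => aff (P j)) (Fin.append v a) (x + y + k)) : ℕ) : ℤ) := by
    exact_mod_cast h1
  intro hcon
  unfold SHDefs.dimL at hcon
  rw [sys_eq] at hcon
  have hv1 : SHDefs.virtdim (x + y + k) (Fin.append v a) = chi (x + y + k) (Fin.append v a) - 1 := by
    unfold SHDefs.virtdim chi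
    ring
  rw [hv1] at hcon
  have hkk : (2 : ℤ) ≤ (k : ℤ) * (k - 1) := by nlinarith
  rcases le_total (chi (x + y + k) (Fin.append v a) - 1) (-1) with h3 | h3
  · rw [max_eq_right h3] at hcon
    linarith
  · rw [max_eq_left h3] at hcon
    linarith

end Pool.Agent.R66.BX.Five
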