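import Pool.Agent.R66.BX.HHCount
import Pool.Agent.R66.BX.Five

set_option autoImplicit false

/-!
# The degrees in which the conjectures can fail, for given multiplicities
-/

namespace Pool.Agent.R66.BX.Deg

open MvPolynomial Pool.Agent.TH167 Pool.Agent.TH167.SH Pool.Agent.W609.CR

/-- A polynomial which is not zero takes a nonzero value. -/
theorem exists_eval {σ : Type} [Finite σ] (F : MvPolynomial σ ℂ) (hF : F ≠ 0) :
    ∃ x : σ → ℂ, MvPolynomial.eval x F ≠ 0 := by
  by_contra hcon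
  push Not at hcon
  apply hF
  apply MvPolynomial.funext
  intro x
  rw [hcon x, map_zero]

/-- The dimension grows. -/
theorem growth {n : ℕ} (P : Fin n → Fin 2 → ℂ) {w : Fin n → ℕ} {d : ℕ} (j : ℕ)
    (h : 0 < Module.finrank ℂ ↥(VS (fun j => aff (P j)) w d)) :
    (j + 2).choose 2 ≤ Module.finrank ℂ ↥(VS (fun j => aff (P j)) w (d + j)) := by
  classical
  have hfin := vs_fin (fun j => aff (P j)) w (d + j)
  obtain ⟨f, hf, hf0⟩ : ∃ f ∈ VS (fun j => aff (P j)) w d, f ≠ 0 := by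
    by_contra hcon
    push Not at hcon
    have h1 : VS (fun j => aff (P j)) w d = ⊥ := by
      rw [eq_bot_iff]
      intro f hf
      exact hcon f hf
    rw [h1, finrank_bot] at h
    omega
  have hinj : Function.Injective (LinearMap.mulLeft ℂ f) := by
    intro a b hab
    rw [LinearMap.mulLeft_apply, LinearMap.mulLeft_apply] at hab
    exact mul_left_cancel₀ hf0 hab
  have hle : Submodule.map (LinearMap.mulLeft ℂ f)
      (VS (fun j => aff (P j)) (fun _ => 0) j) ≤ VS (fun j => aff (P j)) w (d + j) := by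
    rintro g' hg'
    obtain ⟨g, hg, rfl⟩ := (Submodule.mem_map).1 hg'
    rw [LinearMap.mulLeft_apply]
    rw [mem_VS] at hg hf ⊢
    refine ⟨hf.1.mul hg.1, fun l => ?_⟩
    have h5 := van_mul (hf.2 l) (hg.2 l)
    rwa [add_zero] at h5
  have h2 := Submodule.finrank_mono hle
  rw [← (LinearEquiv.finrank_eq (Submodule.equivMapOfInjective _ hinj _))] at h2
  have h3 := chi_le_dim P j (fun _ : Fin n => 0)
  have h4 : chi j (fun _ : Fin n => 0) = ((j + 2).choose 2 : ℤ) := by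
    unfold chi
    simp
  rw [h4] at h3
  have h5 : (j + 2).choose 2 ≤ Module.finrank ℂ ↥(VS (fun j => aff (P j)) (fun _ => 0) j) := by
    exact_mod_cast h3
  exact h5.trans h2

/-- The statement of the Harbourne-Hirschowitz conjecture at general points. -/
def HH {n : ℕ} (d : ℕ) (w : Fin n → ℕ) : Prop :=
  FinExc.ForGeneral fun P : Fin n → Fin 2 → ℂ =>
    SHDefs.Special P d w ↔ SHDefs.MinusOneSpecial P d w

theorem special_pos {n d : ℕ} {w : Fin n → ℕ} {P : Fin n → Fin 2 → ℂ}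
    (h : SHDefs.Special P d w) : 0 < Module.finrank ℂ ↥(VS (fun j => aff (P j)) w d) := by
  by_contra hcon
  have h0 : Module.finrank ℂ ↥(VS (fun j => aff (P j)) w d) = 0 := by omega
  apply h
  have h1 := chi_le_dim P d w
  rw [dimL_eq, virtdim_eq, h0]
  rw [h0] at h1
  have h2 : chi d w - 1 ≤ -1 := by
    push_cast at h1
    linarith
  rw [max_eq_right h2]
  simp

/-- In a degree in which the conjecture fails the generic dimension is positive and small. -/
theorem fail_dim {n m : ℕ} (hn : 4 ≤ n) (hm : 0 < m) {w : Fin n → ℕ} {d : ℕ}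
    (hw : (Finset.univ.filter fun i => m < w i).card ≤ 5) (h : ¬ HH d w) :
    ∃ F : MvPolynomial (Fin n × Fin 2) ℂ, F ≠ 0 ∧ ∀ P : Fin n → Fin 2 → ℂ,
      MvPolynomial.eval (fun ij : Fin n × Fin 2 => P ij.1 ij.2) F ≠ 0 →
        0 < Module.finrank ℂ ↥(VS (fun j => aff (P j)) w d) ∧
        Module.finrank ℂ ↥(VS (fun j => aff (P j)) w d) < SHDefs.bd m := by
  obtain ⟨g, F0, hF0, hg⟩ := dim_gen w d
  obtain ⟨F1, hF1, h1⟩ := HHCount.hh_gen hn hm d w (Or.inl hw)
  have hF0' : MvPolynomial.map (algebraMap ℚ ℂ) F0 ≠ 0 := by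
    intro h0
    apply hF0
    apply MvPolynomial.map_injective _ (algebraMap ℚ ℂ).injective
    rw [h0, map_zero]
  have hg' : ∀ P : Fin n → Fin 2 → ℂ,
      MvPolynomial.eval (fun ij : Fin n × Fin 2 => P ij.1 ij.2)
        (MvPolynomial.map (algebraMap ℚ ℂ) F0) ≠ 0 →
      Module.finrank ℂ ↥(VS (fun j => aff (P j)) w d) = g := by
    intro P hP
    rw [MvPolynomial.eval_map] at hP
    exact hg ℂ P hP
  -- a point at which the statement fails
  obtain ⟨P, hP0, hP1, hP⟩ : ∃ P : Fin n → Fin 2 → ℂ,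
      MvPolynomial.eval (fun ij : Fin n × Fin 2 => P ij.1 ij.2)
        (MvPolynomial.map (algebraMap ℚ ℂ) F0) ≠ 0 ∧
      MvPolynomial.eval (fun ij : Fin n × Fin 2 => P ij.1 ij.2) F1 ≠ 0 ∧
      ¬ (SHDefs.Special P d w ↔ SHDefs.MinusOneSpecial P d w) := by
    by_contra hcon
    push Not at hcon
    apply h
    refine ⟨MvPolynomial.map (algebraMap ℚ ℂ) F0 * F1, mul_ne_zero hF0' hF1, fun P hP => ?_⟩
    rw [map_mul] at hP
    exact hcon P (left_ne_zero_of_mul hP) (right_ne_zero_of_mul hP)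
  obtain ⟨h2, h3⟩ := h1 P hP1
  have hs : SHDefs.Special P d w := by
    by_contra hns
    exact hP ⟨fun h => absurd h hns, h2⟩
  have hnm : ¬ SHDefs.MinusOneSpecial P d w := fun h => hP ⟨fun _ => h, h2⟩
  have hE := (h3 hs).resolve_left hnm
  obtain ⟨d', w', k, G, e, u, N, d1, w1, hD, -, -, -, hdim, -⟩ := hE
  have hpos := special_pos hs
  rw [dimL_eq] at hdim
  have hlt : Module.finrank ℂ ↥(VS (fun j => aff (P j)) w d) < SHDefs.bd m := by omega
  rw [hg' P hP0] at hpos hlt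
  refine ⟨_, hF0', fun P' hP' => ?_⟩
  rw [hg' P' hP']
  exact ⟨hpos, hlt⟩

/-- The distance of two degrees in which the conjecture fails. -/
theorem fail_dist {n m : ℕ} (hn : 4 ≤ n) (hm : 0 < m) {w : Fin n → ℕ} {d d' : ℕ}
    (hw : (Finset.univ.filter fun i => m < w i).card ≤ 5) (h : ¬ HH d w) (h' : ¬ HH d' w)
    (hdd : d ≤ d') : d' + 1 < d + 512 * (4 * m ^ 2 + 8 * m + 5) ^ 2 := by
  obtain ⟨F, hF, h1⟩ := fail_dim hn hm hw h
  obtain ⟨F', hF', h1'⟩ := fail_dim hn hm hw h'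
  obtain ⟨x, hx⟩ := exists_eval (F * F') (mul_ne_zero hF hF')
  rw [map_mul] at hx
  obtain ⟨h2, -⟩ := h1 (fun i j => x (i, j)) (left_ne_zero_of_mul hx)
  obtain ⟨-, h3⟩ := h1' (fun i j => x (i, j)) (right_ne_zero_of_mul hx)
  have h4 := growth (fun i j => x (i, j)) (d' - d) h2
  rw [Nat.add_sub_cancel' hdd] at h4
  have h5 : (d' - d + 2).choose 2 < SHDefs.bd m := lt_of_le_of_lt h4 h3
  have h6 : 2 * (d' - d + 1 + 1).choose 2 = (d' - d + 1) * (d' - d + 1 + 1) :=
    Pool.Agent.TH885.CO.two_choose1 (d' - d + 1)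
  have h7 : (d' - d + 1) * (d' - d + 1 + 1) < 2 * SHDefs.bd m := by
    rw [← h6]
    have : (d' - d + 1 + 1).choose 2 = (d' - d + 2).choose 2 := rfl
    omega
  have h8 : 2 * SHDefs.bd m = (512 * (4 * m ^ 2 + 8 * m + 5) ^ 2) ^ 2 := by
    unfold SHDefs.bd
    ring
  have h9 : (d' - d + 1) ^ 2 < (512 * (4 * m ^ 2 + 8 * m + 5) ^ 2) ^ 2 := by
    rw [← h8]
    nlinarith
  have h10 := lt_of_pow_lt_pow_left₀ 2 (Nat.zero_le _) h9
  omega

/-- The degrees in which the conjecture fails lie in a short interval. -/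
theorem interval {n m : ℕ} (hn : 4 ≤ n) (hm : 0 < m) {w : Fin n → ℕ}
    (hw : (Finset.univ.filter fun i => m < w i).card ≤ 5) :
    ∃ α : ℕ, ∀ d, ¬ HH d w → α ≤ d ∧ d < α + 512 * (4 * m ^ 2 + 8 * m + 5) ^ 2 := by
  classical
  by_cases hS : ∃ d, ¬ HH d w
  · refine ⟨Nat.find hS, fun d hd => ⟨Nat.find_min' hS hd, ?_⟩⟩
    have := fail_dist hn hm hw (Nat.find_spec hS) hd (Nat.find_min' hS hd)
    omega
  · push Not at hS
    exact ⟨0, fun d hd => absurd (hS d) hd⟩

/-- From finite subsets to the whole set. -/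
theorem of_finsets (p : ℕ → Prop) (N : ℕ) (h : ∀ S : Finset ℕ, (∀ d ∈ S, p d) → S.card ≤ N) :
    {d | p d}.Finite ∧ {d | p d}.ncard ≤ N := by
  classical
  have hfin : {d | p d}.Finite := by
    by_contra hcon
    obtain ⟨S, hS, hc⟩ := Set.Infinite.exists_subset_card_eq hcon (N + 1)
    have := h S fun d hd => hS hd
    omega
  refine ⟨hfin, ?_⟩
  rw [Set.ncard_eq_toFinset_card _ hfin]
  exact h _ fun d hd => by simpa using hd

end Pool.Agent.R66.BX.Deg
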