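import Mathlib

set_option autoImplicit false

/-!
# Degrees close to a critical degree, and the lower tail of a sum of squares over a product set
-/

namespace Pool.Agent.R66.BX

open Finset

theorem choose_two (d : ℕ) : 2 * ((d + 2).choose 2 : ℤ) = ((d : ℤ) + 1) * (d + 2) := by
  have h : (d + 2) * (d + 1) = 2 * (d + 2).choose 2 := by
    have := Nat.choose_two_right (d + 2)
    have h2 : 2 ∣ (d + 2) * (d + 2 - 1) := by
      have : (d + 2) * (d + 2 - 1) = (d + 1) * (d + 1 + 1) := by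
        rw [show d + 2 - 1 = d + 1 by omega]; ring
      rw [this]
      exact (Nat.even_mul_succ_self (d + 1)).two_dvd
    rw [this, Nat.mul_div_cancel' h2]
    rfl
  have h' : ((d : ℤ) + 2) * (d + 1) = 2 * ((d + 2).choose 2 : ℤ) := by exact_mod_cast h
  linarith

/-- A set of degrees `d ≤ D` with `|(d + 2).choose 2 - A| < 25000 μ ^ 2` is small compared to the
number of conditions. -/
theorem bad_count {D μ Q A : ℕ} (S : Finset ℕ) (hμ : 1 ≤ μ)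
    (hS : ∀ d ∈ S, 1 ≤ d ∧ d ≤ D) (hA : Q ≤ 2 * A)
    (h1 : ∀ d ∈ S, |((d + 2).choose 2 : ℤ) - (A : ℤ)| < 25000 * (μ : ℤ) ^ 2)
    (h2 : S.Nonempty → Q ≤ 100000 * μ ^ 3) :
    S.card * Q ≤ 301100 * μ ^ 2 * D := by
  rcases S.eq_empty_or_nonempty with rfl | hne
  · simp
  have hcD : S.card ≤ D := by
    have : S ⊆ Finset.Icc 1 D := fun d hd => Finset.mem_Icc.2 (hS d hd)
    simpa using Finset.card_le_card this
  rcases Nat.lt_or_ge (100000 * μ ^ 2) Q with hQ | hQ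
  swap
  · calc S.card * Q ≤ D * (100000 * μ ^ 2) := Nat.mul_le_mul hcD hQ
      _ ≤ 301100 * μ ^ 2 * D := by
        have : D * (100000 * μ ^ 2) = 100000 * (μ ^ 2 * D) := by ring
        have h' : 301100 * μ ^ 2 * D = 301100 * (μ ^ 2 * D) := by ring
        rw [this, h']
        exact Nat.mul_le_mul_right _ (by norm_num)
  obtain ⟨d1, hd1⟩ : ∃ d1, d1 = S.min' hne := ⟨_, rfl⟩
  obtain ⟨d2, hd2⟩ : ∃ d2, d2 = S.max' hne := ⟨_, rfl⟩
  have m1 : d1 ∈ S := hd1 ▸ S.min'_mem hne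
  have m2 : d2 ∈ S := hd2 ▸ S.max'_mem hne
  have h12 : d1 ≤ d2 := by rw [hd1]; exact S.min'_le _ m2
  have hcard : S.card ≤ d2 - d1 + 1 := by
    have : S ⊆ Finset.Icc d1 d2 := fun d hd => Finset.mem_Icc.2
      ⟨by rw [hd1]; exact S.min'_le _ hd, by rw [hd2]; exact S.le_max' _ hd⟩
    have h3 := Finset.card_le_card this
    rw [Nat.card_Icc] at h3
    omega
  have hD := (hS d1 m1).2
  have hd11 := (hS d1 m1).1
  have b1 := h1 d1 m1
  have b2 := h1 d2 m2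
  rw [abs_lt] at b1 b2
  have c1 := choose_two d1
  have c2 := choose_two d2
  have hAz : (Q : ℤ) ≤ 2 * (A : ℤ) := by exact_mod_cast hA
  have hQz : 100000 * (μ : ℤ) ^ 2 < (Q : ℤ) := by exact_mod_cast hQ
  -- Q ≤ 2 (d1 + 1) (d1 + 2)
  have e1 : (Q : ℤ) ≤ 2 * (((d1 : ℤ) + 1) * (d1 + 2)) := by nlinarith [b1.1]
  have e2 : ((d2 : ℤ) - d1) * (d1 + d2 + 3) < 100000 * (μ : ℤ) ^ 2 := by
    have : ((d2 : ℤ) - d1) * (d1 + d2 + 3) = ((d2 : ℤ) + 1) * (d2 + 2) - ((d1 : ℤ) + 1) * (d1 + 2) := by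
      ring
    rw [this, ← c1, ← c2]
    linarith [b1.1, b2.2]
  have hz12 : (0 : ℤ) ≤ (d2 : ℤ) - d1 := by
    have : (d1 : ℤ) ≤ d2 := by exact_mod_cast h12
    linarith
  have e3 : ((d2 : ℤ) - d1) * (2 * ((d1 : ℤ) + 1)) ≤ 100000 * (μ : ℤ) ^ 2 := by
    have : ((d2 : ℤ) - d1) * (2 * ((d1 : ℤ) + 1)) ≤ ((d2 : ℤ) - d1) * (d1 + d2 + 3) := by
      apply mul_le_mul_of_nonneg_left _ hz12
      linarith
    linarith
  have hDz : (d1 : ℤ) ≤ D := by exact_mod_cast hD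
  have hd1z : (1 : ℤ) ≤ d1 := by exact_mod_cast hd11
  have hμz : (1 : ℤ) ≤ μ := by exact_mod_cast hμ
  have e4 : ((d2 : ℤ) - d1) * Q ≤ 300000 * (μ : ℤ) ^ 2 * D := by
    calc ((d2 : ℤ) - d1) * Q ≤ ((d2 : ℤ) - d1) * (2 * (((d1 : ℤ) + 1) * (d1 + 2))) :=
          mul_le_mul_of_nonneg_left e1 hz12
      _ = (((d2 : ℤ) - d1) * (2 * ((d1 : ℤ) + 1))) * (d1 + 2) := by ring
      _ ≤ (100000 * (μ : ℤ) ^ 2) * (d1 + 2) := mul_le_mul_of_nonneg_right e3 (by linarith)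
      _ ≤ (100000 * (μ : ℤ) ^ 2) * (3 * D) :=
          mul_le_mul_of_nonneg_left (by linarith) (by positivity)
      _ = 300000 * (μ : ℤ) ^ 2 * D := by ring
  have e5 : (Q : ℤ) ≤ 1100 * (μ : ℤ) ^ 2 * D := by
    have q1 : (Q : ℤ) ≤ 12 * (D : ℤ) ^ 2 := by nlinarith
    have q2 : (Q : ℤ) ≤ 100000 * (μ : ℤ) ^ 4 := by
      have h3 : (Q : ℤ) ≤ 100000 * (μ : ℤ) ^ 3 := by exact_mod_cast h2 hne
      have h4 : (μ : ℤ) ^ 3 ≤ (μ : ℤ) ^ 4 := pow_le_pow_right₀ hμz (by norm_num)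
      linarith
    have hQ0 : (0 : ℤ) ≤ Q := by positivity
    have q3 : (Q : ℤ) ^ 2 ≤ (1100 * (μ : ℤ) ^ 2 * D) ^ 2 := by
      calc (Q : ℤ) ^ 2 = Q * Q := by ring
        _ ≤ (12 * (D : ℤ) ^ 2) * (100000 * (μ : ℤ) ^ 4) :=
          mul_le_mul q1 q2 hQ0 (by positivity)
        _ ≤ (1100 * (μ : ℤ) ^ 2 * D) ^ 2 := by
          have : (0 : ℤ) ≤ (μ : ℤ) ^ 4 * (D : ℤ) ^ 2 := by positivity
          nlinarith
    exact abs_le_of_sq_le_sq' q3 (by positivity) |>.2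
  have hfin : ((S.card * Q : ℕ) : ℤ) ≤ ((301100 * μ ^ 2 * D : ℕ) : ℤ) := by
    push_cast
    have hc : (S.card : ℤ) ≤ (d2 : ℤ) - d1 + 1 := by
      have : ((d2 - d1 + 1 : ℕ) : ℤ) = (d2 : ℤ) - d1 + 1 := by
        push_cast [Nat.cast_sub h12]
        ring
      rw [← this]
      exact_mod_cast hcard
    calc (S.card : ℤ) * Q ≤ ((d2 : ℤ) - d1 + 1) * Q :=
          mul_le_mul_of_nonneg_right hc (by positivity)
      _ = ((d2 : ℤ) - d1) * Q + Q := by ring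
      _ ≤ 300000 * (μ : ℤ) ^ 2 * D + 1100 * (μ : ℤ) ^ 2 * D := add_le_add e4 e5
      _ = 301100 * (μ : ℤ) ^ 2 * D := by ring
  exact_mod_cast hfin

/-- The mean value of `a ^ 2` over the product set, summed over the coordinates. -/
noncomputable def mean2 {n : ℕ} (A : Fin n → Finset ℕ) : ℝ :=
  ∑ i, (∑ a ∈ A i, (a : ℝ) ^ 2) / ((A i).card : ℝ)

theorem mean2_nonneg {n : ℕ} (A : Fin n → Finset ℕ) : 0 ≤ mean2 A := by
  unfold mean2
  positivity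

theorem exp_neg_le {x : ℝ} (h0 : 0 ≤ x) (h1 : x ≤ 1 / 8) : Real.exp (-x) ≤ 1 - 7 / 8 * x := by
  have h2 : x + 1 ≤ Real.exp x := Real.add_one_le_exp x
  rw [Real.exp_neg]
  rw [inv_le_comm₀ (Real.exp_pos x) (by linarith)]
  refine le_trans ?_ h2
  rw [inv_le_iff_one_le_mul₀ (by linarith)]
  nlinarith

/-- The lower tail of the sum of the squares. -/
theorem tail {n : ℕ} (A : Fin n → Finset ℕ) (hA : ∀ i, (A i).Nonempty) {μ : ℕ} (hμ : 1 ≤ μ)
    (hAμ : ∀ i, ∀ a ∈ A i, a ≤ μ) :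
    (((Fintype.piFinset A).filter (fun m => ∑ i, (m i : ℝ) ^ 2 ≤ mean2 A / 2)).card : ℝ) * mean2 A ≤
      22 * (μ : ℝ) ^ 2 * ∏ i, ((A i).card : ℝ) := by
  classical
  have hμR : (1 : ℝ) ≤ μ := by exact_mod_cast hμ
  obtain ⟨l, hl⟩ : ∃ l : ℝ, l = 1 / (8 * (μ : ℝ) ^ 2) := ⟨_, rfl⟩
  have hl0 : 0 < l := by rw [hl]; positivity
  have hcard : ∀ i, (0 : ℝ) < ((A i).card : ℝ) := fun i => by
    exact_mod_cast (hA i).card_pos
  have hsum : ∑ m ∈ Fintype.piFinset A, Real.exp (-(l * ∑ i, (m i : ℝ) ^ 2)) =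
      ∏ i, ∑ a ∈ A i, Real.exp (-(l * (a : ℝ) ^ 2)) := by
    rw [Finset.prod_univ_sum]
    refine Finset.sum_congr rfl fun m _ => ?_
    rw [← Real.exp_sum, Finset.mul_sum, ← Finset.sum_neg_distrib]
  have hfac : ∀ i, ∑ a ∈ A i, Real.exp (-(l * (a : ℝ) ^ 2)) ≤
      ((A i).card : ℝ) * Real.exp (-(7 / 8 * l * ((∑ a ∈ A i, (a : ℝ) ^ 2) / ((A i).card : ℝ)))) := by
    intro i
    have h1 : ∑ a ∈ A i, Real.exp (-(l * (a : ℝ) ^ 2)) ≤
        ∑ a ∈ A i, (1 - 7 / 8 * (l * (a : ℝ) ^ 2)) := by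
      refine Finset.sum_le_sum fun a ha => exp_neg_le (by positivity) ?_
      have h2 : (a : ℝ) ≤ μ := by exact_mod_cast hAμ i a ha
      have h3 : (a : ℝ) ^ 2 ≤ (μ : ℝ) ^ 2 := by gcongr
      rw [hl]
      rw [div_mul_eq_mul_div, one_mul, div_le_div_iff₀ (by positivity) (by norm_num)]
      linarith
    refine h1.trans ?_
    rw [Finset.sum_sub_distrib, ← Finset.mul_sum, ← Finset.mul_sum, Finset.sum_const, nsmul_eq_mul,
      mul_one]
    have h4 : ((A i).card : ℝ) - 7 / 8 * (l * ∑ a ∈ A i, (a : ℝ) ^ 2) =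
        ((A i).card : ℝ) * (-(7 / 8 * l * ((∑ a ∈ A i, (a : ℝ) ^ 2) / ((A i).card : ℝ))) + 1) := by
      have := (hcard i).ne'
      field_simp
      ring
    rw [h4]
    exact mul_le_mul_of_nonneg_left (Real.add_one_le_exp _) (hcard i).le
  have hprod : ∏ i, ∑ a ∈ A i, Real.exp (-(l * (a : ℝ) ^ 2)) ≤
      (∏ i, ((A i).card : ℝ)) * Real.exp (-(7 / 8 * l * mean2 A)) := by
    calc ∏ i, ∑ a ∈ A i, Real.exp (-(l * (a : ℝ) ^ 2))
        ≤ ∏ i, (((A i).card : ℝ) *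
            Real.exp (-(7 / 8 * l * ((∑ a ∈ A i, (a : ℝ) ^ 2) / ((A i).card : ℝ))))) :=
          Finset.prod_le_prod (fun i _ => Finset.sum_nonneg fun a _ => (Real.exp_pos _).le)
            fun i _ => hfac i
      _ = (∏ i, ((A i).card : ℝ)) * Real.exp (-(7 / 8 * l * mean2 A)) := by
          rw [Finset.prod_mul_distrib, ← Real.exp_sum]
          unfold mean2
          rw [Finset.mul_sum, ← Finset.sum_neg_distrib]
  set F := (Fintype.piFinset A).filter (fun m => ∑ i, (m i : ℝ) ^ 2 ≤ mean2 A / 2) with hF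
  have hlow : (F.card : ℝ) * Real.exp (-(l * (mean2 A / 2))) ≤
      (∏ i, ((A i).card : ℝ)) * Real.exp (-(7 / 8 * l * mean2 A)) := by
    calc (F.card : ℝ) * Real.exp (-(l * (mean2 A / 2)))
        = ∑ _m ∈ F, Real.exp (-(l * (mean2 A / 2))) := by rw [Finset.sum_const, nsmul_eq_mul]
      _ ≤ ∑ m ∈ F, Real.exp (-(l * ∑ i, (m i : ℝ) ^ 2)) := by
          refine Finset.sum_le_sum fun m hm => Real.exp_le_exp.2 ?_
          have := (Finset.mem_filter.1 hm).2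
          have := mul_le_mul_of_nonneg_left this hl0.le
          linarith
      _ ≤ ∑ m ∈ Fintype.piFinset A, Real.exp (-(l * ∑ i, (m i : ℝ) ^ 2)) :=
          Finset.sum_le_sum_of_subset_of_nonneg (Finset.filter_subset _ _)
            fun m _ _ => (Real.exp_pos _).le
      _ ≤ _ := by rw [hsum]; exact hprod
  have hF1 : (F.card : ℝ) ≤ (∏ i, ((A i).card : ℝ)) * Real.exp (-(3 / 8 * l * mean2 A)) := by
    have e1 : Real.exp (-(7 / 8 * l * mean2 A)) =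
        Real.exp (-(3 / 8 * l * mean2 A)) * Real.exp (-(l * (mean2 A / 2))) := by
      rw [← Real.exp_add]
      congr 1
      ring
    rw [e1, ← mul_assoc] at hlow
    exact le_of_mul_le_mul_right hlow (Real.exp_pos _)
  have hy : Real.exp (-(3 / 8 * l * mean2 A)) * (3 / 8 * l * mean2 A) ≤ 1 := by
    have h5 := Real.add_one_le_exp (3 / 8 * l * mean2 A)
    have h6 : (3 / 8 * l * mean2 A) ≤ Real.exp (3 / 8 * l * mean2 A) := by linarith
    calc Real.exp (-(3 / 8 * l * mean2 A)) * (3 / 8 * l * mean2 A)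
        ≤ Real.exp (-(3 / 8 * l * mean2 A)) * Real.exp (3 / 8 * l * mean2 A) :=
          mul_le_mul_of_nonneg_left h6 (Real.exp_pos _).le
      _ = 1 := by rw [← Real.exp_add]; simp
  have hP0 : (0 : ℝ) ≤ ∏ i, ((A i).card : ℝ) := Finset.prod_nonneg fun i _ => (hcard i).le
  have hm0 := mean2_nonneg A
  have h7 : (F.card : ℝ) * (3 / 8 * l * mean2 A) ≤ ∏ i, ((A i).card : ℝ) := by
    calc (F.card : ℝ) * (3 / 8 * l * mean2 A)
        ≤ ((∏ i, ((A i).card : ℝ)) * Real.exp (-(3 / 8 * l * mean2 A))) * (3 / 8 * l * mean2 A) :=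
          mul_le_mul_of_nonneg_right hF1 (by positivity)
      _ = (∏ i, ((A i).card : ℝ)) *
            (Real.exp (-(3 / 8 * l * mean2 A)) * (3 / 8 * l * mean2 A)) := by ring
      _ ≤ (∏ i, ((A i).card : ℝ)) * 1 := mul_le_mul_of_nonneg_left hy hP0
      _ = _ := mul_one _
  have h8 : (F.card : ℝ) * (3 / 8 * l * mean2 A) =
      ((F.card : ℝ) * mean2 A) * (3 / (64 * (μ : ℝ) ^ 2)) := by
    rw [hl]
    field_simp
    ring
  rw [h8] at h7
  have h9 : (0 : ℝ) < 3 / (64 * (μ : ℝ) ^ 2) := by positivity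
  have h10 : (F.card : ℝ) * mean2 A ≤ (∏ i, ((A i).card : ℝ)) / (3 / (64 * (μ : ℝ) ^ 2)) := by
    rw [le_div_iff₀ h9]
    exact h7
  refine h10.trans ?_
  have h11 : (∏ i, ((A i).card : ℝ)) / (3 / (64 * (μ : ℝ) ^ 2)) =
      (64 / 3) * ((μ : ℝ) ^ 2 * ∏ i, ((A i).card : ℝ)) := by
    field_simp
  rw [h11]
  have h12 : (0 : ℝ) ≤ (μ : ℝ) ^ 2 * ∏ i, ((A i).card : ℝ) := by positivity
  nlinarith

end Pool.Agent.R66.BX
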