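import Pool.Agent.R66.BX.Lattice
import Pool.Agent.TH167.SH.Segre2

set_option autoImplicit false

/-!
# The SHGH conjecture in large degree with few large multiplicities
-/

namespace Pool.Agent.R66.BX.FinExc

open MvPolynomial Pool.Agent.TH167 Pool.Agent.TH167.SH Pool.Agent.W609.CR

/-- The property holds outside of the zero set of a nonzero polynomial. -/
def ForGeneral {n : ℕ} (p : (Fin n → Fin 2 → ℂ) → Prop) : Prop :=
  ∃ F : MvPolynomial (Fin n × Fin 2) ℂ, F ≠ 0 ∧ ∀ P : Fin n → Fin 2 → ℂ,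
    MvPolynomial.eval (fun ij : Fin n × Fin 2 => P ij.1 ij.2) F ≠ 0 → p P

/-- The sum of those multiplicities which are at most `m`. -/
def small {n : ℕ} (m : ℕ) (w : Fin n → ℕ) : ℕ := ∑ i, if m < w i then 0 else w i

theorem small_le {n : ℕ} (m : ℕ) (w : Fin n → ℕ) : small m w ≤ n * m := by
  unfold small
  calc ∑ i, (if m < w i then 0 else w i) ≤ ∑ _i : Fin n, m :=
        Finset.sum_le_sum fun i _ => by split_ifs <;> omega
    _ = n * m := by simp

/-- A multiplicity larger than the degree: the class is not special. -/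
theorem trivial_nonspecial {n d : ℕ} {w : Fin n → ℕ} (P : Fin n → Fin 2 → ℂ) {i : Fin n}
    (h : d < w i) : ¬ SHDefs.Special P d w := by
  intro hs
  apply hs
  have h1 : SHDefs.sys P d w = ⊥ := by
    rw [eq_bot_iff]
    intro f hf
    rw [sys_eq, mem_VS] at hf
    by_contra h2
    have h3 : f ≠ 0 := h2
    have h4 := van_le h3 hf.1 (hf.2 i)
    omega
  unfold SHDefs.dimL
  rw [h1, finrank_bot]
  have h2 : SHDefs.virtdim d w ≤ -1 := by
    unfold SHDefs.virtdim
    have h3 : ((w i + 1).choose 2 : ℤ) ≤ ∑ i, ((w i + 1).choose 2 : ℤ) :=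
      Finset.single_le_sum (f := fun i => ((w i + 1).choose 2 : ℤ))
        (fun j _ => Int.natCast_nonneg _) (Finset.mem_univ i)
    have h4 : ((d + 2).choose 2 : ℤ) ≤ ((w i + 1).choose 2 : ℤ) := by
      exact_mod_cast Nat.choose_le_choose 2 (by omega : d + 2 ≤ w i + 1)
    linarith
  rw [max_eq_right h2]
  simp

/-- The main theorem. -/
theorem main {n m : ℕ} (hn : 4 ≤ n) (hm : 0 < m) (d : ℕ) (w : Fin n → ℕ)
    (hw : SHDefs.FewLarge m d w)
    (hd : 2 ^ 27 * (4 * m ^ 2 + 8 * m + 5) ^ 6 + 3 * n + 2 * small m w ≤ d) :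
    ForGeneral fun P => Function.Injective P ∧ (SHDefs.Special P d w →
      ∃ (G : MvPolynomial (Fin 3) ℂ) (e : ℕ) (u : Fin n → ℕ),
        SHDefs.MinusOne P G e u ∧ SHDefs.inter d w e u ≤ -2) := by
  obtain ⟨r, rfl⟩ : ∃ r, n = r + 4 := ⟨n - 4, by omega⟩
  obtain ⟨F, hF, h⟩ := SH.shgh_conv hm d w hw
  refine ⟨F, hF, fun P hP => ⟨(h P hP).1, fun hs => ?_⟩⟩
  rcases (h P hP).2 hs with h1 | h1
  · exact h1
  · exfalso
    have h2 := Lattice.exc_lt (by omega) hw h1
    unfold small at hd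
    omega

/-- All but finitely many classes. -/
theorem finite_of {n m : ℕ} (p : ℕ → (Fin n → ℕ) → Prop)
    (h0 : ∀ d (w : Fin n → ℕ) (i : Fin n), d < w i → p d w)
    (h1 : ∀ d (w : Fin n → ℕ), SHDefs.FewLarge m d w →
      2 ^ 27 * (4 * m ^ 2 + 8 * m + 5) ^ 6 + 3 * n + 2 * small m w ≤ d → p d w) :
    {x : ℕ × (Fin n → ℕ) | SHDefs.FewLarge m x.1 x.2 ∧ ¬ p x.1 x.2}.Finite := by
  obtain ⟨N, hN⟩ : ∃ N, N = 2 ^ 27 * (4 * m ^ 2 + 8 * m + 5) ^ 6 + 3 * n + 2 * (n * m) := ⟨_, rfl⟩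
  have hfin : (Set.Iic N ×ˢ Set.pi Set.univ (fun _ : Fin n => Set.Iic N)).Finite :=
    (Set.finite_Iic N).prod (Set.Finite.pi fun _ => Set.finite_Iic N)
  refine hfin.subset ?_
  rintro ⟨d, w⟩ ⟨hw, hp⟩
  simp only at hw hp
  have hd : d ≤ N := by
    by_contra hcon
    push Not at hcon
    apply hp
    apply h1 d w hw
    have := small_le m w
    omega
  refine ⟨hd, fun i _ => ?_⟩
  by_contra hcon
  apply hp
  apply h0 d w i
  simp only [Set.mem_Iic, not_le] at hcon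
  omega

/-- A `(-1)`-curve of intersection number at most `-2` is a double fixed part. -/
theorem square_fixed {n d e : ℕ} {w u : Fin n → ℕ} {P : Fin n → Fin 2 → ℂ}
    (hP : Function.Injective P) {G : MvPolynomial (Fin 3) ℂ} (hG : SHDefs.MinusOne P G e u)
    (h : SHDefs.inter d w e u ≤ -2) :
    ∃ G : MvPolynomial (Fin 3) ℂ, 0 < G.totalDegree ∧ ∀ f ∈ SHDefs.sys P d w, G ^ 2 ∣ f := by
  have hC := minusOne_iff.1 hG
  refine ⟨G, ?_, fun f hf => curve_sq_dvd hP hG h hf⟩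
  rw [hC.hom.totalDegree hC.irr.ne_zero]
  exact deg_pos hC.irr hC.hom

end Pool.Agent.R66.BX.FinExc
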