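import Pool.Agent.R66.BX.Tail2
import Pool.Agent.R66.BX.Det

set_option autoImplicit false

/-!
# Classes given by the numbers of points of each multiplicity
-/

namespace Pool.Agent.R66.BX

open Finset HD

/-- The pairs `(d, k)` with `1 ≤ d ≤ D` and `k i ≤ K`. -/
def fbox (M K D : ℕ) : Set (ℕ × (Fin M → ℕ)) :=
  {x | 1 ≤ x.1 ∧ x.1 ≤ D ∧ ∀ i, x.2 i ≤ K}

theorem fbox_finset (M K D : ℕ) : fbox M K D =
    ↑((Finset.Icc 1 D) ×ˢ Fintype.piFinset (fun _ : Fin M => Finset.range (K + 1))) := by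
  ext x
  simp [fbox, and_assoc]

/-- The sum of the squares of the multiplicities. -/
def qf {M : ℕ} (k : Fin M → ℕ) : ℕ := ∑ i : Fin M, ((i : ℕ) + 1) ^ 2 * k i

/-- The number of conditions. -/
def af {M : ℕ} (k : Fin M → ℕ) : ℕ := ∑ i : Fin M, k i * ((i : ℕ) + 2).choose 2

theorem fdet {M K D : ℕ} (hM : 1 ≤ M) (Sp : ℕ → (Fin M → ℕ) → Prop)
    (hSp : ∀ k : Fin M → ℕ, (∀ i, k i ≤ K) → ∀ d : ℕ, 1 ≤ d → d ≤ D → Sp d k →
      ∑ i : Fin M, (((i : ℕ) : ℤ) + 1) * (k i : ℤ) + 4 * |((d + 2).choose 2 : ℤ) - (af k : ℤ)| <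
        25000 * ((M : ℤ) + 1) ^ 2) [∀ k : Fin M → ℕ, DecidablePred fun d => Sp d k]
    (k : Fin M → ℕ) (hk : ∀ i, k i ≤ K) :
    ((Finset.Icc 1 D).filter fun d => Sp d k).card * qf k ≤ 301100 * M ^ 2 * D := by
  have hMz : (1 : ℤ) ≤ M := by exact_mod_cast hM
  have h3 : ((M : ℤ) + 1) ^ 2 ≤ 4 * (M : ℤ) ^ 2 := by nlinarith
  refine bad_count (D := D) (μ := M) (Q := qf k) (A := af k) _ hM
    (fun d hd => Finset.mem_Icc.1 (Finset.mem_filter.1 hd).1) ?_ ?_ ?_
  · unfold qf af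
    rw [Finset.mul_sum]
    refine Finset.sum_le_sum fun i _ => ?_
    have h := choose_two (i : ℕ)
    have h' : 2 * ((i : ℕ) + 2).choose 2 = ((i : ℕ) + 1) * ((i : ℕ) + 2) := by exact_mod_cast h
    calc ((i : ℕ) + 1) ^ 2 * k i ≤ (((i : ℕ) + 1) * ((i : ℕ) + 2)) * k i := by
          apply Nat.mul_le_mul_right
          nlinarith
      _ = 2 * (k i * ((i : ℕ) + 2).choose 2) := by rw [← h']; ring
  · intro d hd
    have hd' := Finset.mem_filter.1 hd
    have hI := Finset.mem_Icc.1 hd'.1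
    have h := hSp k hk d hI.1 hI.2 hd'.2
    have h0 : (0 : ℤ) ≤ ∑ i : Fin M, (((i : ℕ) : ℤ) + 1) * (k i : ℤ) := by positivity
    linarith
  · rintro ⟨d, hd⟩
    have hd' := Finset.mem_filter.1 hd
    have hI := Finset.mem_Icc.1 hd'.1
    have h := hSp k hk d hI.1 hI.2 hd'.2
    have h0 := abs_nonneg (((d + 2).choose 2 : ℤ) - (af k : ℤ))
    have h4 : ∑ i : Fin M, (((i : ℕ) : ℤ) + 1) * (k i : ℤ) ≤ 100000 * (M : ℤ) ^ 2 := by linarith
    have h5 : ((qf k : ℕ) : ℤ) ≤ M * ∑ i : Fin M, (((i : ℕ) : ℤ) + 1) * (k i : ℤ) := by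
      unfold qf
      push_cast
      rw [Finset.mul_sum]
      refine Finset.sum_le_sum fun i _ => ?_
      have h6 : ((i : ℕ) : ℤ) + 1 ≤ M := by
        have := i.2
        exact_mod_cast this
      have h7 : (0 : ℤ) ≤ (((i : ℕ) : ℤ) + 1) * k i := by positivity
      nlinarith
    have h7 : ((qf k : ℕ) : ℤ) ≤ ((100000 * M ^ 3 : ℕ) : ℤ) := by
      push_cast
      have : (M : ℤ) * ∑ i : Fin M, (((i : ℕ) : ℤ) + 1) * (k i : ℤ) ≤ M * (100000 * (M : ℤ) ^ 2) :=
        mul_le_mul_of_nonneg_left h4 (by positivity)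
      calc (qf k : ℤ) ≤ M * ∑ i : Fin M, (((i : ℕ) : ℤ) + 1) * (k i : ℤ) := h5
        _ ≤ M * (100000 * (M : ℤ) ^ 2) := this
        _ = 100000 * (M : ℤ) ^ 3 := by ring
    exact_mod_cast h7

theorem fcount_eq {M K D : ℕ} (Sp : ℕ → (Fin M → ℕ) → Prop)
    [∀ k : Fin M → ℕ, DecidablePred fun d => Sp d k] :
    (Set.ncard {x ∈ fbox M K D | Sp x.1 x.2} : ℝ) =
      ∑ k ∈ Fintype.piFinset (fun _ : Fin M => Finset.range (K + 1)),
        ((((Finset.Icc 1 D).filter fun d => Sp d k).card : ℕ) : ℝ) := by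
  classical
  have hset : {x ∈ fbox M K D | Sp x.1 x.2} =
      ↑(((Finset.Icc 1 D) ×ˢ Fintype.piFinset (fun _ : Fin M => Finset.range (K + 1))).filter
        fun x => Sp x.1 x.2) := by
    rw [fbox_finset]
    ext x
    simp
  rw [hset, Set.ncard_coe_finset]
  have hcount : (((Finset.Icc 1 D) ×ˢ Fintype.piFinset
      (fun _ : Fin M => Finset.range (K + 1))).filter fun x => Sp x.1 x.2).card =
      ∑ k ∈ Fintype.piFinset (fun _ : Fin M => Finset.range (K + 1)),
        ((Finset.Icc 1 D).filter fun d => Sp d k).card := by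
    rw [Finset.card_filter, Finset.sum_product_right]
    refine Finset.sum_congr rfl fun m _ => ?_
    rw [Finset.card_filter]
  rw [hcount]
  push_cast
  rfl

theorem card_le_D {M D : ℕ} (Sp : ℕ → (Fin M → ℕ) → Prop)
    [∀ k : Fin M → ℕ, DecidablePred fun d => Sp d k] (k : Fin M → ℕ) :
    ((((Finset.Icc 1 D).filter fun d => Sp d k).card : ℕ) : ℝ) ≤ D := by
  have := Finset.card_le_card (Finset.filter_subset (fun d => Sp d k) (Finset.Icc 1 D))
  rw [Nat.card_Icc, Nat.add_sub_cancel] at this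
  exact_mod_cast this

theorem sum_id (K : ℕ) : ∑ a ∈ Finset.range (K + 1), (a : ℝ) = K * (K + 1) / 2 := by
  induction K with
  | zero => simp
  | succ K ih =>
    rw [Finset.sum_range_succ, ih]
    push_cast
    ring

theorem sum_sq' (M : ℕ) : ∑ i : Fin M, (((i : ℕ) : ℝ) + 1) ^ 2 = (M : ℝ) * ((M : ℝ) + 1) * (2 * (M : ℝ) + 1) / 6 := by
  rw [Fin.sum_univ_eq_sum_range (fun i : ℕ => ((i : ℝ) + 1) ^ 2) M]
  induction M with
  | zero => simp
  | succ M ih =>
    rw [Finset.sum_range_succ, ih]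
    push_cast
    ring

/-- Many multiplicities. -/
theorem fcount_M {M K D : ℕ} (hM : 1 ≤ M) (hK : 1 ≤ K) (Sp : ℕ → (Fin M → ℕ) → Prop)
    (hSp : ∀ k : Fin M → ℕ, (∀ i, k i ≤ K) → ∀ d : ℕ, 1 ≤ d → d ≤ D → Sp d k →
      ∑ i : Fin M, (((i : ℕ) : ℤ) + 1) * (k i : ℤ) + 4 * |((d + 2).choose 2 : ℤ) - (af k : ℤ)| <
        25000 * ((M : ℤ) + 1) ^ 2) :
    (Set.ncard {x ∈ fbox M K D | Sp x.1 x.2} : ℝ) ≤
      4 * 10 ^ 6 / M * (D * ((K : ℝ) + 1) ^ M) := by
  classical
  rw [fcount_eq]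
  have hMR : (1 : ℝ) ≤ M := by exact_mod_cast hM
  have hKR : (1 : ℝ) ≤ K := by exact_mod_cast hK
  obtain ⟨A, hA⟩ : ∃ A : Fin M → Finset ℕ, A = fun _ => Finset.range (K + 1) := ⟨_, rfl⟩
  have hAi : ∀ i, A i = Finset.range (K + 1) := fun i => by rw [hA]
  rw [← hA]
  obtain ⟨f, hf⟩ : ∃ f : Fin M → ℕ → ℝ,
    f = fun (i : Fin M) (a : ℕ) => (((i : ℕ) : ℝ) + 1) ^ 2 * a / (K * (M : ℝ) ^ 2) := ⟨_, rfl⟩
  have hmean : (M : ℝ) / 6 ≤ meanI A f := by
    unfold meanI
    have h1 : ∀ i : Fin M, (∑ a ∈ A i, f i a) / ((A i).card : ℝ) =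
        (((i : ℕ) : ℝ) + 1) ^ 2 * (1 / (2 * (M : ℝ) ^ 2)) := by
      intro i
      rw [hAi, hf, Finset.card_range]
      simp only
      rw [← Finset.sum_div, ← Finset.mul_sum, sum_id]
      push_cast
      field_simp
    rw [Finset.sum_congr rfl fun i _ => h1 i, ← Finset.sum_mul, sum_sq']
    have h2 : (M : ℝ) * (M + 1) * (2 * M + 1) / 6 * (1 / (2 * (M : ℝ) ^ 2)) =
        (M + 1) * (2 * M + 1) / (12 * M) := by
      field_simp
      ring
    rw [h2, div_le_div_iff₀ (by norm_num) (by positivity)]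
    nlinarith
  have htail := tailI A (fun i => by rw [hAi]; exact ⟨0, by simp⟩) f (fun i a ha => by
    rw [hAi, Finset.mem_range] at ha
    rw [hf]
    refine ⟨by positivity, ?_⟩
    simp only
    rw [div_le_one (by positivity)]
    have h1 : (a : ℝ) ≤ K := by
      have : a ≤ K := by omega
      exact_mod_cast this
    have h2 : (((i : ℕ) : ℝ) + 1) ≤ M := by
      have := i.2
      exact_mod_cast this
    have h3 : (((i : ℕ) : ℝ) + 1) ^ 2 ≤ (M : ℝ) ^ 2 := by gcongr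
    calc (((i : ℕ) : ℝ) + 1) ^ 2 * a ≤ (M : ℝ) ^ 2 * K := by gcongr
      _ = K * (M : ℝ) ^ 2 := mul_comm _ _)
  have hterm : ∀ k ∈ Fintype.piFinset A,
      ((((Finset.Icc 1 D).filter fun d => Sp d k).card : ℕ) : ℝ) ≤
        3613200 * D / M + (if ∑ i, f i (k i) ≤ meanI A f / 2 then (D : ℝ) else 0) := by
    intro k hk
    have hkK : ∀ i, k i ≤ K := fun i => by
      have := Fintype.mem_piFinset.1 hk i
      rw [hAi, Finset.mem_range] at this
      omega
    split_ifs with h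
    · have h1 := card_le_D (D := D) Sp k
      have h2 : (0 : ℝ) ≤ 3613200 * D / M := by positivity
      linarith
    · push Not at h
      rw [add_zero]
      have hd : ((((Finset.Icc 1 D).filter fun d => Sp d k).card : ℕ) : ℝ) * (qf k : ℝ) ≤
          301100 * (M : ℝ) ^ 2 * D := by
        exact_mod_cast fdet hM Sp hSp k hkK
      have hq : (M : ℝ) ^ 3 / 12 ≤ (qf k : ℝ) := by
        have e : (qf k : ℝ) = K * (M : ℝ) ^ 2 * ∑ i, f i (k i) := by
          unfold qf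
          push_cast
          rw [Finset.mul_sum]
          refine Finset.sum_congr rfl fun i _ => ?_
          rw [hf]
          simp only
          field_simp
        rw [e]
        have h1 : (M : ℝ) / 12 ≤ ∑ i, f i (k i) := by linarith
        calc (M : ℝ) ^ 3 / 12 = 1 * (M : ℝ) ^ 2 * (M / 12) := by ring
          _ ≤ K * (M : ℝ) ^ 2 * ∑ i, f i (k i) := by gcongr
      have h2 : ((((Finset.Icc 1 D).filter fun d => Sp d k).card : ℕ) : ℝ) * ((M : ℝ) ^ 3 / 12) ≤
          301100 * (M : ℝ) ^ 2 * D :=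
        (mul_le_mul_of_nonneg_left hq (by positivity)).trans hd
      rw [le_div_iff₀ (by linarith)]
      have h3 : ((((Finset.Icc 1 D).filter fun d => Sp d k).card : ℕ) : ℝ) * (M : ℝ) *
          ((M : ℝ) ^ 2 / 12) ≤ (3613200 * D) * ((M : ℝ) ^ 2 / 12) := by
        calc ((((Finset.Icc 1 D).filter fun d => Sp d k).card : ℕ) : ℝ) * (M : ℝ) *
              ((M : ℝ) ^ 2 / 12) =
            ((((Finset.Icc 1 D).filter fun d => Sp d k).card : ℕ) : ℝ) * ((M : ℝ) ^ 3 / 12) := by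
              ring
          _ ≤ 301100 * (M : ℝ) ^ 2 * D := h2
          _ = (3613200 * D) * ((M : ℝ) ^ 2 / 12) := by ring
      exact le_of_mul_le_mul_right h3 (by positivity)
  refine (Finset.sum_le_sum hterm).trans ?_
  have hprod : ∏ i, ((A i).card : ℝ) = ((K : ℝ) + 1) ^ M := by
    simp [hAi]
  have hcardpi : ((Fintype.piFinset A).card : ℝ) = ((K : ℝ) + 1) ^ M := by
    rw [Fintype.card_piFinset]
    push_cast
    exact hprod
  rw [Finset.sum_add_distrib, Finset.sum_const, nsmul_eq_mul, ← Finset.sum_filter,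
    Finset.sum_const, nsmul_eq_mul, hcardpi]
  rw [hprod] at htail
  have hP0 : (0 : ℝ) ≤ ((K : ℝ) + 1) ^ M := by positivity
  have hfew : (((Fintype.piFinset A).filter
      (fun k => ∑ i, f i (k i) ≤ meanI A f / 2)).card : ℝ) ≤ 132 / M * ((K : ℝ) + 1) ^ M := by
    have h1 : (((Fintype.piFinset A).filter
        (fun k => ∑ i, f i (k i) ≤ meanI A f / 2)).card : ℝ) * ((M : ℝ) / 6) ≤
        22 * ((K : ℝ) + 1) ^ M :=
      (mul_le_mul_of_nonneg_left hmean (by positivity)).trans htail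
    have h2 : (((Fintype.piFinset A).filter
        (fun k => ∑ i, f i (k i) ≤ meanI A f / 2)).card : ℝ) ≤
          22 * ((K : ℝ) + 1) ^ M / ((M : ℝ) / 6) := by
      rw [le_div_iff₀ (by positivity)]
      exact h1
    refine h2.trans (le_of_eq ?_)
    field_simp
    ring
  have h6 := mul_le_mul_of_nonneg_right hfew (Nat.cast_nonneg (α := ℝ) D)
  have h7 : (0 : ℝ) ≤ 1 / M * (D * ((K : ℝ) + 1) ^ M) := by positivity
  calc ((K : ℝ) + 1) ^ M * (3613200 * D / M) +
        (((Fintype.piFinset A).filter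
          (fun k => ∑ i, f i (k i) ≤ meanI A f / 2)).card : ℝ) * (D : ℝ)
      ≤ ((K : ℝ) + 1) ^ M * (3613200 * D / M) + 132 / M * ((K : ℝ) + 1) ^ M * D := by linarith
    _ = 3613332 * (1 / M * (D * ((K : ℝ) + 1) ^ M)) := by ring
    _ ≤ 4 * 10 ^ 6 * (1 / M * (D * ((K : ℝ) + 1) ^ M)) := by
        apply mul_le_mul_of_nonneg_right (by norm_num) h7
    _ = _ := by ring

/-- Many points of each multiplicity. -/
theorem fcount_K {M K D : ℕ} (hM : 1 ≤ M) (Sp : ℕ → (Fin M → ℕ) → Prop)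
    (hSp : ∀ k : Fin M → ℕ, (∀ i, k i ≤ K) → ∀ d : ℕ, 1 ≤ d → d ≤ D → Sp d k →
      ∑ i : Fin M, (((i : ℕ) : ℤ) + 1) * (k i : ℤ) + 4 * |((d + 2).choose 2 : ℤ) - (af k : ℤ)| <
        25000 * ((M : ℤ) + 1) ^ 2) :
    (Set.ncard {x ∈ fbox M K D | Sp x.1 x.2} : ℝ) ≤
      1200 / Real.sqrt (K + 1) * (D * ((K : ℝ) + 1) ^ M) := by
  classical
  rw [fcount_eq]
  have hMR : (1 : ℝ) ≤ M := by exact_mod_cast hM
  obtain ⟨s, hs⟩ : ∃ s, s = Real.sqrt (K + 1) := ⟨_, rfl⟩
  have hs2 : s ^ 2 = (K : ℝ) + 1 := by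
    rw [hs]
    exact Real.sq_sqrt (by positivity)
  have hs1 : 1 ≤ s := by
    rw [hs]
    apply Real.le_sqrt_of_sq_le
    have : (0 : ℝ) ≤ K := by positivity
    linarith
  rw [← hs]
  obtain ⟨A, hA⟩ : ∃ A : Fin M → Finset ℕ, A = fun _ => Finset.range (K + 1) := ⟨_, rfl⟩
  have hAi : ∀ i, A i = Finset.range (K + 1) := fun i => by rw [hA]
  rw [← hA]
  obtain ⟨t, ht⟩ : ∃ t : Fin M, (t : ℕ) + 1 = M := ⟨⟨M - 1, by omega⟩, by simp only; omega⟩
  obtain ⟨n, hn⟩ : ∃ n : ℕ, n = ⌊550 * s⌋₊ := ⟨_, rfl⟩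
  have hn1 : (n : ℝ) ≤ 550 * s := by rw [hn]; exact Nat.floor_le (by positivity)
  have hn2 : 550 * s < n + 1 := by rw [hn]; exact Nat.lt_floor_add_one _
  have hterm : ∀ k ∈ Fintype.piFinset A,
      ((((Finset.Icc 1 D).filter fun d => Sp d k).card : ℕ) : ℝ) ≤
        548 * D / s + (if k t ≤ n then (D : ℝ) else 0) := by
    intro k hk
    have hkK : ∀ i, k i ≤ K := fun i => by
      have := Fintype.mem_piFinset.1 hk i
      rw [hAi, Finset.mem_range] at this
      omega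
    split_ifs with h
    · have h1 := card_le_D (D := D) Sp k
      have h2 : (0 : ℝ) ≤ 548 * D / s := by positivity
      linarith
    · push Not at h
      rw [add_zero]
      have hd : ((((Finset.Icc 1 D).filter fun d => Sp d k).card : ℕ) : ℝ) * (qf k : ℝ) ≤
          301100 * (M : ℝ) ^ 2 * D := by
        exact_mod_cast fdet hM Sp hSp k hkK
      have hq : (M : ℝ) ^ 2 * (550 * s) ≤ (qf k : ℝ) := by
        have h1 : ((t : ℕ) + 1) ^ 2 * k t ≤ qf k := by
          unfold qf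
          exact Finset.single_le_sum (f := fun i : Fin M => ((i : ℕ) + 1) ^ 2 * k i)
            (fun i _ => Nat.zero_le _) (Finset.mem_univ t)
        rw [ht] at h1
        have h2 : ((M ^ 2 * k t : ℕ) : ℝ) ≤ (qf k : ℝ) := by exact_mod_cast h1
        push_cast at h2
        have h3 : ((n : ℝ) + 1) ≤ k t := by exact_mod_cast h
        have h4 : 550 * s ≤ (k t : ℝ) := by linarith
        have h5 := mul_le_mul_of_nonneg_left h4 (show (0 : ℝ) ≤ (M : ℝ) ^ 2 by positivity)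
        linarith
      have h2 : ((((Finset.Icc 1 D).filter fun d => Sp d k).card : ℕ) : ℝ) *
          ((M : ℝ) ^ 2 * (550 * s)) ≤ 301100 * (M : ℝ) ^ 2 * D :=
        (mul_le_mul_of_nonneg_left hq (by positivity)).trans hd
      rw [le_div_iff₀ (by linarith)]
      have h3 : ((((Finset.Icc 1 D).filter fun d => Sp d k).card : ℕ) : ℝ) * s *
          (550 * (M : ℝ) ^ 2) ≤ (548 * D) * (550 * (M : ℝ) ^ 2) := by
        have h4 : (0 : ℝ) ≤ (M : ℝ) ^ 2 * D := by positivity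
        calc ((((Finset.Icc 1 D).filter fun d => Sp d k).card : ℕ) : ℝ) * s *
              (550 * (M : ℝ) ^ 2) =
            ((((Finset.Icc 1 D).filter fun d => Sp d k).card : ℕ) : ℝ) *
              ((M : ℝ) ^ 2 * (550 * s)) := by ring
          _ ≤ 301100 * (M : ℝ) ^ 2 * D := h2
          _ ≤ (548 * D) * (550 * (M : ℝ) ^ 2) := by nlinarith
      exact le_of_mul_le_mul_right h3 (by positivity)
  refine (Finset.sum_le_sum hterm).trans ?_
  have hcardpi : ((Fintype.piFinset A).card : ℝ) = ((K : ℝ) + 1) ^ M := by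
    rw [Fintype.card_piFinset]
    simp [hAi]
  rw [Finset.sum_add_distrib, Finset.sum_const, nsmul_eq_mul, ← Finset.sum_filter,
    Finset.sum_const, nsmul_eq_mul, hcardpi]
  have hfew : (((Fintype.piFinset A).filter (fun k => k t ≤ n)).card : ℝ) * ((K : ℝ) + 1) ≤
      ((n : ℝ) + 1) * ((K : ℝ) + 1) ^ M := by
    have hsub : (Fintype.piFinset A).filter (fun k => k t ≤ n) ⊆
        Fintype.piFinset (fun i => if i = t then Finset.range (n + 1) else A i) := by
      intro k hk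
      rw [Finset.mem_filter, Fintype.mem_piFinset] at hk
      rw [Fintype.mem_piFinset]
      intro i
      split_ifs with h
      · rw [h, Finset.mem_range]
        omega
      · exact hk.1 i
    have h1 := Finset.card_le_card hsub
    rw [Fintype.card_piFinset] at h1
    have h2 : ∏ i : Fin M, (if i = t then Finset.range (n + 1) else A i).card =
        (n + 1) * (K + 1) ^ (M - 1) := by
      rw [← Finset.mul_prod_erase Finset.univ _ (Finset.mem_univ t)]
      rw [if_pos rfl, Finset.card_range]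
      congr 1
      rw [Finset.prod_congr rfl (g := fun _ => K + 1) fun i hi => by
        rw [if_neg (Finset.ne_of_mem_erase hi), hAi, Finset.card_range]]
      rw [Finset.prod_const, Finset.card_erase_of_mem (Finset.mem_univ t), Finset.card_univ,
        Fintype.card_fin]
    rw [h2] at h1
    have h3 : ((Fintype.piFinset A).filter (fun k => k t ≤ n)).card * (K + 1) ≤
        (n + 1) * (K + 1) ^ M := by
      calc ((Fintype.piFinset A).filter (fun k => k t ≤ n)).card * (K + 1)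
          ≤ ((n + 1) * (K + 1) ^ (M - 1)) * (K + 1) := Nat.mul_le_mul_right _ h1
        _ = (n + 1) * (K + 1) ^ (M - 1 + 1) := by rw [pow_succ]; ring
        _ = (n + 1) * (K + 1) ^ M := by rw [Nat.sub_add_cancel hM]
    exact_mod_cast h3
  rw [← hs2] at hfew ⊢
  have hs0 : (0 : ℝ) < s := by linarith
  have hP0 : (0 : ℝ) ≤ (s ^ 2) ^ M := by positivity
  have hfew2 : (((Fintype.piFinset A).filter (fun k => k t ≤ n)).card : ℝ) ≤
      551 / s * (s ^ 2) ^ M := by
    have h1 : ((n : ℝ) + 1) * (s ^ 2) ^ M ≤ (551 * s) * (s ^ 2) ^ M :=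
      mul_le_mul_of_nonneg_right (by linarith) hP0
    have h2 : (((Fintype.piFinset A).filter (fun k => k t ≤ n)).card : ℝ) ≤
        (551 * s) * (s ^ 2) ^ M / s ^ 2 := by
      rw [le_div_iff₀ (by positivity)]
      exact hfew.trans h1
    refine h2.trans (le_of_eq ?_)
    field_simp
  have h6 := mul_le_mul_of_nonneg_right hfew2 (Nat.cast_nonneg (α := ℝ) D)
  have h7 : (0 : ℝ) ≤ 1 / s * (D * (s ^ 2) ^ M) := by positivity
  calc (s ^ 2) ^ M * (548 * D / s) +
        (((Fintype.piFinset A).filter (fun k => k t ≤ n)).card : ℝ) * (D : ℝ)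
      ≤ (s ^ 2) ^ M * (548 * D / s) + 551 / s * (s ^ 2) ^ M * D := by linarith
    _ = 1099 * (1 / s * (D * (s ^ 2) ^ M)) := by ring
    _ ≤ 1200 * (1 / s * (D * (s ^ 2) ^ M)) := by
        apply mul_le_mul_of_nonneg_right (by norm_num) h7
    _ = _ := by ring

end Pool.Agent.R66.BX
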