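import Pool.Agent.R66.BX.Tail

set_option autoImplicit false

/-!
# Almost all tuples, from an asymptotic range: the abstract argument
-/

namespace Pool.Agent.R66.BX.HD

open Finset

theorem few_bad {r : ℕ} (hr : 1 ≤ r) {η : ℝ} (h0 : 0 < η) (h1 : η ≤ 1 / 40) {Q : ℝ} {D : ℕ}
    (S : Finset ℕ) (hS : ∀ d ∈ S, d ≤ D) (hlow : ∀ d ∈ S, Q ≤ (1 + η) * (d : ℝ) ^ r)
    (hup : ∀ d ∈ S, (1 - η) * (d : ℝ) ^ r < (1 + η) * Q)
    (hbig : (1 + η) * (1 / η) ^ r ≤ Q) : (S.card : ℝ) ≤ 5 * η * D := by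
  rcases S.eq_empty_or_nonempty with rfl | hne
  · simp only [Finset.card_empty, Nat.cast_zero]
    positivity
  obtain ⟨d1, hd1⟩ : ∃ d1, d1 = S.min' hne := ⟨_, rfl⟩
  obtain ⟨d2, hd2⟩ : ∃ d2, d2 = S.max' hne := ⟨_, rfl⟩
  have m1 : d1 ∈ S := hd1 ▸ S.min'_mem hne
  have m2 : d2 ∈ S := hd2 ▸ S.max'_mem hne
  have h12 : d1 ≤ d2 := by rw [hd1]; exact S.min'_le _ m2
  have hcard : S.card ≤ d2 - d1 + 1 := by
    have : S ⊆ Finset.Icc d1 d2 := fun d hd => Finset.mem_Icc.2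
      ⟨by rw [hd1]; exact S.min'_le _ hd, by rw [hd2]; exact S.le_max' _ hd⟩
    have h3 := Finset.card_le_card this
    rw [Nat.card_Icc] at h3
    omega
  have hr0 : r ≠ 0 := by omega
  have b1 := hlow d1 m1
  have b2 := hup d2 m2
  have hd1n : (0 : ℝ) ≤ (d1 : ℝ) ^ r := by positivity
  have e1 : (1 - η) * (d2 : ℝ) ^ r < (1 - η) * ((1 + 4 * η) * (d1 : ℝ) ^ r) := by
    have : (1 + η) * Q ≤ (1 + η) * ((1 + η) * (d1 : ℝ) ^ r) :=
      mul_le_mul_of_nonneg_left b1 (by linarith)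
    have h3 : (1 + η) * (1 + η) ≤ (1 - η) * (1 + 4 * η) := by nlinarith
    have h4 := mul_le_mul_of_nonneg_right h3 hd1n
    linarith
  have e2 : (d2 : ℝ) ^ r < (1 + 4 * η) * (d1 : ℝ) ^ r := lt_of_mul_lt_mul_left e1 (by linarith)
  have e3 : (d2 : ℝ) ^ r < ((1 + 4 * η) * d1) ^ r := by
    refine e2.trans_le ?_
    rw [mul_pow]
    refine mul_le_mul_of_nonneg_right ?_ hd1n
    calc (1 + 4 * η) = (1 + 4 * η) ^ 1 := (pow_one _).symm
      _ ≤ (1 + 4 * η) ^ r := pow_le_pow_right₀ (by linarith) hr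
  have e4 : (d2 : ℝ) < (1 + 4 * η) * d1 := lt_of_pow_lt_pow_left₀ r (by positivity) e3
  have e5 : (1 / η) ^ r ≤ (d1 : ℝ) ^ r := by
    have : (1 + η) * (1 / η) ^ r ≤ (1 + η) * (d1 : ℝ) ^ r := hbig.trans b1
    exact le_of_mul_le_mul_left this (by linarith)
  have e6 : 1 / η ≤ (d1 : ℝ) := le_of_pow_le_pow_left₀ hr0 (by positivity) e5
  have e7 : 1 ≤ η * (d1 : ℝ) := by
    rw [div_le_iff₀ h0] at e6
    linarith
  have hc : (S.card : ℝ) ≤ (d2 : ℝ) - d1 + 1 := by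
    have : ((d2 - d1 + 1 : ℕ) : ℝ) = (d2 : ℝ) - d1 + 1 := by
      push_cast [Nat.cast_sub h12]
      ring
    rw [← this]
    exact_mod_cast hcard
  have hD : (d1 : ℝ) ≤ D := by exact_mod_cast hS d1 m1
  have e8 : 5 * η * (d1 : ℝ) ≤ 5 * η * D := mul_le_mul_of_nonneg_left hD (by linarith)
  linarith

theorem mean_low {k M r : ℕ} (hM : 1 ≤ M) :
    (k : ℝ) / 2 ^ (r + 1) ≤ mean (fun _ : Fin k => Finset.Icc 1 M) (fun a => ((a : ℝ) / M) ^ r) := by
  have hMR : (1 : ℝ) ≤ M := by exact_mod_cast hM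
  unfold mean
  rw [Finset.sum_const, Finset.card_univ, Fintype.card_fin, nsmul_eq_mul, Nat.card_Icc,
    Nat.add_sub_cancel]
  have h1 : (M : ℝ) / 2 ^ (r + 1) ≤ ∑ a ∈ Finset.Icc 1 M, ((a : ℝ) / M) ^ r := by
    have hsub : Finset.Icc ((M + 1) / 2) M ⊆ Finset.Icc 1 M := by
      intro a ha
      rw [Finset.mem_Icc] at ha ⊢
      omega
    have h2 : ∑ a ∈ Finset.Icc ((M + 1) / 2) M, ((1 : ℝ) / 2) ^ r ≤
        ∑ a ∈ Finset.Icc 1 M, ((a : ℝ) / M) ^ r := by
      refine le_trans (Finset.sum_le_sum fun a ha => ?_)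
        (Finset.sum_le_sum_of_subset_of_nonneg hsub fun a _ _ => by positivity)
      rw [Finset.mem_Icc] at ha
      have h3 : M ≤ 2 * a := by omega
      have h4 : (M : ℝ) ≤ 2 * a := by exact_mod_cast h3
      apply pow_le_pow_left₀ (by norm_num)
      rw [div_le_div_iff₀ (by norm_num) (by linarith)]
      linarith
    rw [Finset.sum_const, Nat.card_Icc, nsmul_eq_mul] at h2
    refine le_trans ?_ h2
    have h5 : M ≤ 2 * (M + 1 - (M + 1) / 2) := by omega
    have h6 : (M : ℝ) ≤ 2 * ((M + 1 - (M + 1) / 2 : ℕ) : ℝ) := by exact_mod_cast h5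
    have h7 : (M : ℝ) / 2 ^ (r + 1) = (M / 2) * (1 / 2) ^ r := by
      rw [pow_succ, one_div, inv_pow]
      field_simp
    rw [h7]
    apply mul_le_mul_of_nonneg_right _ (by positivity)
    linarith
  have h8 : (k : ℝ) / 2 ^ (r + 1) = k * ((M : ℝ) / 2 ^ (r + 1) / M) := by
    field_simp
  rw [h8]
  apply mul_le_mul_of_nonneg_left _ (by positivity)
  apply div_le_div_of_nonneg_right h1 (by linarith)

theorem almost_all {r : ℕ} (hr : 1 ≤ r) (Emp G : ∀ k : ℕ, (Fin k → ℕ) → ℕ → Prop)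
    (H1 : ∀ ε : ℝ, 0 < ε → ∃ σ : ℝ, 0 < σ ∧ ∀ (k : ℕ) (m : Fin k → ℕ) (d : ℕ), 0 < d →
      (∀ i, (m i : ℝ) + (2 * r - 1) ≤ σ * d) →
      ((1 + ε) * (d : ℝ) ^ r < ∑ i, (m i : ℝ) ^ r → Emp k m d) ∧
      (∑ i, ((m i : ℝ) + (2 * r - 1)) ^ r ≤ (1 - ε) * (d : ℝ) ^ r → G k m d))
    (H2 : ∀ (k : ℕ) (m : Fin k → ℕ) (d : ℕ), Emp k m d → ∀ d' ≤ d, G k m d')
    (H3 : ∀ M : ℕ, ∃ K : ℕ, ∀ k, K ≤ k → ∀ m : Fin k → ℕ, (∀ i, 1 ≤ m i ∧ m i ≤ M) →
      ∀ d, G k m d) :
    ∀ ε : ℝ, 0 < ε → ∃ K : ℕ, ∀ k, K ≤ k → ∀ M D : ℕ, 1 ≤ M →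
      (Set.ncard {x : ℕ × (Fin k → ℕ) |
        (1 ≤ x.1 ∧ x.1 ≤ D ∧ ∀ i, 1 ≤ x.2 i ∧ x.2 i ≤ M) ∧ ¬ G k x.2 x.1} : ℝ) ≤
      ε * (D * (M : ℝ) ^ k) := by
  classical
  intro ε hε
  obtain ⟨η, hη⟩ : ∃ η, η = min ε 1 / 40 := ⟨_, rfl⟩
  have hη0 : 0 < η := by
    rw [hη]
    have : 0 < min ε 1 := lt_min hε one_pos
    positivity
  have hη1 : η ≤ 1 / 40 := by
    rw [hη]
    have : min ε 1 ≤ 1 := min_le_right _ _
    linarith
  have hηε : 6 * η ≤ ε := by
    have : min ε 1 ≤ ε := min_le_left _ _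
    have h2 : 0 < min ε 1 := lt_min hε one_pos
    rw [hη]
    linarith
  obtain ⟨σ0, hσ0, H⟩ := H1 η hη0
  obtain ⟨σ, hσ⟩ : ∃ σ, σ = min σ0 1 := ⟨_, rfl⟩
  have hσp : 0 < σ := by rw [hσ]; exact lt_min hσ0 one_pos
  have hσ1 : σ ≤ 1 := by rw [hσ]; exact min_le_right _ _
  have hσσ : σ ≤ σ0 := by rw [hσ]; exact min_le_left _ _
  obtain ⟨s, hs⟩ : ∃ s : ℝ, s = 2 * r - 1 := ⟨_, rfl⟩
  have hrR : (1 : ℝ) ≤ r := by exact_mod_cast hr
  have hs1 : 1 ≤ s := by rw [hs]; linarith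
  rw [← hs] at H
  obtain ⟨c, hc⟩ : ∃ c : ℝ, c = 1 / 2 ^ (r + 2) := ⟨_, rfl⟩
  have hc0 : 0 < c := by rw [hc]; positivity
  obtain ⟨M0, hM0⟩ := exists_nat_ge (2 ^ r * s / (η * c) + s)
  have hM0a : 2 ^ r * s / (η * c) ≤ M0 := by linarith
  have hM0b : s ≤ M0 := by
    have : 0 ≤ 2 ^ r * s / (η * c) := by positivity
    linarith
  obtain ⟨K3, hK3⟩ := H3 M0
  obtain ⟨K1, hK1⟩ := exists_nat_gt (2 * (3 / σ) ^ r / c)
  obtain ⟨K2, hK2⟩ := exists_nat_ge ((1 + η) * (1 / η) ^ r / c)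
  obtain ⟨K4, hK4⟩ := exists_nat_ge (22 * 2 ^ (r + 1) / η)
  refine ⟨K1 + K2 + K3 + K4 + 1, fun k hk M D hM => ?_⟩
  have hkR : (0 : ℝ) < k := by
    have : 0 < k := by omega
    exact_mod_cast this
  have hMR : (1 : ℝ) ≤ M := by exact_mod_cast hM
  rcases Nat.lt_or_ge M0 M with hMM | hMM
  swap
  · have hempty : {x : ℕ × (Fin k → ℕ) |
        (1 ≤ x.1 ∧ x.1 ≤ D ∧ ∀ i, 1 ≤ x.2 i ∧ x.2 i ≤ M) ∧ ¬ G k x.2 x.1} = ∅ := by
      rw [Set.eq_empty_iff_forall_notMem]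
      rintro x ⟨⟨_, _, h3⟩, h4⟩
      exact h4 (hK3 k (by omega) x.2 (fun i => ⟨(h3 i).1, (h3 i).2.trans hMM⟩) x.1)
    rw [hempty]
    simp only [Set.ncard_empty, Nat.cast_zero]
    positivity
  have hM0M : (M0 : ℝ) ≤ M := by exact_mod_cast hMM.le
  obtain ⟨A, hAdef⟩ : ∃ A : Fin k → Finset ℕ, A = fun _ => Finset.Icc 1 M := ⟨_, rfl⟩
  obtain ⟨f, hfdef⟩ : ∃ f : ℕ → ℝ, f = fun a : ℕ => ((a : ℝ) / M) ^ r := ⟨_, rfl⟩
  have hAi : ∀ i, A i = Finset.Icc 1 M := fun i => by rw [hAdef]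
  have hset : {x : ℕ × (Fin k → ℕ) |
        (1 ≤ x.1 ∧ x.1 ≤ D ∧ ∀ i, 1 ≤ x.2 i ∧ x.2 i ≤ M) ∧ ¬ G k x.2 x.1} =
      ↑(((Finset.Icc 1 D) ×ˢ Fintype.piFinset A).filter fun x => ¬ G k x.2 x.1) := by
    ext x
    simp [hAi, and_assoc]
  rw [hset, Set.ncard_coe_finset]
  have hcount : (((Finset.Icc 1 D) ×ˢ Fintype.piFinset A).filter fun x => ¬ G k x.2 x.1).card =
      ∑ m ∈ Fintype.piFinset A, ((Finset.Icc 1 D).filter fun d => ¬ G k m d).card := by
    rw [Finset.card_filter, Finset.sum_product_right]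
    refine Finset.sum_congr rfl fun m _ => ?_
    rw [Finset.card_filter]
  rw [hcount]
  push_cast
  have hmean : (k : ℝ) / 2 ^ (r + 1) ≤ mean A f := by
    rw [hAdef, hfdef]
    exact mean_low hM
  have hAne : ∀ i, (A i).Nonempty := fun i => by
    rw [hAi]
    exact ⟨1, Finset.mem_Icc.2 ⟨le_rfl, hM⟩⟩
  have htail := tailf A hAne f (fun i a ha => by
    rw [hAi, Finset.mem_Icc] at ha
    have h1 : (a : ℝ) ≤ M := by exact_mod_cast ha.2
    rw [hfdef]
    refine ⟨by positivity, ?_⟩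
    have h2 : (a : ℝ) / M ≤ 1 := by
      rw [div_le_one (by linarith)]
      exact h1
    exact pow_le_one₀ (by positivity) h2)
  -- good vectors
  have hgood : ∀ m ∈ Fintype.piFinset A, mean A f / 2 < ∑ i, f (m i) →
      ((((Finset.Icc 1 D).filter fun d => ¬ G k m d).card : ℕ) : ℝ) ≤ 5 * η * D := by
    intro m hm hgm
    have hmA : ∀ i, 1 ≤ m i ∧ m i ≤ M := fun i => by
      have := Fintype.mem_piFinset.1 hm i
      rw [hAi, Finset.mem_Icc] at this
      exact this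
    obtain ⟨Q, hQ⟩ : ∃ Q : ℝ, Q = ∑ i, (m i : ℝ) ^ r := ⟨_, rfl⟩
    have hQf : Q = (M : ℝ) ^ r * ∑ i, f (m i) := by
      rw [hQ, Finset.mul_sum]
      refine Finset.sum_congr rfl fun i _ => ?_
      rw [hfdef]
      simp only
      rw [div_pow]
      field_simp
    have hMr : (1 : ℝ) ≤ (M : ℝ) ^ r := one_le_pow₀ hMR
    have hQlow : c * k * (M : ℝ) ^ r ≤ Q := by
      rw [hQf]
      have h1 : c * k ≤ ∑ i, f (m i) := by
        have h2 : c * k = ((k : ℝ) / 2 ^ (r + 1)) / 2 := by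
          rw [hc, pow_succ (n := r + 1)]
          field_simp
        rw [h2]
        linarith
      calc c * k * (M : ℝ) ^ r ≤ (∑ i, f (m i)) * (M : ℝ) ^ r :=
            mul_le_mul_of_nonneg_right h1 (by positivity)
        _ = _ := mul_comm _ _
    have hQ' : ∑ i, ((m i : ℝ) + s) ^ r ≤ (1 + η) * Q := by
      have h1 : ∀ i, ((m i : ℝ) + s) ^ r ≤ (m i : ℝ) ^ r + η * c * (M : ℝ) ^ r := by
        intro i
        have h2 := diff_mono (m := (m i : ℝ)) (M := (M : ℝ)) (s := s) (by positivity)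
          (by exact_mod_cast (hmA i).2) (by linarith) r
        have h3 : ((M : ℝ) + s) ^ r ≤ (M : ℝ) ^ r + η * c * (M : ℝ) ^ r := by
          have h4 : (M : ℝ) + s = M * (1 + s / M) := by field_simp
          have h5 : s / M ≤ 1 := by
            rw [div_le_one (by linarith)]
            linarith
          have h6 := one_add_pow (x := s / M) (by positivity) h5 r
          have h7 : (2 ^ r - 1) * (s / M) ≤ η * c := by
            have h8 : (2 ^ r - 1) * (s / M) ≤ 2 ^ r * (s / M) := by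
              apply mul_le_mul_of_nonneg_right (by linarith) (by positivity)
            refine h8.trans ?_
            have h9 : 2 ^ r * s / (η * c) ≤ M := hM0a.trans hM0M
            rw [div_le_iff₀ (by positivity)] at h9
            rw [← mul_div_assoc, div_le_iff₀ (by linarith)]
            linarith
          rw [h4, mul_pow]
          calc (M : ℝ) ^ r * (1 + s / M) ^ r ≤ (M : ℝ) ^ r * (1 + η * c) := by
                apply mul_le_mul_of_nonneg_left _ (by positivity)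
                linarith
            _ = _ := by ring
        linarith
      calc ∑ i, ((m i : ℝ) + s) ^ r ≤ ∑ i, ((m i : ℝ) ^ r + η * c * (M : ℝ) ^ r) :=
            Finset.sum_le_sum fun i _ => h1 i
        _ = Q + k * (η * c * (M : ℝ) ^ r) := by
            rw [Finset.sum_add_distrib, ← hQ, Finset.sum_const, Finset.card_univ,
              Fintype.card_fin, nsmul_eq_mul]
        _ = Q + η * (c * k * (M : ℝ) ^ r) := by ring
        _ ≤ Q + η * Q := by
            have := mul_le_mul_of_nonneg_left hQlow hη0.le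
            linarith
        _ = (1 + η) * Q := by ring
    -- the threshold for small degrees
    obtain ⟨L, hL⟩ : ∃ L, L = ⌈((M : ℝ) + s) / σ⌉₊ := ⟨_, rfl⟩
    have hL1 : ((M : ℝ) + s) / σ ≤ L := by rw [hL]; exact Nat.le_ceil _
    have hL2 : (L : ℝ) < ((M : ℝ) + s) / σ + 1 := by
      rw [hL]
      exact Nat.ceil_lt_add_one (by positivity)
    have hLp : 0 < L := by
      have : (0 : ℝ) < L := lt_of_lt_of_le (by positivity) hL1
      exact_mod_cast this
    have hL3 : (L : ℝ) ≤ 3 * M / σ := by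
      have h1 : ((M : ℝ) + s) / σ ≤ 2 * M / σ := by
        apply div_le_div_of_nonneg_right _ hσp.le
        linarith
      have h2 : (1 : ℝ) ≤ M / σ := by
        rw [le_div_iff₀ hσp]
        nlinarith
      have h3 : 3 * (M : ℝ) / σ = 2 * M / σ + M / σ := by ring
      linarith
    have hLcond : ∀ d : ℕ, L ≤ d → ∀ i, (m i : ℝ) + s ≤ σ0 * d := by
      intro d hd i
      have h1 : (L : ℝ) ≤ d := by exact_mod_cast hd
      have h2 : ((M : ℝ) + s) / σ ≤ d := hL1.trans h1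
      rw [div_le_iff₀ hσp] at h2
      have h3 : (m i : ℝ) ≤ M := by exact_mod_cast (hmA i).2
      have h4 : (d : ℝ) * σ ≤ d * σ0 := mul_le_mul_of_nonneg_left hσσ (by positivity)
      linarith
    have hempL : Emp k m L := by
      apply (H k m L hLp (hLcond L le_rfl)).1
      rw [← hQ]
      have h1 : (L : ℝ) ^ r ≤ (3 * M / σ) ^ r := pow_le_pow_left₀ (by positivity) hL3 r
      have h2 : (3 * (M : ℝ) / σ) ^ r = (3 / σ) ^ r * (M : ℝ) ^ r := by
        rw [← mul_pow]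
        congr 1
        ring
      have h3 : 2 * (3 / σ) ^ r < c * k := by
        have h4 : 2 * (3 / σ) ^ r / c < k := by
          have : (K1 : ℝ) ≤ k := by
            have : K1 ≤ k := by omega
            exact_mod_cast this
          linarith
        rw [div_lt_iff₀ hc0] at h4
        linarith
      have h5 : (1 + η) * (L : ℝ) ^ r ≤ 2 * ((3 / σ) ^ r * (M : ℝ) ^ r) := by
        rw [← h2]
        have h6 : (0 : ℝ) ≤ (L : ℝ) ^ r := by positivity
        nlinarith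
      have h7 : 2 * ((3 / σ) ^ r * (M : ℝ) ^ r) < c * k * (M : ℝ) ^ r := by
        have := mul_lt_mul_of_pos_right h3 (show (0 : ℝ) < (M : ℝ) ^ r by positivity)
        linarith
      linarith
    have hbad : ∀ d ∈ (Finset.Icc 1 D).filter fun d => ¬ G k m d,
        L < d ∧ d ≤ D ∧ ¬ G k m d := by
      intro d hd
      rw [Finset.mem_filter, Finset.mem_Icc] at hd
      refine ⟨?_, hd.1.2, hd.2⟩
      by_contra hcon
      exact hd.2 (H2 k m L hempL d (by omega))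
    refine few_bad hr hη0 hη1 (Q := Q) _ (fun d hd => (hbad d hd).2.1) (fun d hd => ?_)
      (fun d hd => ?_) ?_
    · obtain ⟨h1, _, h3⟩ := hbad d hd
      by_contra hcon
      push Not at hcon
      rw [hQ] at hcon
      exact h3 (H2 k m d ((H k m d (by omega) (hLcond d h1.le)).1 hcon) d le_rfl)
    · obtain ⟨h1, _, h3⟩ := hbad d hd
      by_contra hcon
      push Not at hcon
      exact h3 ((H k m d (by omega) (hLcond d h1.le)).2 (hQ'.trans hcon))
    · have h1 : (1 + η) * (1 / η) ^ r ≤ c * k := by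
        have h4 : (1 + η) * (1 / η) ^ r / c ≤ k := by
          have : (K2 : ℝ) ≤ k := by
            have : K2 ≤ k := by omega
            exact_mod_cast this
          linarith
        rw [div_le_iff₀ hc0] at h4
        linarith
      have h2 : c * k ≤ c * k * (M : ℝ) ^ r := le_mul_of_one_le_right (by positivity) hMr
      linarith
  have hterm : ∀ m ∈ Fintype.piFinset A,
      ((((Finset.Icc 1 D).filter fun d => ¬ G k m d).card : ℕ) : ℝ) ≤
        5 * η * D + (if ∑ i, f (m i) ≤ mean A f / 2 then (D : ℝ) else 0) := by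
    intro m hm
    split_ifs with h
    · have h1 : ((((Finset.Icc 1 D).filter fun d => ¬ G k m d).card : ℕ) : ℝ) ≤ D := by
        have := Finset.card_le_card (Finset.filter_subset (fun d => ¬ G k m d) (Finset.Icc 1 D))
        rw [Nat.card_Icc, Nat.add_sub_cancel] at this
        exact_mod_cast this
      have h2 : (0 : ℝ) ≤ 5 * η * D := by positivity
      linarith
    · push Not at h
      rw [add_zero]
      exact hgood m hm h
  refine (Finset.sum_le_sum hterm).trans ?_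
  have hprod : ∏ i, ((A i).card : ℝ) = (M : ℝ) ^ k := by
    simp [hAi]
  have hcardpi : ((Fintype.piFinset A).card : ℝ) = (M : ℝ) ^ k := by
    rw [Fintype.card_piFinset]
    push_cast
    exact hprod
  rw [Finset.sum_add_distrib, Finset.sum_const, nsmul_eq_mul, ← Finset.sum_filter,
    Finset.sum_const, nsmul_eq_mul, hcardpi]
  rw [hprod] at htail
  have hMk : (0 : ℝ) ≤ (M : ℝ) ^ k := by positivity
  have hfew : (((Fintype.piFinset A).filter (fun m => ∑ i, f (m i) ≤ mean A f / 2)).card : ℝ) ≤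
      η * (M : ℝ) ^ k := by
    have h1 : (((Fintype.piFinset A).filter
        (fun m => ∑ i, f (m i) ≤ mean A f / 2)).card : ℝ) * ((k : ℝ) / 2 ^ (r + 1)) ≤
        22 * (M : ℝ) ^ k :=
      (mul_le_mul_of_nonneg_left hmean (by positivity)).trans htail
    have h2 : 22 * 2 ^ (r + 1) / η ≤ k := by
      have : (K4 : ℝ) ≤ k := by
        have : K4 ≤ k := by omega
        exact_mod_cast this
      linarith
    rw [div_le_iff₀ hη0] at h2
    have h3 : 22 * (M : ℝ) ^ k ≤ (η * (M : ℝ) ^ k) * ((k : ℝ) / 2 ^ (r + 1)) := by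
      have h4 : (22 : ℝ) ≤ η * k / 2 ^ (r + 1) := by
        rw [le_div_iff₀ (by positivity)]
        linarith
      have h5 := mul_le_mul_of_nonneg_right h4 hMk
      calc 22 * (M : ℝ) ^ k ≤ η * k / 2 ^ (r + 1) * (M : ℝ) ^ k := h5
        _ = _ := by ring
    exact le_of_mul_le_mul_right (h1.trans h3) (by positivity)
  have h6 := mul_le_mul_of_nonneg_right hfew (Nat.cast_nonneg (α := ℝ) D)
  have h7 : (0 : ℝ) ≤ D * (M : ℝ) ^ k := by positivity
  have h8 := mul_le_mul_of_nonneg_right hηε h7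
  calc (M : ℝ) ^ k * (5 * η * D) +
        (((Fintype.piFinset A).filter (fun m => ∑ i, f (m i) ≤ mean A f / 2)).card : ℝ) * (D : ℝ)
      ≤ (M : ℝ) ^ k * (5 * η * D) + η * (M : ℝ) ^ k * D := by linarith
    _ = 6 * η * (D * (M : ℝ) ^ k) := by ring
    _ ≤ ε * (D * (M : ℝ) ^ k) := h8

end Pool.Agent.R66.BX.HD
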