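import Pool.Agent.R66.BX.FinExc

set_option autoImplicit false

/-!
# Counting the possible exceptions of the Harbourne-Hirschowitz conjecture
-/

namespace Pool.Agent.R66.BX.HHCount

open MvPolynomial Pool.Agent.TH167 Pool.Agent.TH167.SHDefs Pool.Agent.R66.BX.Lattice
  Pool.Agent.R66.BX.FinExc

theorem sum_pad {q p : ℕ} (h : q ≤ p) (f : Fin q → ℕ) :
    ∑ t : Fin p, (if ht : (t : ℕ) < q then f ⟨t, ht⟩ else 0) = ∑ t, f t := by
  obtain ⟨s, rfl⟩ := Nat.exists_eq_add_of_le h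
  rw [Fin.sum_univ_add]
  have h1 : ∑ i : Fin s, (if ht : ((Fin.natAdd q i : Fin (q + s)) : ℕ) < q then
      f ⟨(Fin.natAdd q i : Fin (q + s)), ht⟩ else 0) = 0 := by
    refine Finset.sum_eq_zero fun i _ => ?_
    rw [dif_neg]
    simp
  rw [h1, add_zero]
  refine Finset.sum_congr rfl fun i _ => ?_
  rw [dif_pos (by simp)]
  rfl

theorem inter_add {s d1 d2 : ℕ} (w1 w2 : Fin s → ℕ) (x : ℕ) (g : Fin s → ℕ) :
    inter (d1 + d2) (fun i => w1 i + w2 i) x g = inter d1 w1 x g + inter d2 w2 x g := by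
  unfold inter
  have : ∑ i, (((w1 i + w2 i : ℕ)) : ℤ) * g i = ∑ i, (w1 i : ℤ) * g i + ∑ i, (w2 i : ℤ) * g i := by
    rw [← Finset.sum_add_distrib]
    refine Finset.sum_congr rfl fun i _ => ?_
    push_cast
    ring
  rw [this]
  push_cast
  ring

/-- A class plus a combination of orthogonal `(-1)`-classes which are orthogonal to it. -/
theorem part {s k d' : ℕ} {w' : Fin s → ℕ} {e : Fin k → ℕ} {u : Fin k → Fin s → ℕ}
    (N : Fin k → ℕ) (hself : ∀ a, inter (e a) (u a) (e a) (u a) = -1)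
    (hcan : ∀ a, antiK (e a, u a) = 1)
    (hdis : ∀ a b, a ≠ b → inter (e a) (u a) (e b) (u b) = 0)
    (hort : ∀ a, inter d' w' (e a) (u a) = 0) (T : Finset (Fin k)) :
    selfI (d' + ∑ a ∈ T, N a * e a, fun i => w' i + ∑ a ∈ T, N a * u a i) =
        selfI (d', w') - ∑ a ∈ T, (N a : ℤ) ^ 2 ∧
      antiK (d' + ∑ a ∈ T, N a * e a, fun i => w' i + ∑ a ∈ T, N a * u a i) =
        antiK (d', w') + ∑ a ∈ T, (N a : ℤ) ∧
      ∀ b, b ∉ T →
        inter (d' + ∑ a ∈ T, N a * e a) (fun i => w' i + ∑ a ∈ T, N a * u a i) (e b) (u b) = 0 := by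
  classical
  induction T using Finset.induction_on with
  | empty =>
    refine ⟨?_, ?_, fun b _ => ?_⟩
    · simp
    · simp
    · simpa using hort b
  | insert c T hc ih =>
    obtain ⟨h1, h2, h3⟩ := ih
    have hs : ∀ (x : ℕ) (g : Fin s → ℕ), selfI (x, g) = inter x g x g := by
      intro x g
      unfold inter selfI
      simp only [sq]
    obtain ⟨D0, hD0⟩ : ∃ D0, D0 = d' + ∑ a ∈ T, N a * e a := ⟨_, rfl⟩
    obtain ⟨W0, hW0⟩ : ∃ W0 : Fin s → ℕ, W0 = fun i => w' i + ∑ a ∈ T, N a * u a i := ⟨_, rfl⟩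
    rw [← hD0, ← hW0] at h1 h2 h3
    have e1 : d' + ∑ a ∈ insert c T, N a * e a = D0 + N c * e c := by
      rw [Finset.sum_insert hc, hD0]
      ring
    have e2 : (fun i => w' i + ∑ a ∈ insert c T, N a * u a i) = fun i => W0 i + N c * u c i := by
      funext i
      rw [Finset.sum_insert hc, hW0]
      ring
    rw [e1, e2]
    have hm : ∀ (x : ℕ) (g : Fin s → ℕ),
        inter (N c * e c) (fun i => N c * u c i) x g = N c * inter (e c) (u c) x g := by
      intro x g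
      unfold inter
      have : ∑ i, ((N c * u c i : ℕ) : ℤ) * g i = N c * ∑ i, (u c i : ℤ) * g i := by
        rw [Finset.mul_sum]
        refine Finset.sum_congr rfl fun i _ => ?_
        push_cast
        ring
      rw [this]
      push_cast
      ring
    refine ⟨?_, ?_, fun b hb => ?_⟩
    · rw [hs, inter_add, inter_symm D0 W0, inter_add, ← hs D0 W0, hm, hm,
        inter_symm (e c) (u c) (D0 + N c * e c), inter_add, hm, hself, h3 c hc,
        inter_symm (e c) (u c) D0 W0, h3 c hc, h1, Finset.sum_insert hc]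
      ring
    · unfold antiK at h2 hcan ⊢
      simp only at h2 hcan ⊢
      have h4 : ∑ i, ((W0 i + N c * u c i : ℕ) : ℤ) =
          ∑ i, (W0 i : ℤ) + N c * ∑ i, (u c i : ℤ) := by
        rw [Finset.mul_sum, ← Finset.sum_add_distrib]
        refine Finset.sum_congr rfl fun i _ => ?_
        push_cast
        ring
      rw [h4, Finset.sum_insert hc]
      push_cast
      have h5 := hcan c
      have h6 : 3 * ((D0 : ℤ) + N c * e c) - (∑ i, (W0 i : ℤ) + N c * ∑ i, (u c i : ℤ)) =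
          (3 * (D0 : ℤ) - ∑ i, (W0 i : ℤ)) + N c * (3 * (e c : ℤ) - ∑ i, (u c i : ℤ)) := by ring
      rw [h6, h2, h5]
      ring
    · rw [Finset.mem_insert, not_or] at hb
      rw [inter_add, h3 b hb.2, hm, hdis c b (Ne.symm hb.1)]
      ring

theorem five_small {E : ℤ} {x : Fin 5 → ℤ} (hE0 : 0 ≤ E)
    (h1 : E * E - (x 0 * x 0 + x 1 * x 1 + x 2 * x 2 + x 3 * x 3 + x 4 * x 4) = -1)
    (h2 : 3 * E - (x 0 + x 1 + x 2 + x 3 + x 4) = 1) : E ≤ 2 ∧ ∀ j, x j ≤ 2 := by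
  have g1 : (x 0 + x 1 + x 2 + x 3 + x 4) ^ 2 ≤
      5 * (x 0 * x 0 + x 1 * x 1 + x 2 * x 2 + x 3 * x 3 + x 4 * x 4) := by
    nlinarith [sq_nonneg (x 0 - x 1), sq_nonneg (x 0 - x 2), sq_nonneg (x 0 - x 3),
      sq_nonneg (x 0 - x 4), sq_nonneg (x 1 - x 2), sq_nonneg (x 1 - x 3),
      sq_nonneg (x 1 - x 4), sq_nonneg (x 2 - x 3), sq_nonneg (x 2 - x 4),
      sq_nonneg (x 3 - x 4)]
  have g2 : x 0 + x 1 + x 2 + x 3 + x 4 = 3 * E - 1 := by linarith
  have g3 : x 0 * x 0 + x 1 * x 1 + x 2 * x 2 + x 3 * x 3 + x 4 * x 4 = E * E + 1 := by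
    linarith
  rw [g2, g3] at g1
  have hE2 : E ≤ 2 := by
    by_contra hcon
    push Not at hcon
    nlinarith
  refine ⟨hE2, fun j => ?_⟩
  have h4 : x j * x j ≤ 5 := by
    have g4 : E * E ≤ 4 := by nlinarith
    have g5 : ∀ l, 0 ≤ x l * x l := fun l => mul_self_nonneg _
    have g6 := g5 0
    have g7 := g5 1
    have g8 := g5 2
    have g9 := g5 3
    have g10 := g5 4
    fin_cases j <;> simp only [Fin.zero_eta, Fin.mk_one, Fin.reduceFinMk] <;> linarith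
  nlinarith

/-- The bound for the small part. -/
def K1 (m r : ℕ) : ℕ :=
  (2 ^ 27 * (4 * m ^ 2 + 8 * m + 5) ^ 6 + 3 * ((r + 5) * m ^ 2) + 2 * ((r + 5) * m)) ^ 2 +
    (bd m) ^ 3 + (r + 5) * m ^ 2

theorem exc_data {K : Type} [Field K] {r m d : ℕ} {v : Fin r → ℕ} (hv : ∀ i, v i ≤ m)
    {a : Fin 5 → ℕ} {P : Fin (r + 5) → Fin 2 → K}
    (hE : Exceptional (bd m) P d (Fin.append v a)) :
    ∃ (R0 : ℕ) (R : Fin 5 → ℕ) (c : Fin 5 → ℕ × (Fin 5 → ℕ)) (N : Fin 5 → ℕ),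
      R0 ≤ K1 m r ∧ (∀ j, R j ≤ K1 m r) ∧ (∀ t, (c t).1 ≤ 2 ∧ ∀ j, (c t).2 j ≤ 2) ∧
      (∀ t, N t ≤ d) ∧ d = R0 + ∑ t, N t * (c t).1 ∧ ∀ j, a j = R j + ∑ t, N t * (c t).2 j := by
  classical
  obtain ⟨d', w', k, G, e, u, N, d1, w1, hD, ⟨hq, hstd, hd1, hc⟩, -, -, -, -⟩ := hE
  obtain ⟨b1, b2⟩ := small_bounds (by omega) hstd hd1 hc
  obtain ⟨c1, c2⟩ := quads_inv hq
  have hself : ∀ b, inter (e b) (u b) (e b) (u b) = -1 := fun b => (hD.curve b).self
  have hcan : ∀ b, antiK (e b, u b) = 1 := by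
    intro b
    have := (hD.curve b).canonical
    unfold interK at this
    unfold antiK
    simp only
    linarith
  have hepos : ∀ b, 1 ≤ e b := by
    intro b
    by_contra hcon
    have h0 : e b = 0 := by omega
    have h1 := hcan b
    unfold antiK at h1
    simp only at h1
    rw [h0] at h1
    have : (0 : ℤ) ≤ ∑ i, (u b i : ℤ) := Finset.sum_nonneg fun i _ => Int.natCast_nonneg _
    push_cast at h1
    linarith
  have hk : k ≤ r + 5 := card_le e u hself hD.disjoint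
  obtain ⟨T, hT⟩ : ∃ T : Finset (Fin k),
    T = Finset.univ.filter fun b => ∃ i : Fin r, u b (Fin.castAdd 5 i) ≠ 0 := ⟨_, rfl⟩
  have hNT : ∀ b ∈ T, N b ≤ m := by
    intro b hb
    rw [hT, Finset.mem_filter] at hb
    obtain ⟨i, hi⟩ := hb.2
    have h1 := hD.mult (Fin.castAdd 5 i)
    rw [Fin.append_left] at h1
    have h2 : N b * u b (Fin.castAdd 5 i) ≤ ∑ a, N a * u a (Fin.castAdd 5 i) :=
      Finset.single_le_sum (f := fun a => N a * u a (Fin.castAdd 5 i))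
        (fun _ _ => Nat.zero_le _) (Finset.mem_univ b)
    have h3 : N b * 1 ≤ N b * u b (Fin.castAdd 5 i) := Nat.mul_le_mul_left _ (by omega)
    have := hv i
    omega
  obtain ⟨p1, p2, -⟩ := part N hself hcan hD.disjoint hD.orthogonal T
  obtain ⟨D0, hD0⟩ : ∃ D0, D0 = d' + ∑ a ∈ T, N a * e a := ⟨_, rfl⟩
  obtain ⟨W0, hW0⟩ : ∃ W0 : Fin (r + 5) → ℕ, W0 = fun i => w' i + ∑ a ∈ T, N a * u a i := ⟨_, rfl⟩
  rw [← hD0, ← hW0] at p1 p2
  have hTcard : T.card ≤ r + 5 := (Finset.card_le_univ T).trans (by simpa using hk)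
  have hsq : ∑ a ∈ T, (N a) ^ 2 ≤ (r + 5) * m ^ 2 := by
    calc ∑ a ∈ T, (N a) ^ 2 ≤ ∑ _a ∈ T, m ^ 2 :=
          Finset.sum_le_sum fun b hb => Nat.pow_le_pow_left (hNT b hb) 2
      _ = T.card * m ^ 2 := by rw [Finset.sum_const, smul_eq_mul]
      _ ≤ (r + 5) * m ^ 2 := Nat.mul_le_mul_right _ hTcard
  have hlin : ∑ a ∈ T, N a ≤ (r + 5) * m ^ 2 := by
    refine (Finset.sum_le_sum fun b _ => ?_).trans hsq
    exact Nat.le_self_pow (by norm_num) _
  have hsq' : (∑ a ∈ T, (N a : ℤ) ^ 2) ≤ ((r + 5) * m ^ 2 : ℕ) := by exact_mod_cast hsq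
  have hlin' : (∑ a ∈ T, (N a : ℤ)) ≤ ((r + 5) * m ^ 2 : ℕ) := by exact_mod_cast hlin
  have hW0le : ∀ i : Fin r, W0 (Fin.castAdd 5 i) ≤ m := by
    intro i
    have h1 := hD.mult (Fin.castAdd 5 i)
    rw [Fin.append_left] at h1
    have h2 : ∑ a ∈ T, N a * u a (Fin.castAdd 5 i) ≤ ∑ a, N a * u a (Fin.castAdd 5 i) :=
      Finset.sum_le_sum_of_subset (Finset.subset_univ T)
    have := hv i
    rw [hW0]
    simp only
    omega
  have hfew : FewLarge m D0 W0 := by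
    left
    have h1 : (Finset.univ.filter fun i => m < W0 i) ⊆
        Finset.univ.map (Fin.natAddEmb r : Fin 5 ↪ Fin (r + 5)) := by
      intro i hi
      rw [Finset.mem_filter] at hi
      rw [Finset.mem_map]
      revert hi
      refine Fin.addCases (fun j hi => ?_) (fun j _ => ?_) i
      · have := hW0le j
        omega
      · exact ⟨j, Finset.mem_univ _, rfl⟩
    refine (Finset.card_le_card h1).trans ?_
    rw [Finset.card_map]
    simp
  have hbd := bound_of (k := (r + 5) * m ^ 2) hfew (by linarith) (by linarith)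
  have hsm : ∑ i, (if m < W0 i then 0 else W0 i) ≤ (r + 5) * m := by
    calc ∑ i, (if m < W0 i then 0 else W0 i) ≤ ∑ _i : Fin (r + 5), m :=
          Finset.sum_le_sum fun i _ => by split_ifs <;> omega
      _ = (r + 5) * m := by simp
  obtain ⟨K0, hK0⟩ : ∃ K0, K0 = 2 ^ 27 * (4 * m ^ 2 + 8 * m + 5) ^ 6 +
    3 * ((r + 5) * m ^ 2) + 2 * ((r + 5) * m) := ⟨_, rfl⟩
  have hD0K : D0 ≤ K0 := by omega
  have hK1 : K1 m r = K0 ^ 2 + (bd m) ^ 3 + (r + 5) * m ^ 2 := by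
    rw [hK0]
    rfl
  have hWK : ∀ i, W0 i ≤ K1 m r := by
    intro i
    have h1 : (W0 i : ℤ) ^ 2 ≤ ∑ i, (W0 i : ℤ) ^ 2 :=
      Finset.single_le_sum (f := fun i => (W0 i : ℤ) ^ 2) (fun _ _ => sq_nonneg _)
        (Finset.mem_univ i)
    have h2 : selfI (D0, W0) = (D0 : ℤ) ^ 2 - ∑ i, (W0 i : ℤ) ^ 2 := rfl
    have h3 : (D0 : ℤ) ^ 2 ≤ (K0 : ℤ) ^ 2 :=
      pow_le_pow_left₀ (Int.natCast_nonneg _) (by exact_mod_cast hD0K) 2
    have h4 : (W0 i : ℤ) ^ 2 ≤ (K0 : ℤ) ^ 2 + (bd m : ℤ) ^ 3 + ((r + 5) * m ^ 2 : ℕ) := by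
      linarith
    have h5 : (W0 i) ^ 2 ≤ K0 ^ 2 + (bd m) ^ 3 + (r + 5) * m ^ 2 := by exact_mod_cast h4
    rw [hK1]
    exact (Nat.le_self_pow (by norm_num) _).trans h5
  -- the other curves
  obtain ⟨q, hqc⟩ : ∃ q, q = Tᶜ.card := ⟨_, rfl⟩
  obtain ⟨ι, hι⟩ : ∃ ι : Fin q ≃ {x // x ∈ Tᶜ}, ι = ι :=
    ⟨(Finset.equivFinOfCardEq hqc.symm).symm, rfl⟩
  have hzero : ∀ b ∈ Tᶜ, ∀ i : Fin r, u b (Fin.castAdd 5 i) = 0 := by
    intro b hb i
    rw [Finset.mem_compl, hT, Finset.mem_filter] at hb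
    by_contra hcon
    exact hb ⟨Finset.mem_univ _, i, hcon⟩
  have hint5 : ∀ b ∈ Tᶜ, ∀ b' ∈ Tᶜ, inter (e b) (fun j : Fin 5 => u b (Fin.natAdd r j)) (e b')
      (fun j : Fin 5 => u b' (Fin.natAdd r j)) = inter (e b) (u b) (e b') (u b') := by
    intro b hb b' hb'
    unfold inter
    rw [Fin.sum_univ_add (a := r) (b := 5) (fun i => (u b i : ℤ) * (u b' i : ℤ))]
    have h1 : ∑ i : Fin r, (u b (Fin.castAdd 5 i) : ℤ) * (u b' (Fin.castAdd 5 i) : ℤ) = 0 := by
      refine Finset.sum_eq_zero fun i _ => ?_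
      rw [hzero b hb i]
      simp
    rw [h1, zero_add]
  have hq5 : q ≤ 5 := by
    refine card_le (fun t => e (ι t).1) (fun t (j : Fin 5) => u (ι t).1 (Fin.natAdd r j))
      (fun t => ?_) (fun t t' htt => ?_)
    · rw [hint5 _ (ι t).2 _ (ι t).2]
      exact hself _
    · rw [hint5 _ (ι t).2 _ (ι t').2]
      refine hD.disjoint _ _ fun h => htt (ι.injective (Subtype.ext h))
  have hsmall : ∀ b ∈ Tᶜ, e b ≤ 2 ∧ ∀ j : Fin 5, u b (Fin.natAdd r j) ≤ 2 := by
    intro b hb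
    have h1 := hint5 b hb b hb
    rw [hself] at h1
    have h2 := hcan b
    unfold antiK at h2
    simp only at h2
    rw [Fin.sum_univ_add] at h2
    have h3 : ∑ i : Fin r, (u b (Fin.castAdd 5 i) : ℤ) = 0 := by
      refine Finset.sum_eq_zero fun i _ => ?_
      rw [hzero b hb i]
      simp
    rw [h3, zero_add] at h2
    unfold inter at h1
    rw [Fin.sum_univ_five] at h1 h2
    obtain ⟨x, hx⟩ : ∃ x : Fin 5 → ℤ, x = fun j => (u b (Fin.natAdd r j) : ℤ) := ⟨_, rfl⟩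
    have hx' : ∀ j, (u b (Fin.natAdd r j) : ℤ) = x j := fun j => by rw [hx]
    simp only [hx'] at h1 h2
    obtain ⟨E, hE⟩ : ∃ E : ℤ, E = (e b : ℤ) := ⟨_, rfl⟩
    rw [← hE] at h1 h2
    have hE0 : 0 ≤ E := by
      rw [hE]
      exact Int.natCast_nonneg _
    obtain ⟨hE2, hx2⟩ := five_small hE0 h1 h2
    refine ⟨by exact_mod_cast (hE ▸ hE2 : (e b : ℤ) ≤ 2), fun j => ?_⟩
    have h5 := hx2 j
    rw [← hx' j] at h5
    exact_mod_cast h5
  have hNd : ∀ b, N b ≤ d := by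
    intro b
    have h1 : N b * e b ≤ ∑ a, N a * e a :=
      Finset.single_le_sum (f := fun a => N a * e a) (fun _ _ => Nat.zero_le _)
        (Finset.mem_univ b)
    have h2 : N b * 1 ≤ N b * e b := Nat.mul_le_mul_left _ (hepos b)
    have h3 := hD.degree
    omega
  have hsplit : ∀ f : Fin k → ℕ, ∑ b, f b = ∑ b ∈ T, f b + ∑ t : Fin q, f (ι t).1 := by
    intro f
    rw [← Finset.sum_add_sum_compl T f]
    congr 1
    rw [← Finset.sum_coe_sort Tᶜ f]
    exact (Equiv.sum_comp ι fun x : {x // x ∈ Tᶜ} => f x.1).symm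
  refine ⟨D0, fun j => W0 (Fin.natAdd r j),
    fun t => if ht : (t : ℕ) < q then (e (ι ⟨t, ht⟩).1, fun j => u (ι ⟨t, ht⟩).1 (Fin.natAdd r j))
      else (0, fun _ => 0),
    fun t => if ht : (t : ℕ) < q then N (ι ⟨t, ht⟩).1 else 0, ?_, fun j => hWK _, fun t => ?_,
    fun t => ?_, ?_, fun j => ?_⟩
  · rw [hK1]
    have : D0 ≤ K0 ^ 2 := hD0K.trans (Nat.le_self_pow (by norm_num) _)
    omega
  · by_cases ht : (t : ℕ) < q
    · simp only [dif_pos ht]
      exact hsmall _ (ι ⟨t, ht⟩).2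
    · simp only [dif_neg ht]
      exact ⟨by simp, fun j => by simp⟩
  · by_cases ht : (t : ℕ) < q
    · simp only [dif_pos ht]
      exact hNd _
    · simp only [dif_neg ht]
      exact Nat.zero_le _
  · have h1 := hD.degree
    rw [hsplit fun b => N b * e b, ← add_assoc, ← hD0] at h1
    rw [h1]
    congr 1
    rw [← sum_pad hq5]
    refine Finset.sum_congr rfl fun t _ => ?_
    by_cases ht : (t : ℕ) < q
    · simp only [dif_pos ht]
    · simp only [dif_neg ht]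
  · have h1 := hD.mult (Fin.natAdd r j)
    rw [Fin.append_right, hsplit fun b => N b * u b (Fin.natAdd r j), ← add_assoc] at h1
    have h2 : w' (Fin.natAdd r j) + ∑ b ∈ T, N b * u b (Fin.natAdd r j) =
        W0 (Fin.natAdd r j) := by rw [hW0]
    rw [h2] at h1
    rw [h1]
    congr 1
    rw [← sum_pad hq5]
    refine Finset.sum_congr rfl fun t _ => ?_
    by_cases ht : (t : ℕ) < q
    · simp only [dif_pos ht]
    · simp only [dif_neg ht]

/-- The starting theorem, for any number of points. -/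
theorem hh_gen {n m : ℕ} (hn : 4 ≤ n) (hm : 0 < m) (d : ℕ) (w : Fin n → ℕ)
    (hw : FewLarge m d w) :
    ForGeneral fun P => (MinusOneSpecial P d w → Special P d w) ∧
      (Special P d w → MinusOneSpecial P d w ∨ Exceptional (bd m) P d w) := by
  obtain ⟨r, rfl⟩ : ∃ r, n = r + 4 := ⟨n - 4, by omega⟩
  obtain ⟨F, hF, h⟩ := SH.hh_conv hm d w hw
  refine ⟨F, hF, fun P hP => ⟨fun h1 => ?_, (h P hP).2⟩⟩
  rw [SH.special_conv]
  exact ((SH.mspecial_conv P d w).1 h1).special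

theorem few_append {r m d : ℕ} {v : Fin r → ℕ} (hv : ∀ i, v i ≤ m) (a : Fin 5 → ℕ) :
    FewLarge m d (Fin.append v a) := by
  left
  have h1 : (Finset.univ.filter fun i => m < Fin.append v a i) ⊆
      Finset.univ.map (Fin.natAddEmb r : Fin 5 ↪ Fin (r + 5)) := by
    intro i hi
    rw [Finset.mem_filter] at hi
    rw [Finset.mem_map]
    revert hi
    refine Fin.addCases (fun j hi => ?_) (fun j _ => ?_) i
    · have := hv j
      rw [Fin.append_left] at hi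
      omega
    · exact ⟨j, Finset.mem_univ _, rfl⟩
  refine (Finset.card_le_card h1).trans ?_
  rw [Finset.card_map]
  simp

/-- The map from the data to the classes. -/
def Phi (y : (ℕ × (Fin 5 → ℕ)) × (Fin 5 → ℕ × (Fin 5 → ℕ)) × (Fin 5 → ℕ)) :
    ℕ × (Fin 5 → ℕ) :=
  (y.1.1 + ∑ t, y.2.2 t * (y.2.1 t).1, fun j => y.1.2 j + ∑ t, y.2.2 t * (y.2.1 t).2 j)

/-- The data. -/
def Omega (K X : ℕ) : Finset ((ℕ × (Fin 5 → ℕ)) × (Fin 5 → ℕ × (Fin 5 → ℕ)) × (Fin 5 → ℕ)) :=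
  ((Finset.range (K + 1)) ×ˢ Fintype.piFinset (fun _ : Fin 5 => Finset.range (K + 1))) ×ˢ
    ((Fintype.piFinset fun _ : Fin 5 => (Finset.range 3) ×ˢ
      Fintype.piFinset (fun _ : Fin 5 => Finset.range 3)) ×ˢ
      Fintype.piFinset (fun _ : Fin 5 => Finset.range (X + 1)))

theorem omega_card (K X : ℕ) : (Omega K X).card = (K + 1) ^ 6 * 3 ^ 30 * (X + 1) ^ 5 := by
  unfold Omega
  simp only [Finset.card_product, Fintype.card_piFinset, Finset.card_range,
    Finset.prod_const, Finset.card_univ, Fintype.card_fin]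
  ring

/-- The classes with an exceptional member of the family are few. -/
theorem count {r m : ℕ} {v : Fin r → ℕ} (hv : ∀ i, v i ≤ m) {X : ℕ} (hX : 1 ≤ X)
    (S : Set (ℕ × (Fin 5 → ℕ)))
    (hS : ∀ x ∈ S, x.1 ≤ X ∧ ∃ P : Fin (r + 5) → Fin 2 → ℂ,
      Exceptional (bd m) P x.1 (Fin.append v x.2)) :
    S.ncard ≤ 2 ^ 5 * 3 ^ 30 * (K1 m r + 1) ^ 6 * X ^ 5 := by
  classical
  have hsub : S ⊆ ↑((Omega (K1 m r) X).image Phi) := by
    intro x hx
    obtain ⟨h1, P, hP⟩ := hS x hx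
    obtain ⟨R0, R, c, N, g1, g2, g3, g4, g5, g6⟩ := exc_data hv hP
    rw [Finset.coe_image, Set.mem_image]
    refine ⟨((R0, R), (c, N)), ?_, ?_⟩
    · rw [Finset.mem_coe]
      unfold Omega
      simp only [Finset.mem_product, Finset.mem_range, Fintype.mem_piFinset]
      refine ⟨⟨by omega, fun j => ?_⟩, fun t => ⟨?_, fun j => ?_⟩, fun t => ?_⟩
      · have := g2 j
        omega
      · have := (g3 t).1
        omega
      · have := (g3 t).2 j
        omega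
      · have := g4 t
        omega
    · unfold Phi
      ext
      · exact g5.symm
      · exact (g6 _).symm
  have h1 := Set.ncard_le_ncard hsub (Finset.finite_toSet _)
  rw [Set.ncard_coe_finset] at h1
  refine h1.trans (Finset.card_image_le.trans ?_)
  rw [omega_card]
  have h2 : (X + 1) ^ 5 ≤ 2 ^ 5 * X ^ 5 := by
    rw [← mul_pow]
    exact Nat.pow_le_pow_left (by omega) 5
  calc (K1 m r + 1) ^ 6 * 3 ^ 30 * (X + 1) ^ 5
      ≤ (K1 m r + 1) ^ 6 * 3 ^ 30 * (2 ^ 5 * X ^ 5) := Nat.mul_le_mul_left _ h2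
    _ = 2 ^ 5 * 3 ^ 30 * (K1 m r + 1) ^ 6 * X ^ 5 := by ring

end Pool.Agent.R66.BX.HHCount
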