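import Pool.Agent.TH167.SH.Defs3

set_option autoImplicit false

/-!
# The exceptional classes have bounded degree
-/

namespace Pool.Agent.R66.BX.Lattice

open MvPolynomial Pool.Agent.TH167.SHDefs

/-- The functional of a class. -/
noncomputable def phi {s : ℕ} (q : ℚ × (Fin s → ℚ)) : (ℚ × (Fin s → ℚ)) →ₗ[ℚ] ℚ where
  toFun p := q.1 * p.1 - ∑ i, q.2 i * p.2 i
  map_add' x y := by
    simp only [Prod.fst_add, Prod.snd_add, Pi.add_apply, mul_add, Finset.sum_add_distrib]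
    ring
  map_smul' c x := by
    simp only [Prod.smul_fst, Prod.smul_snd, Pi.smul_apply, smul_eq_mul, RingHom.id_apply]
    have : ∑ i, q.2 i * (c * x.2 i) = c * ∑ i, q.2 i * x.2 i := by
      rw [Finset.mul_sum]
      exact Finset.sum_congr rfl fun i _ => by ring
    rw [this]
    ring

theorem phi_apply {s : ℕ} (q p : ℚ × (Fin s → ℚ)) :
    phi q p = q.1 * p.1 - ∑ i, q.2 i * p.2 i := rfl

theorem phi_symm {s : ℕ} (q p : ℚ × (Fin s → ℚ)) : phi q p = phi p q := by
  rw [phi_apply, phi_apply, mul_comm]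
  congr 1
  exact Finset.sum_congr rfl fun i _ => mul_comm _ _

/-- Pairwise orthogonal classes of self-intersection `-1`: at most `s`. -/
theorem card_le {s k : ℕ} (e : Fin k → ℕ) (u : Fin k → Fin s → ℕ)
    (hself : ∀ a, inter (e a) (u a) (e a) (u a) = -1)
    (hdis : ∀ a b, a ≠ b → inter (e a) (u a) (e b) (u b) = 0) : k ≤ s := by
  classical
  obtain ⟨x, hx⟩ : ∃ x : Fin k → ℚ × (Fin s → ℚ),
    x = fun a => ((e a : ℚ), fun i => (u a i : ℚ)) := ⟨_, rfl⟩
  have hxx : ∀ a b, phi (x a) (x b) = ((inter (e a) (u a) (e b) (u b) : ℤ) : ℚ) := by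
    intro a b
    rw [phi_apply, hx]
    unfold inter
    push_cast
    rfl
  have h1 : ∀ a, phi (x a) (x a) = -1 := by
    intro a
    rw [hxx, hself]
    norm_num
  have h2 : ∀ a b, a ≠ b → phi (x a) (x b) = 0 := by
    intro a b hab
    rw [hxx, hdis a b hab]
    norm_num
  obtain ⟨H, hH⟩ : ∃ H : ℚ × (Fin s → ℚ), H = ((1 : ℚ), fun _ => (0 : ℚ)) := ⟨_, rfl⟩
  have hHx : ∀ a, phi H (x a) = (e a : ℚ) := by
    intro a
    rw [phi_apply, hH, hx]
    simp
  have hHH : phi H H = 1 := by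
    rw [phi_apply, hH]
    simp
  obtain ⟨y, hy⟩ : ∃ y : ℚ × (Fin s → ℚ), y = H + ∑ a, (e a : ℚ) • x a := ⟨_, rfl⟩
  have hyx : ∀ b, phi (x b) y = 0 := by
    intro b
    rw [hy, map_add, map_sum, phi_symm, hHx]
    have : ∑ a, phi (x b) ((e a : ℚ) • x a) = -(e b : ℚ) := by
      rw [Finset.sum_eq_single b]
      · rw [map_smul, h1, smul_eq_mul]
        ring
      · intro a _ hab
        rw [map_smul, h2 b a (Ne.symm hab), smul_zero]
      · intro h
        exact absurd (Finset.mem_univ _) h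
    rw [this]
    ring
  have hyy : phi y y ≠ 0 := by
    have h3 : phi y y = 1 + ∑ a, (e a : ℚ) ^ 2 := by
      have h4 : phi y y = phi y H := by
        conv_lhs => rw [hy]
        rw [map_add, map_sum, ← hy]
        have : ∑ a, phi y ((e a : ℚ) • x a) = 0 := by
          refine Finset.sum_eq_zero fun a _ => ?_
          rw [map_smul, phi_symm, hyx, smul_zero]
        rw [this, add_zero]
      rw [h4, phi_symm, hy, map_add, map_sum, hHH]
      congr 1
      refine Finset.sum_congr rfl fun a _ => ?_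
      rw [map_smul, hHx, smul_eq_mul]
      ring
    rw [h3]
    have : 0 ≤ ∑ a, (e a : ℚ) ^ 2 := Finset.sum_nonneg fun a _ => sq_nonneg _
    linarith
  obtain ⟨v, hv⟩ : ∃ v : Option (Fin k) → ℚ × (Fin s → ℚ), v = fun o => o.elim y x := ⟨_, rfl⟩
  have hd : ∀ o, phi (v o) (v o) ≠ 0 := by
    intro o
    rw [hv]
    cases o with
    | none => exact hyy
    | some a =>
      simp only [Option.elim_some]
      rw [h1]
      norm_num
  have ho : ∀ o o', o ≠ o' → phi (v o) (v o') = 0 := by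
    intro o o' h
    rw [hv]
    cases o with
    | none =>
      cases o' with
      | none => exact absurd rfl h
      | some a =>
        simp only [Option.elim_some, Option.elim_none]
        rw [phi_symm, hyx]
    | some a =>
      cases o' with
      | none =>
        simp only [Option.elim_some, Option.elim_none]
        exact hyx a
      | some b =>
        simp only [Option.elim_some]
        exact h2 a b fun hab => h (by rw [hab])
  have hli : LinearIndependent ℚ v := by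
    rw [linearIndependent_iff']
    intro t g hg o hot
    have h3 : phi (v o) (∑ j ∈ t, g j • v j) = 0 := by rw [hg, map_zero]
    rw [map_sum, Finset.sum_eq_single o] at h3
    · rw [map_smul, smul_eq_mul] at h3
      exact (mul_eq_zero.1 h3).resolve_right (hd o)
    · intro j _ hj
      rw [map_smul, ho o j (Ne.symm hj), smul_zero]
    · intro h
      exact absurd hot h
  have h4 := hli.fintype_card_le_finrank
  have h5 : Module.finrank ℚ (ℚ × (Fin s → ℚ)) = 1 + s := by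
    rw [Module.finrank_prod, Module.finrank_self, Module.finrank_fin_fun]
  rw [h5] at h4
  simp only [Fintype.card_option, Fintype.card_fin] at h4
  omega

theorem sum3 {s : ℕ} (f : Fin s → ℤ) {i j k : Fin s} (hij : i ≠ j) (hik : i ≠ k) (hjk : j ≠ k)
    (h : ∀ l, l ≠ i → l ≠ j → l ≠ k → f l = 0) : ∑ l, f l = f i + f j + f k := by
  classical
  have h1 : ∑ l ∈ ({i, j, k} : Finset (Fin s)), f l = ∑ l, f l := by
    refine Finset.sum_subset (Finset.subset_univ _) fun l _ hl => ?_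
    simp only [Finset.mem_insert, Finset.mem_singleton, not_or] at hl
    exact h l hl.1 hl.2.1 hl.2.2
  rw [← h1, Finset.sum_insert (by simp [hij, hik]), Finset.sum_insert (by simp [hjk]),
    Finset.sum_singleton]
  ring

/-- The self-intersection. -/
def selfI {s : ℕ} (a : ℕ × (Fin s → ℕ)) : ℤ := (a.1 : ℤ) ^ 2 - ∑ i, (a.2 i : ℤ) ^ 2

/-- The anticanonical degree. -/
def antiK {s : ℕ} (a : ℕ × (Fin s → ℕ)) : ℤ := 3 * (a.1 : ℤ) - ∑ i, (a.2 i : ℤ)

theorem quad_inv {s : ℕ} {a b : ℕ × (Fin s → ℕ)} (h : Quadratic a b) :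
    selfI b = selfI a ∧ antiK b = antiK a := by
  obtain ⟨i, j, k, hij, hik, hjk, h0, hi, hj, hk, hl⟩ := h
  have h1 : ∑ l, ((b.2 l : ℤ) - (a.2 l : ℤ)) =
      ((b.2 i : ℤ) - (a.2 i : ℤ)) + ((b.2 j : ℤ) - (a.2 j : ℤ)) + ((b.2 k : ℤ) - (a.2 k : ℤ)) :=
    sum3 _ hij hik hjk fun l h1 h2 h3 => by rw [hl l h1 h2 h3, sub_self]
  have h2 : ∑ l, ((b.2 l : ℤ) ^ 2 - (a.2 l : ℤ) ^ 2) =
      ((b.2 i : ℤ) ^ 2 - (a.2 i : ℤ) ^ 2) + ((b.2 j : ℤ) ^ 2 - (a.2 j : ℤ) ^ 2) +
        ((b.2 k : ℤ) ^ 2 - (a.2 k : ℤ) ^ 2) :=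
    sum3 _ hij hik hjk fun l h1 h2 h3 => by rw [hl l h1 h2 h3, sub_self]
  rw [Finset.sum_sub_distrib] at h1 h2
  unfold selfI antiK
  rw [hi, hj, hk] at h1 h2
  rw [h0]
  constructor
  · linear_combination -h2
  · linear_combination -h1

theorem quads_inv {s : ℕ} {a b : ℕ × (Fin s → ℕ)} (h : Relation.ReflTransGen Quadratic a b) :
    selfI b = selfI a ∧ antiK b = antiK a := by
  induction h with
  | refl => exact ⟨rfl, rfl⟩
  | tail _ hq ih =>
    have := quad_inv hq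
    exact ⟨this.1.trans ih.1, this.2.trans ih.2⟩

/-- Bounds for a small standard class. -/
theorem small_bounds {s B d : ℕ} (hs : 3 ≤ s) {w : Fin s → ℕ}
    (hstd : ∀ i j k : Fin s, i ≠ j → i ≠ k → j ≠ k → w i + w j + w k ≤ d) (hd : d < B)
    (hc : (Finset.univ.filter fun i => w i ≠ 0).card < B + 3) :
    antiK (d, w) ≤ 3 * (B : ℤ) ∧ -(B : ℤ) ^ 3 ≤ selfI (d, w) := by
  classical
  have hle : ∀ i, w i ≤ d := by
    intro i
    obtain ⟨j, hj⟩ : ∃ j, j ∈ (Finset.univ.erase i : Finset (Fin s)) := by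
      apply Finset.Nonempty.exists_mem
      rw [← Finset.card_pos, Finset.card_erase_of_mem (Finset.mem_univ _), Finset.card_univ,
        Fintype.card_fin]
      omega
    obtain ⟨k, hk⟩ : ∃ k, k ∈ ((Finset.univ.erase i).erase j : Finset (Fin s)) := by
      apply Finset.Nonempty.exists_mem
      rw [← Finset.card_pos, Finset.card_erase_of_mem hj,
        Finset.card_erase_of_mem (Finset.mem_univ _), Finset.card_univ, Fintype.card_fin]
      omega
    rw [Finset.mem_erase] at hj hk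
    have h1 := hk.2
    rw [Finset.mem_erase] at h1
    have := hstd i j k (Ne.symm hj.1) (Ne.symm h1.1) (Ne.symm hk.1)
    omega
  constructor
  · unfold antiK
    have h1 : (0 : ℤ) ≤ ∑ i, (w i : ℤ) := Finset.sum_nonneg fun i _ => Int.natCast_nonneg _
    have h2 : (d : ℤ) ≤ B := by exact_mod_cast hd.le
    simp only
    linarith
  · have h1 : ∑ i, (w i) ^ 2 ≤ (B + 2) * d ^ 2 := by
      calc ∑ i, (w i) ^ 2 = ∑ i ∈ Finset.univ.filter (fun i => w i ≠ 0), (w i) ^ 2 := by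
            rw [Finset.sum_filter]
            refine Finset.sum_congr rfl fun i _ => ?_
            split_ifs with h
            · rfl
            · push Not at h
              rw [h]
              rfl
        _ ≤ ∑ _i ∈ Finset.univ.filter (fun i => w i ≠ 0), d ^ 2 :=
            Finset.sum_le_sum fun i _ => Nat.pow_le_pow_left (hle i) 2
        _ = (Finset.univ.filter fun i => w i ≠ 0).card * d ^ 2 := by
            rw [Finset.sum_const, smul_eq_mul]
        _ ≤ (B + 2) * d ^ 2 := Nat.mul_le_mul_right _ (by omega)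
    have h2 : (∑ i, (w i : ℤ) ^ 2) ≤ ((B : ℤ) + 2) * (d : ℤ) ^ 2 := by exact_mod_cast h1
    unfold selfI
    simp only
    have h3 : (0 : ℤ) ≤ d := Int.natCast_nonneg _
    have h4 : (d : ℤ) + 1 ≤ B := by exact_mod_cast hd
    have h5 : ((B : ℤ) + 1) * (d : ℤ) ^ 2 ≤ (B : ℤ) ^ 3 := by
      have h6 : (d : ℤ) ^ 2 ≤ ((B : ℤ) - 1) ^ 2 := by
        apply pow_le_pow_left₀ h3
        linarith
      have h7 : ((B : ℤ) + 1) * (d : ℤ) ^ 2 ≤ ((B : ℤ) + 1) * ((B : ℤ) - 1) ^ 2 :=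
        mul_le_mul_of_nonneg_left h6 (by linarith)
      nlinarith [sq_nonneg ((B : ℤ) - 1)]
    linarith

theorem inter_symm {s : ℕ} (d : ℕ) (w : Fin s → ℕ) (e : ℕ) (u : Fin s → ℕ) :
    inter d w e u = inter e u d w := by
  unfold inter
  rw [mul_comm (d : ℤ)]
  congr 1
  exact Finset.sum_congr rfl fun i _ => mul_comm _ _

theorem inter_decomp {s d d' k : ℕ} {w w' : Fin s → ℕ} {e : Fin k → ℕ} {u : Fin k → Fin s → ℕ}
    (hd : d = d' + ∑ a, 1 * e a) (hw : ∀ i, w i = w' i + ∑ a, 1 * u a i) (x : ℕ) (g : Fin s → ℕ) :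
    inter d w x g = inter d' w' x g + ∑ a, inter (e a) (u a) x g := by
  unfold inter
  rw [Finset.sum_sub_distrib, hd]
  have h1 : ∑ i, (w i : ℤ) * g i = ∑ i, (w' i : ℤ) * g i + ∑ a, ∑ i, (u a i : ℤ) * g i := by
    rw [Finset.sum_comm, ← Finset.sum_add_distrib]
    refine Finset.sum_congr rfl fun i _ => ?_
    rw [hw i, ← Finset.sum_mul]
    push_cast
    simp only [one_mul]
    ring
  rw [h1, ← Finset.sum_mul]
  push_cast
  simp only [one_mul]
  ring

/-- The degree is bounded in terms of the self-intersection and the anticanonical degree. -/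
theorem bound_of {s m k d : ℕ} {w : Fin s → ℕ} (hw : FewLarge m d w)
    (b1 : antiK (d, w) ≤ 3 * (bd m : ℤ) + k) (b2 : -(bd m : ℤ) ^ 3 - k ≤ selfI (d, w)) :
    d < 2 ^ 27 * (4 * m ^ 2 + 8 * m + 5) ^ 6 + 3 * k +
      2 * ∑ i, (if m < w i then 0 else w i) := by
  classical
  -- large and small multiplicities
  obtain ⟨σ, hσ⟩ : ∃ σ, σ = ∑ i, (if m < w i then 0 else w i) := ⟨_, rfl⟩
  obtain ⟨L, hL⟩ : ∃ L, L = Finset.univ.filter fun i => m < w i := ⟨_, rfl⟩
  have hsum : (∑ i, (w i : ℤ)) = ((∑ i ∈ L, w i : ℕ) : ℤ) + σ := by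
    have h1 : ∑ i, w i = ∑ i ∈ L, w i + σ := by
      rw [hL, hσ, Finset.sum_filter, ← Finset.sum_add_distrib]
      refine Finset.sum_congr rfl fun i _ => ?_
      split_ifs <;> omega
    have h2 : ((∑ i, w i : ℕ) : ℤ) = ((∑ i ∈ L, w i : ℕ) : ℤ) + σ := by exact_mod_cast h1
    rw [← h2]
    push_cast
    rfl
  have hsq : ((∑ i ∈ L, (w i) ^ 2 : ℕ) : ℤ) ≤ ∑ i, (w i : ℤ) ^ 2 := by
    have h1 : ∑ i ∈ L, (w i) ^ 2 ≤ ∑ i, (w i) ^ 2 :=
      Finset.sum_le_sum_of_subset_of_nonneg (Finset.subset_univ _) fun _ _ _ => Nat.zero_le _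
    have h2 : ((∑ i, (w i) ^ 2 : ℕ) : ℤ) = ∑ i, (w i : ℤ) ^ 2 := by
      push_cast
      rfl
    rw [← h2]
    exact_mod_cast h1
  obtain ⟨c, hcdef⟩ : ∃ c, c = 4 * m ^ 2 + 8 * m + 5 := ⟨_, rfl⟩
  have hc1 : 1 ≤ c := by omega
  have hB : bd m = 131072 * c ^ 4 := by rw [hcdef]; rfl
  rw [← hcdef, ← hσ]
  by_contra hcon
  push Not at hcon
  obtain ⟨B, hBd⟩ : ∃ B : ℤ, B = (bd m : ℤ) := ⟨_, rfl⟩
  rw [← hBd] at b1 b2
  have hB2 : B = 131072 * (c : ℤ) ^ 4 := by
    rw [hBd, hB]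
    push_cast
    rfl
  have hc1' : (1 : ℤ) ≤ c := by exact_mod_cast hc1
  obtain ⟨A, hA⟩ : ∃ A : ℤ, A = (d : ℤ) := ⟨_, rfl⟩
  obtain ⟨S, hS⟩ : ∃ S : ℤ, S = ((∑ i ∈ L, w i : ℕ) : ℤ) := ⟨_, rfl⟩
  obtain ⟨Q, hQ⟩ : ∃ Q : ℤ, Q = ((∑ i ∈ L, (w i) ^ 2 : ℕ) : ℤ) := ⟨_, rfl⟩
  have f1 : 3 * A - S - σ ≤ 3 * B + k := by
    have h1 : antiK (d, w) = 3 * A - (S + σ) := by
      unfold antiK
      simp only
      rw [hsum, hA, hS]
    linarith
  have f2 : -B ^ 3 - k ≤ A ^ 2 - Q := by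
    have h1 : selfI (d, w) = A ^ 2 - ∑ i, (w i : ℤ) ^ 2 := by
      unfold selfI
      simp only
      rw [hA]
    linarith
  have hσ0 : (0 : ℤ) ≤ σ := Int.natCast_nonneg _
  have hs0 : (0 : ℤ) ≤ k := Int.natCast_nonneg _
  have hcon' : 2 ^ 27 * (c : ℤ) ^ 6 + 3 * k + 2 * σ ≤ A := by
    rw [hA]
    exact_mod_cast hcon
  have hc46 : (c : ℤ) ^ 4 ≤ (c : ℤ) ^ 6 := pow_le_pow_right₀ hc1' (by norm_num)
  have hc6 : (1 : ℤ) ≤ (c : ℤ) ^ 6 := one_le_pow₀ hc1'
  obtain ⟨T, hT⟩ : ∃ T : ℤ, T = (c : ℤ) ^ 6 := ⟨_, rfl⟩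
  rw [← hT] at hcon' hc46 hc6
  have hB3 : B ^ 3 = 2 ^ 51 * T ^ 2 := by
    rw [hB2, hT]
    ring
  have hBT : B ≤ 131072 * T := by
    rw [hB2]
    linarith
  rcases hw with h5 | h5
  · have h6 : S ^ 2 ≤ 5 * Q := by
      have h7 : (∑ i ∈ L, w i) ^ 2 ≤ L.card * ∑ i ∈ L, (w i) ^ 2 := sq_sum_le_card_mul_sum_sq
      have h8 : (∑ i ∈ L, w i) ^ 2 ≤ 5 * ∑ i ∈ L, (w i) ^ 2 :=
        h7.trans (Nat.mul_le_mul_right _ (by rw [hL]; exact h5))
      rw [hS, hQ]
      exact_mod_cast h8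
    -- `S ≥ 3 A - (3 B + k + σ)`
    obtain ⟨U, hU⟩ : ∃ U : ℤ, U = 3 * B + k + σ := ⟨_, rfl⟩
    obtain ⟨X, hX⟩ : ∃ X : ℤ, X = 67108864 * T + k := ⟨_, rfl⟩
    have h7 : 3 * A - U ≤ S := by
      rw [hU]
      linarith
    have h8 : 2 * X + 3 * U ≤ 2 * A := by
      rw [hU, hX]
      linarith
    have hB0 : 0 ≤ B := by
      rw [hB2]
      positivity
    have hU0 : 0 ≤ U := by
      rw [hU]
      linarith
    have hX0 : 0 ≤ X := by
      rw [hX]
      linarith
    have h9 : 0 ≤ 3 * A - U := by linarith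
    have h10 : (3 * A - U) ^ 2 ≤ 5 * (A ^ 2 + B ^ 3 + k) := by
      have h11 : (3 * A - U) ^ 2 ≤ S ^ 2 := pow_le_pow_left₀ h9 h7 2
      linarith
    have h12 : 4 * A ^ 2 - 6 * A * U ≤ 5 * (B ^ 3 + k) := by
      have h13 : (3 * A - U) ^ 2 = 9 * A ^ 2 - 6 * A * U + U ^ 2 := by ring
      have h14 : 0 ≤ U ^ 2 := sq_nonneg U
      linarith
    have h13 : 0 ≤ A := by linarith
    have h14 : X ≤ A := by linarith
    have h15 : 4 * X ^ 2 ≤ 4 * A ^ 2 - 6 * A * U := by
      have h16 : 2 * A * (2 * X) ≤ 2 * A * (2 * A - 3 * U) :=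
        mul_le_mul_of_nonneg_left (by linarith) (by linarith)
      have h17 : X * X ≤ A * X := mul_le_mul_of_nonneg_right h14 hX0
      have h18 : 2 * A * (2 * A - 3 * U) = 4 * A ^ 2 - 6 * A * U := by ring
      have h19 : 4 * X ^ 2 = 4 * (X * X) := by ring
      have h20 : 2 * A * (2 * X) = 4 * (A * X) := by ring
      linarith
    have h16 : 2 ^ 52 * T ^ 2 + (k : ℤ) ^ 2 ≤ X ^ 2 := by
      have h17 : X ^ 2 = 2 ^ 52 * T ^ 2 + (k : ℤ) ^ 2 + 134217728 * (T * k) := by
        rw [hX]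
        ring
      have h18 : 0 ≤ T * (k : ℤ) := mul_nonneg (by linarith) (by linarith)
      linarith
    have h17 : 5 * (k : ℤ) ≤ 4 * (k : ℤ) ^ 2 + 1 := by
      rcases Nat.eq_zero_or_pos k with h18 | h18
      · rw [h18]
        norm_num
      · have h19 : (1 : ℤ) ≤ k := by exact_mod_cast h18
        nlinarith
    have h18 : 1 ≤ T ^ 2 := one_le_pow₀ hc6
    rw [hB3] at h12
    linarith
  · have h6 : (∑ i, if m < w i then w i else 0) = ∑ i ∈ L, w i := by
      rw [hL, Finset.sum_filter]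
    rw [h6] at h5
    have h7 : S + c ≤ 2 * A := by
      rw [hS, hA, hcdef]
      exact_mod_cast h5
    linarith

/-- The exceptional classes have bounded degree. -/
theorem exc_lt {K : Type} [Field K] {s m : ℕ} (hs : 3 ≤ s) {P : Fin s → Fin 2 → K} {d : ℕ}
    {w : Fin s → ℕ} (hw : FewLarge m d w) (hE : ExceptionalOne (bd m) P d w) :
    d < 2 ^ 27 * (4 * m ^ 2 + 8 * m + 5) ^ 6 + 3 * s +
      2 * ∑ i, (if m < w i then 0 else w i) := by
  classical
  obtain ⟨d', w', k, G, e, u, d1, w1, hD, ⟨hq, hstd, hd1, hc⟩, -, -, -, -⟩ := hE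
  have hk : k ≤ s := card_le e u (fun a => (hD.curve a).self) hD.disjoint
  obtain ⟨b1, b2⟩ := small_bounds hs hstd hd1 hc
  obtain ⟨c1, c2⟩ := quads_inv hq
  have hself : ∀ (x : ℕ) (g : Fin s → ℕ), inter x g x g = selfI (x, g) := by
    intro x g
    unfold inter selfI
    simp only [sq]
  have e1 : selfI (d, w) = selfI (d', w') - k := by
    have h1 := inter_decomp hD.degree hD.mult
    rw [← hself, h1 d w, inter_symm d' w' d w, h1 d' w', hself]
    have h2 : ∑ a, inter (e a) (u a) d' w' = 0 :=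
      Finset.sum_eq_zero fun a _ => by rw [inter_symm]; exact hD.orthogonal a
    have h3 : ∑ a, inter (e a) (u a) d w = -(k : ℤ) := by
      have h4 : ∀ a, inter (e a) (u a) d w = -1 := by
        intro a
        rw [inter_symm, h1 (e a) (u a), hD.orthogonal a, zero_add, Finset.sum_eq_single a]
        · exact (hD.curve a).self
        · intro b _ hb
          exact hD.disjoint b a hb
        · intro h
          exact absurd (Finset.mem_univ _) h
      rw [Finset.sum_congr rfl fun a _ => h4 a, Finset.sum_const, Finset.card_univ,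
        Fintype.card_fin]
      simp
    rw [h2, h3]
    ring
  have e2 : antiK (d, w) = antiK (d', w') + k := by
    unfold antiK
    simp only
    have h4 : ∀ a, 3 * (e a : ℤ) - ∑ i, (u a i : ℤ) = 1 := by
      intro a
      have := (hD.curve a).canonical
      unfold interK at this
      linarith
    have h5 : ∑ a, (3 * (e a : ℤ) - ∑ i, (u a i : ℤ)) = (k : ℤ) := by
      rw [Finset.sum_congr rfl fun a _ => h4 a, Finset.sum_const, Finset.card_univ,
        Fintype.card_fin]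
      simp
    rw [Finset.sum_sub_distrib, ← Finset.mul_sum, Finset.sum_comm] at h5
    have h6 : ∑ i, (w i : ℤ) = ∑ i, (w' i : ℤ) + ∑ i, ∑ a, (u a i : ℤ) := by
      rw [← Finset.sum_add_distrib]
      refine Finset.sum_congr rfl fun i _ => ?_
      rw [hD.mult i]
      push_cast
      simp only [one_mul]
    rw [h6, hD.degree]
    push_cast
    simp only [one_mul]
    linarith
  have h1 := bound_of (k := k) hw (by linarith) (by linarith)
  omega

end Pool.Agent.R66.BX.Lattice
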