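import Pool.Agent.R66.BX.Five
import Pool.Agent.R66.BX.FinExc

set_option autoImplicit false

/-!
# Boxes of classes, and many special classes
-/

namespace Pool.Agent.R66.BX.Many

open MvPolynomial Pool.Agent.TH167 Pool.Agent.R66.BX.FinExc

/-- The pairs `(d, a)` with `1 ≤ d ≤ D` and `1 ≤ a j ≤ D` for the five numbers `a j`. -/
def box (D : ℕ) : Set (ℕ × (Fin 5 → ℕ)) := {x | 1 ≤ x.1 ∧ x.1 ≤ D ∧ ∀ j, 1 ≤ x.2 j ∧ x.2 j ≤ D}

/-- The class of degree `x.1` with the multiplicities `v` and `x.2` is special at general points. -/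
def IsSpecial {r : ℕ} (v : Fin r → ℕ) (x : ℕ × (Fin 5 → ℕ)) : Prop :=
  ForGeneral fun P => SHDefs.Special P x.1 (Fin.append v x.2)

theorem _root_.Pool.Agent.R66.BX.Five.ForGeneral.toC2 {n : ℕ} {p : (Fin n → Fin 2 → ℂ) → Prop}
    (h : Pool.Agent.R66.BX.Five.ForGeneral p) : ForGeneral p := by
  obtain ⟨F, hF, h1⟩ := h
  refine ⟨MvPolynomial.map (algebraMap ℚ ℂ) F, ?_, fun P hP => h1 P ?_⟩
  · intro h0
    apply hF
    apply MvPolynomial.map_injective _ (algebraMap ℚ ℂ).injective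
    rw [h0, map_zero]
  · rw [MvPolynomial.eval_map] at hP
    exact hP

theorem filter_eq (D : ℕ) (p : ℕ × (Fin 5 → ℕ) → Prop) [DecidablePred p] :
    {x ∈ box D | p x} =
      ↑(((Finset.Icc 1 D) ×ˢ Fintype.piFinset (fun _ : Fin 5 => Finset.Icc 1 D)).filter p) := by
  ext x
  rw [Finset.mem_coe, Finset.mem_filter, Finset.mem_product, Finset.mem_Icc, Fintype.mem_piFinset]
  constructor
  · rintro ⟨⟨h1, h2, h3⟩, h4⟩
    exact ⟨⟨⟨h1, h2⟩, fun j => Finset.mem_Icc.2 (h3 j)⟩, h4⟩
  · rintro ⟨⟨⟨h1, h2⟩, h3⟩, h4⟩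
    exact ⟨⟨h1, h2, fun j => Finset.mem_Icc.1 (h3 j)⟩, h4⟩

open Pool.Agent.R66.BX.Five in
/-- A positive proportion is special. -/
theorem many_special {r : ℕ} (v : Fin r → ℕ) (D : ℕ) (hD : 16 ≤ D)
    (hV : ∑ i, (v i + 1).choose 2 ≤ (D / 16) ^ 2) :
    Set.ncard (box D) ≤ 2 ^ 23 * Set.ncard {x ∈ box D | IsSpecial v x} := by
  classical
  obtain ⟨n, hn⟩ : ∃ n, n = D / 16 := ⟨_, rfl⟩
  rw [← hn] at hV
  have hn1 : 1 ≤ n := by omega
  have hn2 : 16 * n ≤ D := by omega
  have hn3 : D ≤ 32 * n := by omega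
  have hbox : Set.ncard (box D) = D ^ 6 := by
    have h := filter_eq D (fun _ => True)
    have h' : {x ∈ box D | True} = box D := by
      ext x
      simp
    rw [h'] at h
    rw [h, Set.ncard_coe_finset, Finset.filter_true, Finset.card_product,
      Fintype.card_piFinset]
    simp
    ring
  -- good classes
  have hgood : ∀ d a, 12 * n < d → d ≤ 16 * n →
      (∀ j : Fin 5, a j ∈ (if (j : ℕ) ≤ 1 then Finset.Ioc (d - 6 * n) (d - 4 * n)
        else Finset.Icc 1 (2 * n))) → IsSpecial v (d, a) := by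
    intro d a hd1 hd2 ha
    have a0 := ha 0
    have a1 := ha 1
    have a2 := ha 2
    have a3 := ha 3
    have a4 := ha 4
    rw [if_pos (by decide), Finset.mem_Ioc] at a0 a1
    rw [if_neg (by decide), Finset.mem_Icc] at a2 a3 a4
    obtain ⟨x, hx⟩ : ∃ x, x = d - a 0 := ⟨_, rfl⟩
    obtain ⟨y, hy⟩ : ∃ y, y = d - a 1 := ⟨_, rfl⟩
    obtain ⟨k, hk⟩ : ∃ k, k = a 0 + a 1 - d := ⟨_, rfl⟩
    have hk2 : 2 ≤ k := by omega
    have e0 : a 0 = y + k := by omega
    have e1 : a 1 = x + k := by omega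
    have ed : d = x + y + k := by omega
    have hch : ∀ t : ℕ, t ≤ 2 * n → (t + 1).choose 2 ≤ 2 * n ^ 2 + n := by
      intro t ht
      have h1 : (t + 1).choose 2 ≤ (2 * n + 1).choose 2 := Nat.choose_le_choose 2 (by omega)
      have h2 : 2 * (2 * n + 1).choose 2 = (2 * n) * (2 * n + 1) :=
        Pool.Agent.TH885.CO.two_choose1 (2 * n)
      nlinarith
    have hx4 : 4 * n ≤ x := by omega
    have hy4 : 4 * n ≤ y := by omega
    have hlt : (a 2 + 1).choose 2 + (a 3 + 1).choose 2 + (a 4 + 1).choose 2 +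
        ∑ i, (v i + 1).choose 2 < (x + 1) * (y + 1) := by
      have b2 := hch (a 2) a2.2
      have b3 := hch (a 3) a3.2
      have b4 := hch (a 4) a4.2
      have h3 : (4 * n + 1) * (4 * n + 1) ≤ (x + 1) * (y + 1) :=
        Nat.mul_le_mul (by omega) (by omega)
      nlinarith
    have h := (special_gen (v := v) (x := x) (y := y) (k := k) (a := a) hk2 e0 e1 hlt).toC2
    rw [← ed] at h
    exact h
  rw [hbox, filter_eq, Set.ncard_coe_finset]
  have hcount : (((Finset.Icc 1 D) ×ˢ Fintype.piFinset (fun _ : Fin 5 => Finset.Icc 1 D)).filter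
      fun x => IsSpecial v x).card =
      ∑ d ∈ Finset.Icc 1 D, ((Fintype.piFinset (fun _ : Fin 5 => Finset.Icc 1 D)).filter
        fun a => IsSpecial v (d, a)).card := by
    rw [Finset.card_filter, Finset.sum_product]
    refine Finset.sum_congr rfl fun a _ => ?_
    rw [Finset.card_filter]
  rw [hcount]
  have hsubD : Finset.Ioc (12 * n) (16 * n) ⊆ Finset.Icc 1 D := by
    intro d hd
    rw [Finset.mem_Ioc] at hd
    rw [Finset.mem_Icc]
    omega
  have hlow : 128 * n ^ 6 ≤ ∑ d ∈ Finset.Icc 1 D,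
      ((Fintype.piFinset (fun _ : Fin 5 => Finset.Icc 1 D)).filter
        fun a => IsSpecial v (d, a)).card := by
    refine le_trans ?_ (Finset.sum_le_sum_of_subset hsubD)
    have hd : ∀ d ∈ Finset.Ioc (12 * n) (16 * n), (2 * n) ^ 5 ≤
        ((Fintype.piFinset (fun _ : Fin 5 => Finset.Icc 1 D)).filter
          fun a => IsSpecial v (d, a)).card := by
      intro d hd
      rw [Finset.mem_Ioc] at hd
      have hsub : Fintype.piFinset (fun j : Fin 5 => if (j : ℕ) ≤ 1 then
          Finset.Ioc (d - 6 * n) (d - 4 * n) else Finset.Icc 1 (2 * n)) ⊆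
          (Fintype.piFinset (fun _ : Fin 5 => Finset.Icc 1 D)).filter
            fun a => IsSpecial v (d, a) := by
        intro a ha
        rw [Fintype.mem_piFinset] at ha
        rw [Finset.mem_filter, Fintype.mem_piFinset]
        refine ⟨fun j => ?_, hgood d a hd.1 hd.2 ha⟩
        have h := ha j
        rw [Finset.mem_Icc]
        split_ifs at h
        · rw [Finset.mem_Ioc] at h
          omega
        · rw [Finset.mem_Icc] at h
          omega
      have h1 := Finset.card_le_card hsub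
      rw [Fintype.card_piFinset] at h1
      refine le_trans (le_of_eq ?_) h1
      have h2 : ∀ j : Fin 5, (if (j : ℕ) ≤ 1 then
          Finset.Ioc (d - 6 * n) (d - 4 * n) else Finset.Icc 1 (2 * n)).card = 2 * n := by
        intro j
        split_ifs
        · rw [Nat.card_Ioc]
          omega
        · rw [Nat.card_Icc]
          omega
      rw [Finset.prod_congr rfl fun j _ => h2 j]
      simp
    calc 128 * n ^ 6 = ∑ _d ∈ Finset.Ioc (12 * n) (16 * n), (2 * n) ^ 5 := by
          rw [Finset.sum_const, Nat.card_Ioc, smul_eq_mul]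
          have : 16 * n - 12 * n = 4 * n := by omega
          rw [this]
          ring
      _ ≤ _ := Finset.sum_le_sum hd
  calc D ^ 6 ≤ (32 * n) ^ 6 := Nat.pow_le_pow_left hn3 6
    _ = 2 ^ 23 * (128 * n ^ 6) := by ring
    _ ≤ _ := Nat.mul_le_mul_left _ hlow

end Pool.Agent.R66.BX.Many
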