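import Pool.Agent.Y210.EF.Expo

set_option autoImplicit false

/-!
# Explicit points with algebraically independent coordinates
(the argument of `Pool.Agent.Results.MP_d3128a_ag.ExplicitConfiguration`, repeated here to keep the
imports small)
-/

namespace Pool.Agent.R66.BX

open MvPolynomial

/-- The `n` points with the affine coordinates `exp (2 ^ (k / (2 n)))`, `k = 0, 1, …, 2 n - 1`. -/
noncomputable def explicitPoints (n : ℕ) : Fin n → Fin 2 → ℂ := fun i j =>
  Complex.exp (((2 : ℝ) ^ (((2 * (i : ℕ) + (j : ℕ) : ℕ) : ℝ) / (2 * n)) : ℝ) : ℂ)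

theorem clear {σ : Type*} (F : MvPolynomial σ ℚ) : ∃ (N : ℕ) (G : MvPolynomial σ ℤ), 0 < N ∧
    G.map (Int.castRingHom ℚ) = C (N : ℚ) * F := by
  induction F using MvPolynomial.induction_on with
  | C a =>
    refine ⟨a.den, C a.num, a.den_pos, ?_⟩
    rw [map_C, ← C_mul]
    congr 1
    rw [mul_comm]
    exact (Rat.mul_den_eq_num a).symm
  | add p q hp hq =>
    obtain ⟨N1, G1, h1, e1⟩ := hp
    obtain ⟨N2, G2, h2, e2⟩ := hq
    refine ⟨N1 * N2, C (N2 : ℤ) * G1 + C (N1 : ℤ) * G2, Nat.mul_pos h1 h2, ?_⟩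
    rw [map_add, map_mul, map_mul, map_C, map_C, e1, e2]
    push_cast
    rw [C_mul]
    simp only [eq_intCast, Int.cast_natCast]
    ring
  | mul_X p i hp =>
    obtain ⟨N, G, h1, e1⟩ := hp
    refine ⟨N, G * X i, h1, ?_⟩
    rw [map_mul, map_X, e1]
    ring

theorem explicit_indep {n : ℕ} (hn : 1 ≤ n) :
    AlgebraicIndependent ℚ (fun ij : Fin n × Fin 2 => explicitPoints n ij.1 ij.2) := by
  rw [algebraicIndependent_iff]
  intro F hF
  by_contra hne
  obtain ⟨N, G, hN, hG⟩ := clear F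
  have hG0 : G ≠ 0 := by
    rintro rfl
    rw [map_zero] at hG
    have h1 : C (N : ℚ) * F ≠ 0 := mul_ne_zero (by
      rw [Ne, C_eq_zero]
      exact_mod_cast hN.ne') hne
    exact h1 hG.symm
  apply Pool.Agent.Y210.EF.exp_points hn hG0
  have h1 : MvPolynomial.aeval (fun ij : Fin n × Fin 2 => explicitPoints n ij.1 ij.2)
      (G.map (Int.castRingHom ℚ)) = 0 := by
    rw [hG, map_mul, hF, mul_zero]
  rw [MvPolynomial.aeval_def, MvPolynomial.eval₂_map] at h1
  have h2 : (algebraMap ℚ ℂ).comp (Int.castRingHom ℚ) = Int.castRingHom ℂ := RingHom.ext_int _ _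
  rw [h2] at h1
  exact h1

end Pool.Agent.R66.BX
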