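import Pool.Agent.R66.BX.Win

set_option autoImplicit false

/-!
# Prime divisors with five arbitrary multiplicities
-/

namespace Pool.Agent.R66.BX.Prime5

open MvPolynomial Pool.Agent.TH167 Pool.Agent.TH885.CO Pool.Agent.W609.CR Pool.Agent.R66.BX.Five

theorem cnd_of {r m d : ℕ} {v : Fin r → ℕ} (hv : ∀ i, v i ≤ m)
    (a : Fin 5 → ℕ) (h2 : ∀ i j, i ≠ j → a i + a j + (2 * m ^ 2 + 3 * m + 2) ≤ d)
    (h5 : ∑ i, a i + (4 * m ^ 2 + 8 * m + 5) ≤ 2 * d) :
    Pool.Agent.W611.Cnd m d (Fin.append v a) := by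
  have hf : Pool.Agent.W611.ff m = 2 * m ^ 2 + 3 * m + 2 := by
    unfold Pool.Agent.W611.ff
    ring
  refine ⟨?_, ?_, ?_, ?_⟩
  · have := h2 0 1 (by decide)
    rw [hf]
    omega
  · intro i
    refine Fin.addCases (fun j => ?_) (fun k => ?_) i
    · rw [Fin.append_left]
      intro h
      have := hv j
      omega
    · rw [Fin.append_right, hf]
      intro _
      obtain ⟨l, hl⟩ : ∃ l : Fin 5, k ≠ l := by
        by_cases h0 : k = 0
        · exact ⟨1, by rw [h0]; decide⟩
        · exact ⟨0, h0⟩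
      have := h2 k l hl
      omega
  · intro i j
    refine Fin.addCases (fun i' => ?_) (fun i' => ?_) i
    · rw [Fin.append_left]
      intro _ h
      have := hv i'
      omega
    · refine Fin.addCases (fun j' => ?_) (fun j' => ?_) j
      · rw [Fin.append_left]
        intro _ _ h
        have := hv j'
        omega
      · rw [Fin.append_right, Fin.append_right, hf]
        intro hne _ _
        have h3 : i' ≠ j' := fun h => hne (by rw [h])
        exact h2 i' j' h3
  · right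
    have hS : Pool.Agent.W611.Slg m (Fin.append v a) ≤ ∑ i, a i := by
      unfold Pool.Agent.W611.Slg
      rw [Fin.sum_univ_add]
      have h6 : ∑ i : Fin r, (if Fin.append v a (Fin.castAdd 5 i) ≤ m then 0
          else Fin.append v a (Fin.castAdd 5 i)) = 0 := by
        refine Finset.sum_eq_zero fun i _ => ?_
        rw [Fin.append_left, if_pos (hv i)]
      rw [h6, zero_add]
      refine Finset.sum_le_sum fun i _ => ?_
      rw [Fin.append_right]
      split_ifs <;> omega
    rw [hf]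
    omega

theorem aeval_ne {K : Type} [Field K] [CharZero K] {n : ℕ} {P : Fin n → Fin 2 → K}
    (hP : AlgebraicIndependent ℚ (fun ij : Fin n × Fin 2 => P ij.1 ij.2))
    {F : MvPolynomial (Fin n × Fin 2) ℚ} (hF : F ≠ 0) :
    MvPolynomial.aeval (fun ij : Fin n × Fin 2 => P ij.1 ij.2) F ≠ 0 := by
  intro h
  apply hF
  rw [algebraicIndependent_iff_injective_aeval] at hP
  apply hP
  rw [h, map_zero]

theorem inj_of {K : Type} [Field K] [CharZero K] {n : ℕ} {P : Fin n → Fin 2 → K}
    (hP : AlgebraicIndependent ℚ (fun ij : Fin n × Fin 2 => P ij.1 ij.2)) :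
    Function.Injective P := by
  intro i j hij
  by_contra hne
  have h1 := hP.injective (a₁ := (i, 0)) (a₂ := (j, 0)) (by simp only; rw [hij])
  exact hne (congrArg Prod.fst h1)

/-- An irreducible curve does not meet a `(-1)`-curve in less than `-1` points. -/
theorem no_curve {K : Type} [Field K] [CharZero K] {n d : ℕ} (hn : ∃ q, n = q + 4)
    {P : Fin n → Fin 2 → K}
    (hP : AlgebraicIndependent ℚ (fun ij : Fin n × Fin 2 => P ij.1 ij.2))
    {w : Fin n → ℕ} {G : MvPolynomial (Fin 3) K} (hG : SHDefs.Curve P G d w) {e : ℕ}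
    {u : Fin n → ℕ}
    (hex : ∃ (K : Type) (_ : Field K) (_ : CharZero K) (P : Fin n → Fin 2 → K)
      (C : MvPolynomial (Fin 3) K),
      AlgebraicIndependent ℚ (fun ij : Fin n × Fin 2 => P ij.1 ij.2) ∧
        Pool.Agent.TH885.CO.Exc P C e u)
    (h : Pool.Agent.TH885.CO.ip d w e u ≤ -2) : False := by
  obtain ⟨q, rfl⟩ := hn
  obtain ⟨F, hF, hF'⟩ := exc_spread e u hex
  obtain ⟨C, hC⟩ := hF' K P (aeval_ne hP hF)
  obtain ⟨h1, h2, h3⟩ := SH.curve_iff.1 hG
  have hmem : G ∈ VS (fun j => aff (P j)) w d := by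
    rw [SH.mem_VS]
    exact ⟨h2, fun j => (h3 j).1⟩
  have h4 := exc_pow_dvd (inj_of hP) hC 2 d w h G hmem
  rw [sq] at h4
  exact hC.irr.not_isUnit (h1.squarefree C h4)

theorem line_ip {n d : ℕ} {w : Fin n → ℕ} {i j : Fin n} (hij : i ≠ j)
    (h : d + 2 ≤ w i + w j) :
    Pool.Agent.TH885.CO.ip d w 1 (fun l => if l = i ∨ l = j then 1 else 0) ≤ -2 := by
  classical
  unfold Pool.Agent.TH885.CO.ip
  have h1 : ∑ l, (w l : ℤ) * ((if l = i ∨ l = j then 1 else 0 : ℕ) : ℤ) = w i + w j := by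
    have h2 : ∀ l, (w l : ℤ) * ((if l = i ∨ l = j then 1 else 0 : ℕ) : ℤ) =
        (if l = i then (w l : ℤ) else 0) + (if l = j then (w l : ℤ) else 0) := by
      intro l
      by_cases h1 : l = i
      · subst h1
        simp [hij]
      · by_cases h2 : l = j
        · subst h2
          simp [h1]
        · simp [h1, h2]
    rw [Finset.sum_congr rfl fun l _ => h2 l, Finset.sum_add_distrib,
      Finset.sum_ite_eq' Finset.univ i, Finset.sum_ite_eq' Finset.univ j]
    simp
  rw [h1]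
  push_cast
  have : ((d + 2 : ℕ) : ℤ) ≤ ((w i + w j : ℕ) : ℤ) := by exact_mod_cast h
  push_cast at this
  linarith

theorem conic_ip {r d : ℕ} {v : Fin r → ℕ} {a : Fin 5 → ℕ} (h : 2 * d + 2 ≤ ∑ i, a i) :
    Pool.Agent.TH885.CO.ip d (Fin.append v a) 2 (con r) ≤ -2 := by
  unfold Pool.Agent.TH885.CO.ip
  have h1 : ∑ l, ((Fin.append v a l : ℕ) : ℤ) * ((con r l : ℕ) : ℤ) = ∑ i, (a i : ℤ) := by
    have h2 := Fin.sum_univ_add (a := r) (b := 5)
      (fun l => ((Fin.append v a l : ℕ) : ℤ) * ((con r l : ℕ) : ℤ))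
    rw [h2]
    unfold con
    simp [Fin.append_left, Fin.append_right]
  rw [h1]
  have h4 : ((2 * d + 2 : ℕ) : ℤ) ≤ ((∑ i, a i : ℕ) : ℤ) := by exact_mod_cast h
  push_cast at h4 ⊢
  linarith

theorem main {K : Type} [Field K] [CharZero K] {m r : ℕ} (hm : 1 ≤ m)
    {P : Fin (r + 5) → Fin 2 → K}
    (hP : AlgebraicIndependent ℚ (fun ij : Fin (r + 5) × Fin 2 => P ij.1 ij.2))
    {v : Fin r → ℕ} (hv : ∀ i, v i ≤ m) (a : Fin 5 → ℕ) {α : ℕ}
    (hα : IsLeast {x : ℕ | (∀ i j, i ≠ j → a i + a j ≤ x + 1) ∧ ∑ i, a i ≤ 2 * x + 1} α)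
    {d : ℕ} {G : MvPolynomial (Fin 3) K} (hG : SHDefs.Curve P G d (Fin.append v a)) :
    α ≤ d ∧ (α + (2 * m ^ 2 + 4 * m + 3) ≤ d →
      SHDefs.dimL P d (Fin.append v a) = SHDefs.virtdim d (Fin.append v a)) := by
  classical
  obtain ⟨⟨h1, h2⟩, hmin⟩ := hα
  have hq : ∃ q, r + 5 = q + 4 := ⟨r + 1, by omega⟩
  constructor
  · apply hmin
    refine ⟨fun i j hij => ?_, ?_⟩
    · by_contra hcon
      push Not at hcon
      have hne : Fin.natAdd r i ≠ Fin.natAdd r j := natAdd_ne hij
      have e1 : Fin.append v a (Fin.natAdd r i) = a i := Fin.append_right _ _ _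
      have e2 : Fin.append v a (Fin.natAdd r j) = a j := Fin.append_right _ _ _
      exact no_curve hq hP hG (e := 1)
        (u := fun l => if l = Fin.natAdd r i ∨ l = Fin.natAdd r j then 1 else 0)
        ⟨K, inferInstance, inferInstance, P, _, hP, exc_line hP hne⟩
        (line_ip hne (by rw [e1, e2]; omega))
    · by_contra hcon
      push Not at hcon
      exact no_curve hq hP hG (e := 2) (u := con r) (conic_exc r) (conic_ip (by omega))
  · intro hd
    have hC : Pool.Agent.W611.Cnd m d (Fin.append v a) := by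
      refine cnd_of hv a (fun i j hij => ?_) (by omega)
      have := h1 i j hij
      omega
    obtain ⟨F, hF, hF'⟩ := Pool.Agent.W611.expH K m (by omega) (Fin.append v a) d hC
    have h3 := hF' P (aeval_ne hP hF) d (Or.inl le_rfl)
    obtain ⟨g1, g2, g3⟩ := SH.curve_iff.1 hG
    have hmem : G ∈ VS (fun j => aff (P j)) (Fin.append v a) d := by
      rw [SH.mem_VS]
      exact ⟨g2, fun j => (g3 j).1⟩
    have hpos : 0 < Module.finrank K ↥(VS (fun j => aff (P j)) (Fin.append v a) d) := by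
      have hfin := Pool.Agent.W609.CR.vs_fin (fun j => aff (P j)) (Fin.append v a) d
      rw [Nat.pos_iff_ne_zero]
      intro h0
      have h5 : VS (fun j => aff (P j)) (Fin.append v a) d = ⊥ := Submodule.finrank_eq_zero.1 h0
      rw [h5, Submodule.mem_bot] at hmem
      exact g1.ne_zero hmem
    have hdim := SH.dimL_eq P d (Fin.append v a)
    unfold Pool.Agent.H932R3.ExpDim at h3
    unfold SHDefs.dimL SHDefs.sys SHDefs.pt at hdim ⊢
    rw [h3] at hdim ⊢
    unfold SHDefs.virtdim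
    have e : ∑ i, ((Fin.append v a i + 1).choose 2 : ℤ) =
        ((∑ i, (Fin.append v a i + 1).choose 2 : ℕ) : ℤ) := by
      push_cast
      rfl
    rw [e]
    omega

end Pool.Agent.R66.BX.Prime5
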