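import Pool.Agent.R66.BX.Lattice
import Pool.Agent.TH167.SH.Irr

set_option autoImplicit false

/-!
# Prime divisors with few large multiplicities and large degree
-/

namespace Pool.Agent.R66.BX.PrimeFin

open MvPolynomial Pool.Agent.TH167 Pool.Agent.TH167.SHDefs

theorem main {K : Type} [Field K] [CharZero K] {s m : ℕ} (hs : 4 ≤ s) (hm : 0 < m)
    (P : Fin s → Fin 2 → K)
    (hP : AlgebraicIndependent ℚ (fun ij : Fin s × Fin 2 => P ij.1 ij.2))
    (e : ℕ) (w : Fin s → ℕ) (hw : FewLarge m e w)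
    (G : MvPolynomial (Fin 3) K) (hG : Curve P G e w)
    (he : 2 ^ 27 * (4 * m ^ 2 + 8 * m + 5) ^ 6 + 2 * ∑ i, (if m < w i then 0 else w i) ≤ e) :
    dimL P e w = virtdim e w := by
  obtain ⟨r, rfl⟩ : ∃ r, s = r + 4 := ⟨s - 4, by omega⟩
  obtain ⟨h1, h2, h3⟩ := SH.curve_iff.1 hG
  rcases SH.irr_main hm rfl e P hP w hw G h1 h2 h3 with ⟨c1, c2⟩ | ⟨P1, e1, w1, G1, a1, a2, a3, a4,
    a5, a6, a7, a8, a9, a10, a11, a12⟩
  · rw [SH.dimL_eq, SH.virtdim_eq, c1]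
  · exfalso
    have hR : ReducesTo (bd m) e w e1 w1 := ⟨SH.chain_conv a5, a6, a7, a8⟩
    obtain ⟨hq, hstd, hd1, hc⟩ := hR
    obtain ⟨b1, b2⟩ := Lattice.small_bounds (by omega) hstd hd1 hc
    obtain ⟨c1, c2⟩ := Lattice.quads_inv hq
    have h4 := Lattice.bound_of (k := 0) hw (by push_cast; linarith) (by push_cast; linarith)
    omega

theorem mult_le {K : Type} [Field K] {s : ℕ} {P : Fin s → Fin 2 → K} {e : ℕ} {w : Fin s → ℕ}
    {G : MvPolynomial (Fin 3) K} (hG : Curve P G e w) (i : Fin s) : w i ≤ e := by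
  obtain ⟨h1, h2, h3⟩ := SH.curve_iff.1 hG
  exact SH.van_le h1.ne_zero h2 (h3 i).1

end Pool.Agent.R66.BX.PrimeFin
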