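import Pool.Agent.R66.BX.Five
import Pool.Agent.W611.SmoothH

set_option autoImplicit false

/-!
# Reduced systems with five arbitrary multiplicities
-/

namespace Pool.Agent.R66.BX.Smooth5

open MvPolynomial Pool.Agent.TH167 Pool.Agent.TH885.CO Pool.Agent.W609.CR Pool.Agent.R66.BX.Five
  Pool.Agent.H248R5

/-- The statement of the problem at the points `P`: if some element is squarefree, then the system
has the expected dimension, and its general member is smooth on the blow-up. -/
def Q1At {n : ℕ} (d : ℕ) (w : Fin n → ℕ) (P : Fin n → Fin 2 → ℂ) : Prop :=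
  (∃ f ∈ forms w P d, Squarefree f) →
    Module.finrank ℂ ↥(forms w P d) + ∑ i, (w i + 1).choose 2 = (d + 2).choose 2 ∧
      GeneralMember (forms w P d) (SmoothMember w P)

theorem forms_eq {n : ℕ} (d : ℕ) (w : Fin n → ℕ) (P : Fin n → Fin 2 → ℂ) :
    forms w P d = SHDefs.sys P d w := rfl

theorem dbl_gen {r d : ℕ} {w : Fin (r + 4) → ℕ} {e : ℕ} {u : Fin (r + 4) → ℕ}
    (hex : ∃ (K : Type) (_ : Field K) (_ : CharZero K) (P : Fin (r + 4) → Fin 2 → K)
      (C : MvPolynomial (Fin 3) K),
      AlgebraicIndependent ℚ (fun ij : Fin (r + 4) × Fin 2 => P ij.1 ij.2) ∧ Exc P C e u)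
    (h : ip d w e u ≤ -2) : ForGeneral (Q1At d w) := by
  obtain ⟨F, hF, hF'⟩ := exc_spread e u hex
  have h1 : ForGeneral (n := r + 4) fun P : Fin (r + 4) → Fin 2 → ℂ => ∃ C, Exc P C e u :=
    ⟨F, hF, fun P hP => hF' ℂ P hP⟩
  refine (h1.and (inj_gen (r + 4))).mono fun P hP hs => ?_
  exfalso
  obtain ⟨⟨C, hC⟩, hinj⟩ := hP
  obtain ⟨f, hf, hsq⟩ := hs
  rw [forms_eq, sys_eq] at hf
  have h2 := exc_pow_dvd hinj hC 2 d w h f hf
  rw [sq] at h2
  exact hC.irr.not_isUnit (hsq C h2)

theorem dbl_genN {n d : ℕ} (hn : ∃ q, n = q + 4) {w : Fin n → ℕ} {e : ℕ} {u : Fin n → ℕ}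
    (hex : ∃ (K : Type) (_ : Field K) (_ : CharZero K) (P : Fin n → Fin 2 → K)
      (C : MvPolynomial (Fin 3) K),
      AlgebraicIndependent ℚ (fun ij : Fin n × Fin 2 => P ij.1 ij.2) ∧ Exc P C e u)
    (h : ip d w e u ≤ -2) : ForGeneral (Q1At d w) := by
  obtain ⟨q, rfl⟩ := hn
  exact dbl_gen hex h

theorem line_dbl {r d : ℕ} {w : Fin (r + 4) → ℕ} {i j : Fin (r + 4)} (hij : i ≠ j)
    (h : d + 2 ≤ w i + w j) : ForGeneral (Q1At d w) := by
  classical
  obtain ⟨K, i1, i2, P, hP⟩ := exists_generic (r + 4)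
  refine dbl_gen (e := 1) (u := fun l => if l = i ∨ l = j then 1 else 0)
    ⟨K, i1, i2, P, _, hP, exc_line hP hij⟩ ?_
  unfold ip
  have h1 : ∑ l, (w l : ℤ) * ((if l = i ∨ l = j then 1 else 0 : ℕ) : ℤ) = w i + w j := by
    have h2 : ∀ l, (w l : ℤ) * ((if l = i ∨ l = j then 1 else 0 : ℕ) : ℤ) =
        (if l = i then (w l : ℤ) else 0) + (if l = j then (w l : ℤ) else 0) := by
      intro l
      by_cases h1 : l = i
      · subst h1
        simp [hij]
      · by_cases h2 : l = j
        · subst h2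
          simp [h1]
        · simp [h1, h2]
    rw [Finset.sum_congr rfl fun l _ => h2 l, Finset.sum_add_distrib,
      Finset.sum_ite_eq' Finset.univ i, Finset.sum_ite_eq' Finset.univ j]
    simp
  rw [h1]
  push_cast
  have : ((d + 2 : ℕ) : ℤ) ≤ ((w i + w j : ℕ) : ℤ) := by exact_mod_cast h
  push_cast at this
  linarith

theorem line_dblN {n d : ℕ} (hn : ∃ q, n = q + 4) {w : Fin n → ℕ} {i j : Fin n} (hij : i ≠ j)
    (h : d + 2 ≤ w i + w j) : ForGeneral (Q1At d w) := by
  obtain ⟨q, rfl⟩ := hn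
  exact line_dbl hij h

theorem conic_dbl {r d : ℕ} {v : Fin r → ℕ} {a : Fin 5 → ℕ} (h : 2 * d + 2 ≤ ∑ i, a i) :
    ForGeneral (Q1At d (Fin.append v a)) := by
  refine dbl_genN ⟨r + 1, by omega⟩ (e := 2) (u := con r) (w := Fin.append v a) (conic_exc r) ?_
  unfold ip
  have h1 : ∑ l, ((Fin.append v a l : ℕ) : ℤ) * ((con r l : ℕ) : ℤ) = ∑ i, (a i : ℤ) := by
    have h2 := Fin.sum_univ_add (a := r) (b := 5)
      (fun l => ((Fin.append v a l : ℕ) : ℤ) * ((con r l : ℕ) : ℤ))
    rw [h2]
    unfold con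
    simp [Fin.append_left, Fin.append_right]
  rw [h1]
  have h4 : ((2 * d + 2 : ℕ) : ℤ) ≤ ((∑ i, a i : ℕ) : ℤ) := by exact_mod_cast h
  push_cast at h4 ⊢
  linarith

/-- The starting theorem for five arbitrary multiplicities. -/
theorem smooth_of {r m d : ℕ} (hm : 1 ≤ m) {v : Fin r → ℕ} (hv : ∀ i, v i < m) (a : Fin 5 → ℕ)
    (h2 : ∀ i j, i ≠ j → a i + a j + (2 * m ^ 2 + 3 * m + 3) ≤ d)
    (h5 : ∑ i, a i + (4 * m ^ 2 + 8 * m + 7) ≤ 2 * d) :
    ForGeneral fun P => Module.finrank ℂ ↥(forms (Fin.append v a) P d) =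
        (d + 2).choose 2 - ∑ i, (Fin.append v a i + 1).choose 2 ∧
      ((∀ i, (∑ j, (Fin.append v a j + 1).choose 2) + Fin.append v a i + 1 ≤ (d + 2).choose 2) →
        GeneralMember (forms (Fin.append v a) P d) (SmoothMember (Fin.append v a) P)) := by
  have hf : Pool.Agent.W611.ff m = 2 * m ^ 2 + 3 * m + 2 := by
    unfold Pool.Agent.W611.ff
    ring
  obtain ⟨F, hF, hF'⟩ := Pool.Agent.W611.smoothH (K := ℂ) m (by omega) (Fin.append v a) d
    (by
      have := h2 0 1 (by decide)
      rw [hf]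
      omega)
    (fun i => by
      refine Fin.addCases (fun j => ?_) (fun k => ?_) i
      · rw [Fin.append_left]
        intro h
        have := hv j
        omega
      · rw [Fin.append_right, hf]
        intro _
        obtain ⟨l, hl⟩ : ∃ l : Fin 5, k ≠ l := by
          by_cases h0 : k = 0
          · exact ⟨1, by rw [h0]; decide⟩
          · exact ⟨0, h0⟩
        have := h2 k l hl
        omega)
    (fun i j => by
      refine Fin.addCases (fun i' => ?_) (fun i' => ?_) i
      · rw [Fin.append_left]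
        intro _ h
        have := hv i'
        omega
      · refine Fin.addCases (fun j' => ?_) (fun j' => ?_) j
        · rw [Fin.append_left]
          intro _ _ h
          have := hv j'
          omega
        · rw [Fin.append_right, Fin.append_right, hf]
          intro hne _ _
          have h3 : i' ≠ j' := fun h => hne (by rw [h])
          have := h2 i' j' h3
          omega)
    (by
      right
      have hS : (∑ i, if m ≤ Fin.append v a i then Fin.append v a i else 0) ≤ ∑ i, a i := by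
        rw [Fin.sum_univ_add]
        have h6 : ∑ i : Fin r, (if m ≤ Fin.append v a (Fin.castAdd 5 i) then
            Fin.append v a (Fin.castAdd 5 i) else 0) = 0 := by
          refine Finset.sum_eq_zero fun i _ => ?_
          rw [Fin.append_left, if_neg (by have := hv i; omega)]
        rw [h6, zero_add]
        refine Finset.sum_le_sum fun i _ => ?_
        rw [Fin.append_right]
        split_ifs <;> omega
      rw [hf]
      omega)
  exact ⟨F, hF, fun P hP => hF' P hP d le_rfl⟩

/-- Outside of the windows the statement of the problem holds. -/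
theorem q1_of {r m d : ℕ} (hm : 1 ≤ m) {v : Fin r → ℕ} (hv : ∀ i, v i < m) (a : Fin 5 → ℕ)
    (h2 : ∀ i j, i < j → a i + a j + (2 * m ^ 2 + 3 * m + 3) ≤ d ∨ d + 2 ≤ a i + a j)
    (h5 : ∑ i, a i + (4 * m ^ 2 + 8 * m + 7) ≤ 2 * d ∨ 2 * d + 2 ≤ ∑ i, a i)
    (h6 : (∀ i j, i < j → a i + a j + (2 * m ^ 2 + 3 * m + 3) ≤ d) →
      ∑ i, (Fin.append v a i + 1).choose 2 < (d + 2).choose 2 →
        ∀ i, (∑ j, (Fin.append v a j + 1).choose 2) + Fin.append v a i < (d + 2).choose 2) :
    ForGeneral (Q1At d (Fin.append v a)) := by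
  by_cases hp : ∃ i j : Fin 5, i < j ∧ d + 2 ≤ a i + a j
  · obtain ⟨i, j, hij, h⟩ := hp
    refine line_dblN ⟨r + 1, by omega⟩ (w := Fin.append v a) (i := Fin.natAdd r i)
      (j := Fin.natAdd r j) (natAdd_ne hij.ne) ?_
    have e1 : Fin.append v a (Fin.natAdd r i) = a i := Fin.append_right _ _ _
    have e2 : Fin.append v a (Fin.natAdd r j) = a j := Fin.append_right _ _ _
    calc d + 2 ≤ a i + a j := h
      _ = Fin.append v a (Fin.natAdd r i) + Fin.append v a (Fin.natAdd r j) := by rw [e1, e2]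
  · push Not at hp
    have hA : ∀ i j, i < j → a i + a j + (2 * m ^ 2 + 3 * m + 3) ≤ d := by
      intro i j hij
      rcases h2 i j hij with h | h
      · exact h
      · have := hp i j hij
        omega
    rcases h5 with h5 | h5
    · refine (smooth_of hm hv a (fun i j hij => ?_) h5).mono fun P hP hs => ?_
      · rcases lt_or_gt_of_ne hij with h | h
        · exact hA i j h
        · have := hA j i h
          omega
      · obtain ⟨hdim, hsm⟩ := hP
        obtain ⟨f, hf, hsq⟩ := hs
        have hpos : ∑ i, (Fin.append v a i + 1).choose 2 < (d + 2).choose 2 := by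
          by_contra hcon
          push Not at hcon
          rw [Nat.sub_eq_zero_of_le hcon] at hdim
          have hfin : Module.Finite ℂ ↥(forms (Fin.append v a) P d) := by
            rw [forms_eq, sys_eq]
            exact vs_fin (fun j => aff (P j)) (Fin.append v a) d
          have h7 : forms (Fin.append v a) P d = ⊥ := Submodule.finrank_eq_zero.1 hdim
          rw [h7, Submodule.mem_bot] at hf
          rw [hf] at hsq
          exact not_squarefree_zero hsq
        have h8 := h6 hA hpos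
        exact ⟨by omega, hsm fun i => h8 i⟩
    · exact conic_dbl h5

end Pool.Agent.R66.BX.Smooth5
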