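import Pool.Agent.R66.BX.Tail

set_option autoImplicit false

/-!
# The lower tail of a sum of independent bounded variables, with different functions
-/

namespace Pool.Agent.R66.BX.HD

open Finset

/-- The sum of the mean values of `f`. -/
noncomputable def meanI {n : ℕ} (A : Fin n → Finset ℕ) (f : Fin n → ℕ → ℝ) : ℝ :=
  ∑ i, (∑ a ∈ A i, f i a) / ((A i).card : ℝ)

/-- The lower tail of the sum of the values of functions with values in `[0, 1]`. -/
theorem tailI {n : ℕ} (A : Fin n → Finset ℕ) (hA : ∀ i, (A i).Nonempty) (f : Fin n → ℕ → ℝ)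
    (hf : ∀ i, ∀ a ∈ A i, 0 ≤ f i a ∧ f i a ≤ 1) :
    (((Fintype.piFinset A).filter (fun m => ∑ i, f i (m i) ≤ meanI A f / 2)).card : ℝ) * meanI A f ≤
      22 * ∏ i, ((A i).card : ℝ) := by
  classical
  have hcard : ∀ i, (0 : ℝ) < ((A i).card : ℝ) := fun i => by
    exact_mod_cast (hA i).card_pos
  have hm0 : 0 ≤ meanI A f := by
    unfold meanI
    exact Finset.sum_nonneg fun i _ => div_nonneg (Finset.sum_nonneg fun a ha => (hf i a ha).1)
      (hcard i).le
  obtain ⟨l, hl⟩ : ∃ l : ℝ, l = 1 / 8 := ⟨_, rfl⟩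
  have hl0 : 0 < l := by rw [hl]; norm_num
  have hsum : ∑ m ∈ Fintype.piFinset A, Real.exp (-(l * ∑ i, f i (m i))) =
      ∏ i, ∑ a ∈ A i, Real.exp (-(l * f i a)) := by
    rw [Finset.prod_univ_sum]
    refine Finset.sum_congr rfl fun m _ => ?_
    rw [← Real.exp_sum, Finset.mul_sum, ← Finset.sum_neg_distrib]
  have hfac : ∀ i, ∑ a ∈ A i, Real.exp (-(l * f i a)) ≤
      ((A i).card : ℝ) * Real.exp (-(7 / 8 * l * ((∑ a ∈ A i, f i a) / ((A i).card : ℝ)))) := by
    intro i
    have h1 : ∑ a ∈ A i, Real.exp (-(l * f i a)) ≤ ∑ a ∈ A i, (1 - 7 / 8 * (l * f i a)) := by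
      refine Finset.sum_le_sum fun a ha => exp_neg_le' (mul_nonneg hl0.le (hf i a ha).1) ?_
      rw [hl]
      linarith [(hf i a ha).2]
    refine h1.trans ?_
    rw [Finset.sum_sub_distrib, ← Finset.mul_sum, ← Finset.mul_sum, Finset.sum_const, nsmul_eq_mul,
      mul_one]
    have h4 : ((A i).card : ℝ) - 7 / 8 * (l * ∑ a ∈ A i, f i a) =
        ((A i).card : ℝ) * (-(7 / 8 * l * ((∑ a ∈ A i, f i a) / ((A i).card : ℝ))) + 1) := by
      have := (hcard i).ne'
      field_simp
      ring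
    rw [h4]
    exact mul_le_mul_of_nonneg_left (Real.add_one_le_exp _) (hcard i).le
  have hprod : ∏ i, ∑ a ∈ A i, Real.exp (-(l * f i a)) ≤
      (∏ i, ((A i).card : ℝ)) * Real.exp (-(7 / 8 * l * meanI A f)) := by
    calc ∏ i, ∑ a ∈ A i, Real.exp (-(l * f i a))
        ≤ ∏ i, (((A i).card : ℝ) *
            Real.exp (-(7 / 8 * l * ((∑ a ∈ A i, f i a) / ((A i).card : ℝ))))) :=
          Finset.prod_le_prod (fun i _ => Finset.sum_nonneg fun a _ => (Real.exp_pos _).le)
            fun i _ => hfac i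
      _ = (∏ i, ((A i).card : ℝ)) * Real.exp (-(7 / 8 * l * meanI A f)) := by
          rw [Finset.prod_mul_distrib, ← Real.exp_sum]
          unfold meanI
          rw [Finset.mul_sum, ← Finset.sum_neg_distrib]
  set F := (Fintype.piFinset A).filter (fun m => ∑ i, f i (m i) ≤ meanI A f / 2) with hF
  have hlow : (F.card : ℝ) * Real.exp (-(l * (meanI A f / 2))) ≤
      (∏ i, ((A i).card : ℝ)) * Real.exp (-(7 / 8 * l * meanI A f)) := by
    calc (F.card : ℝ) * Real.exp (-(l * (meanI A f / 2)))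
        = ∑ _m ∈ F, Real.exp (-(l * (meanI A f / 2))) := by rw [Finset.sum_const, nsmul_eq_mul]
      _ ≤ ∑ m ∈ F, Real.exp (-(l * ∑ i, f i (m i))) := by
          refine Finset.sum_le_sum fun m hm => Real.exp_le_exp.2 ?_
          have := (Finset.mem_filter.1 hm).2
          have := mul_le_mul_of_nonneg_left this hl0.le
          linarith
      _ ≤ ∑ m ∈ Fintype.piFinset A, Real.exp (-(l * ∑ i, f i (m i))) :=
          Finset.sum_le_sum_of_subset_of_nonneg (Finset.filter_subset _ _)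
            fun m _ _ => (Real.exp_pos _).le
      _ ≤ _ := by rw [hsum]; exact hprod
  have hF1 : (F.card : ℝ) ≤ (∏ i, ((A i).card : ℝ)) * Real.exp (-(3 / 8 * l * meanI A f)) := by
    have e1 : Real.exp (-(7 / 8 * l * meanI A f)) =
        Real.exp (-(3 / 8 * l * meanI A f)) * Real.exp (-(l * (meanI A f / 2))) := by
      rw [← Real.exp_add]
      congr 1
      ring
    rw [e1, ← mul_assoc] at hlow
    exact le_of_mul_le_mul_right hlow (Real.exp_pos _)
  have hy : Real.exp (-(3 / 8 * l * meanI A f)) * (3 / 8 * l * meanI A f) ≤ 1 := by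
    have h5 := Real.add_one_le_exp (3 / 8 * l * meanI A f)
    have h6 : (3 / 8 * l * meanI A f) ≤ Real.exp (3 / 8 * l * meanI A f) := by linarith
    calc Real.exp (-(3 / 8 * l * meanI A f)) * (3 / 8 * l * meanI A f)
        ≤ Real.exp (-(3 / 8 * l * meanI A f)) * Real.exp (3 / 8 * l * meanI A f) :=
          mul_le_mul_of_nonneg_left h6 (Real.exp_pos _).le
      _ = 1 := by rw [← Real.exp_add]; simp
  have hP0 : (0 : ℝ) ≤ ∏ i, ((A i).card : ℝ) := Finset.prod_nonneg fun i _ => (hcard i).le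
  have h7 : (F.card : ℝ) * (3 / 8 * l * meanI A f) ≤ ∏ i, ((A i).card : ℝ) := by
    calc (F.card : ℝ) * (3 / 8 * l * meanI A f)
        ≤ ((∏ i, ((A i).card : ℝ)) * Real.exp (-(3 / 8 * l * meanI A f))) * (3 / 8 * l * meanI A f) :=
          mul_le_mul_of_nonneg_right hF1 (by positivity)
      _ = (∏ i, ((A i).card : ℝ)) *
            (Real.exp (-(3 / 8 * l * meanI A f)) * (3 / 8 * l * meanI A f)) := by ring
      _ ≤ (∏ i, ((A i).card : ℝ)) * 1 := mul_le_mul_of_nonneg_left hy hP0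
      _ = _ := mul_one _
  rw [hl] at h7
  linarith


end Pool.Agent.R66.BX.HD
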