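import Pool.Agent.R66.BX.Deg
import Pool.Agent.R66.BX.Many

set_option autoImplicit false

/-!
# The windows of degrees for five arbitrary multiplicities
-/

namespace Pool.Agent.R66.BX.Win

open MvPolynomial Pool.Agent.TH167 Pool.Agent.TH885.CO Pool.Agent.W609.CR Pool.Agent.R66.BX.Five

/-- The statement of the conjecture in the form of Harbourne and Gimigliano, at the points `P`. -/
def CurveAt {n : ℕ} (d : ℕ) (w : Fin n → ℕ) (P : Fin n → Fin 2 → ℂ) : Prop :=
  SHDefs.Special P d w → ∃ (G : MvPolynomial (Fin 3) ℂ) (e : ℕ) (u : Fin n → ℕ),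
    SHDefs.MinusOne P G e u ∧ SHDefs.inter d w e u ≤ -2

theorem mo_of {n e : ℕ} {u : Fin n → ℕ} {P : Fin n → Fin 2 → ℂ} {C : MvPolynomial (Fin 3) ℂ}
    (h : Pool.Agent.TH885.CO.Exc P C e u) : SHDefs.MinusOne P C e u :=
  SH.minusOne_iff.2 ⟨h.irr, h.hom, h.ord, h.self, h.can⟩

theorem cur_gen {n d : ℕ} (hn : ∃ q, n = q + 4) {w : Fin n → ℕ} {e : ℕ} {u : Fin n → ℕ}
    (hex : ∃ (K : Type) (_ : Field K) (_ : CharZero K) (P : Fin n → Fin 2 → K)
      (C : MvPolynomial (Fin 3) K),
      AlgebraicIndependent ℚ (fun ij : Fin n × Fin 2 => P ij.1 ij.2) ∧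
        Pool.Agent.TH885.CO.Exc P C e u)
    (h : Pool.Agent.TH885.CO.ip d w e u ≤ -2) : ForGeneral (CurveAt d w) := by
  obtain ⟨q, rfl⟩ := hn
  obtain ⟨F, hF, hF'⟩ := exc_spread e u hex
  refine ⟨F, hF, fun P hP _ => ?_⟩
  obtain ⟨C, hC⟩ := hF' ℂ P hP
  exact ⟨C, e, u, mo_of hC, h⟩

theorem line_cur {r d : ℕ} {w : Fin (r + 4) → ℕ} {i j : Fin (r + 4)} (hij : i ≠ j)
    (h : d + 2 ≤ w i + w j) : ForGeneral (CurveAt d w) := by
  classical
  obtain ⟨K, i1, i2, P, hP⟩ := exists_generic (r + 4)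
  refine cur_gen ⟨r, rfl⟩ (e := 1) (u := fun l => if l = i ∨ l = j then 1 else 0)
    ⟨K, i1, i2, P, _, hP, exc_line hP hij⟩ ?_
  unfold Pool.Agent.TH885.CO.ip
  have h1 : ∑ l, (w l : ℤ) * ((if l = i ∨ l = j then 1 else 0 : ℕ) : ℤ) = w i + w j := by
    have h2 : ∀ l, (w l : ℤ) * ((if l = i ∨ l = j then 1 else 0 : ℕ) : ℤ) =
        (if l = i then (w l : ℤ) else 0) + (if l = j then (w l : ℤ) else 0) := by
      intro l
      by_cases h1 : l = i
      · subst h1
        simp [hij]
      · by_cases h2 : l = j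
        · subst h2
          simp [h1]
        · simp [h1, h2]
    rw [Finset.sum_congr rfl fun l _ => h2 l, Finset.sum_add_distrib,
      Finset.sum_ite_eq' Finset.univ i, Finset.sum_ite_eq' Finset.univ j]
    simp
  rw [h1]
  push_cast
  have : ((d + 2 : ℕ) : ℤ) ≤ ((w i + w j : ℕ) : ℤ) := by exact_mod_cast h
  push_cast at this
  linarith

theorem line_curN {n d : ℕ} (hn : ∃ q, n = q + 4) {w : Fin n → ℕ} {i j : Fin n} (hij : i ≠ j)
    (h : d + 2 ≤ w i + w j) : ForGeneral (CurveAt d w) := by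
  obtain ⟨q, rfl⟩ := hn
  exact line_cur hij h

theorem conic_cur {r d : ℕ} {v : Fin r → ℕ} {a : Fin 5 → ℕ} (h : 2 * d + 2 ≤ ∑ i, a i) :
    ForGeneral (CurveAt d (Fin.append v a)) := by
  refine cur_gen ⟨r + 1, by omega⟩ (e := 2) (u := con r) (w := Fin.append v a) (conic_exc r) ?_
  unfold Pool.Agent.TH885.CO.ip
  have h1 : ∑ l, ((Fin.append v a l : ℕ) : ℤ) * ((con r l : ℕ) : ℤ) = ∑ i, (a i : ℤ) := by
    have h2 := Fin.sum_univ_add (a := r) (b := 5)
      (fun l => ((Fin.append v a l : ℕ) : ℤ) * ((con r l : ℕ) : ℤ))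
    rw [h2]
    unfold con
    simp [Fin.append_left, Fin.append_right]
  rw [h1]
  have h4 : ((2 * d + 2 : ℕ) : ℤ) ≤ ((∑ i, a i : ℕ) : ℤ) := by exact_mod_cast h
  push_cast at h4 ⊢
  linarith

theorem nonspecial' {r m d : ℕ} (hm : 1 ≤ m) {v : Fin r → ℕ} (hv : ∀ i, v i ≤ m)
    (a : Fin 5 → ℕ) (h2 : ∀ i j, i ≠ j → a i + a j + (2 * m ^ 2 + 3 * m + 2) ≤ d)
    (h5 : ∑ i, a i + (4 * m ^ 2 + 8 * m + 5) ≤ 2 * d) :
    ForGeneral fun P => ¬ SHDefs.Special P d (Fin.append v a) := by
  have hf : Pool.Agent.W611.ff m = 2 * m ^ 2 + 3 * m + 2 := by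
    unfold Pool.Agent.W611.ff
    ring
  have hC : Pool.Agent.W611.Cnd m d (Fin.append v a) := by
    refine ⟨?_, ?_, ?_, ?_⟩
    · have := h2 0 1 (by decide)
      rw [hf]
      omega
    · intro i
      refine Fin.addCases (fun j => ?_) (fun k => ?_) i
      · rw [Fin.append_left]
        intro h
        have := hv j
        omega
      · rw [Fin.append_right, hf]
        intro _
        obtain ⟨l, hl⟩ : ∃ l : Fin 5, k ≠ l := by
          by_cases h0 : k = 0
          · exact ⟨1, by rw [h0]; decide⟩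
          · exact ⟨0, h0⟩
        have := h2 k l hl
        omega
    · intro i j
      refine Fin.addCases (fun i' => ?_) (fun i' => ?_) i
      · rw [Fin.append_left]
        intro _ h
        have := hv i'
        omega
      · refine Fin.addCases (fun j' => ?_) (fun j' => ?_) j
        · rw [Fin.append_left]
          intro _ _ h
          have := hv j'
          omega
        · rw [Fin.append_right, Fin.append_right, hf]
          intro hne _ _
          have h3 : i' ≠ j' := fun h => hne (by rw [h])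
          exact h2 i' j' h3
    · right
      have hS : Pool.Agent.W611.Slg m (Fin.append v a) ≤ ∑ i, a i := by
        unfold Pool.Agent.W611.Slg
        rw [Fin.sum_univ_add]
        have h6 : ∑ i : Fin r, (if Fin.append v a (Fin.castAdd 5 i) ≤ m then 0
            else Fin.append v a (Fin.castAdd 5 i)) = 0 := by
          refine Finset.sum_eq_zero fun i _ => ?_
          rw [Fin.append_left, if_pos (hv i)]
        rw [h6, zero_add]
        refine Finset.sum_le_sum fun i _ => ?_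
        rw [Fin.append_right]
        split_ifs <;> omega
      rw [hf]
      omega
  obtain ⟨F, hF, hF'⟩ := Pool.Agent.W611.expH ℂ m (by omega) (Fin.append v a) d hC
  refine ⟨F, hF, fun P hP hs => ?_⟩
  apply hs
  have h1 := hF' P hP d (Or.inl le_rfl)
  unfold Pool.Agent.H932R3.ExpDim at h1
  unfold SHDefs.dimL SHDefs.sys SHDefs.pt SHDefs.virtdim
  rw [h1]
  have e : ∑ i, ((Fin.append v a i + 1).choose 2 : ℤ) =
      ((∑ i, (Fin.append v a i + 1).choose 2 : ℕ) : ℤ) := by
    push_cast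
    rfl
  rw [e]
  omega

/-- The conjecture holds if a line or the conic is a double fixed part, and above the windows. -/
theorem cur_of {r m d : ℕ} (hm : 1 ≤ m) {v : Fin r → ℕ} (hv : ∀ i, v i ≤ m) (a : Fin 5 → ℕ)
    (h : (∃ i j : Fin 5, i < j ∧ d + 2 ≤ a i + a j) ∨ 2 * d + 2 ≤ ∑ i, a i ∨
      ((∀ i j : Fin 5, i < j → a i + a j + (2 * m ^ 2 + 3 * m + 2) ≤ d) ∧
        ∑ i, a i + (4 * m ^ 2 + 8 * m + 5) ≤ 2 * d)) :
    ForGeneral (CurveAt d (Fin.append v a)) := by
  rcases h with ⟨i, j, hij, h⟩ | h | ⟨h2, h5⟩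
  · refine line_curN ⟨r + 1, by omega⟩ (w := Fin.append v a) (i := Fin.natAdd r i)
      (j := Fin.natAdd r j) (natAdd_ne hij.ne) ?_
    have e1 : Fin.append v a (Fin.natAdd r i) = a i := Fin.append_right _ _ _
    have e2 : Fin.append v a (Fin.natAdd r j) = a j := Fin.append_right _ _ _
    calc d + 2 ≤ a i + a j := h
      _ = Fin.append v a (Fin.natAdd r i) + Fin.append v a (Fin.natAdd r j) := by rw [e1, e2]
  · exact conic_cur h
  · refine (nonspecial' hm hv a (fun i j hij => ?_) h5).mono fun P hP hs => absurd hs hP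
    rcases lt_or_gt_of_ne hij with h | h
    · exact h2 i j h
    · have := h2 j i h
      omega

/-- The largest sum of two of the five numbers. -/
def twoSum (a : Fin 5 → ℕ) : ℕ :=
  Finset.univ.sup fun p : Fin 5 × Fin 5 => if p.1 < p.2 then a p.1 + a p.2 else 0

theorem le_twoSum (a : Fin 5 → ℕ) {i j : Fin 5} (h : i < j) : a i + a j ≤ twoSum a := by
  have h1 := Finset.le_sup (f := fun p : Fin 5 × Fin 5 => if p.1 < p.2 then a p.1 + a p.2 else 0)
    (Finset.mem_univ (i, j))
  simp only [if_pos h] at h1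
  exact h1

theorem twoSum_le (a : Fin 5 → ℕ) {N : ℕ} (h : ∀ i j : Fin 5, i < j → a i + a j ≤ N) :
    twoSum a ≤ N := by
  refine Finset.sup_le fun p _ => ?_
  split_ifs with h1
  · exact h _ _ h1
  · exact Nat.zero_le _

/-- The first degree which has to be considered. -/
def first (a : Fin 5 → ℕ) : ℕ := max (twoSum a - 1) ((∑ i, a i) / 2)

/-- The exceptional degrees lie in an explicit interval of length `2 m ^ 2 + 4 m + 3`. -/
theorem window {m r d : ℕ} (hm : 1 ≤ m) {v : Fin r → ℕ} (hv : ∀ i, v i ≤ m) (a : Fin 5 → ℕ)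
    (h : ¬ ForGeneral (CurveAt d (Fin.append v a))) :
    first a ≤ d ∧ d < first a + (2 * m ^ 2 + 4 * m + 3) := by
  have h0 : ¬ _ := fun h1 => h (cur_of hm hv a h1)
  rw [not_or, not_or] at h0
  obtain ⟨h1, h2, h3⟩ := h0
  push Not at h1 h2
  have h4 : twoSum a ≤ d + 1 := twoSum_le a fun i j hij => by
    have := h1 i j hij
    omega
  have h5 : first a ≤ d := by
    unfold first
    apply max_le <;> omega
  refine ⟨h5, ?_⟩
  by_contra hcon
  push Not at hcon
  apply h3
  have h6 : twoSum a - 1 ≤ first a := le_max_left _ _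
  have h7 : (∑ i, a i) / 2 ≤ first a := le_max_right _ _
  refine ⟨fun i j hij => ?_, ?_⟩
  · have := le_twoSum a hij
    omega
  · omega

/-- The Harbourne-Hirschowitz form implies the form with a curve. -/
theorem cur_of_hh {n d : ℕ} {w : Fin n → ℕ} (h : Deg.HH d w) :
    FinExc.ForGeneral (CurveAt d w) := by
  obtain ⟨F, hF, h1⟩ := h
  refine ⟨F, hF, fun P hP hs => SH.mspecial_curve ((h1 P hP).1 hs)⟩

end Pool.Agent.R66.BX.Win
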